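import Pool.Agent.helper4.EQW.Close

/-!
# EQW: rational boxes for the scalar inequality
-/

namespace Pool.Agent.helper4.EQW

/-- Bounds valid on one box. -/
structure Leaf (α : Type) where
  xb : α
  vb : α
  Kb : α
  Ab : α
  ob : α
  ab : α
  al : α
  Sb : α
  Sl : α
  Cb : α
  D : α
  de : α
  eta : α
  eS : α
  W : α
  G : α
  pb : α
  pl : α
  m : α
  lam : α
  R : α
  T1 : α
  T2 : α
  T3 : α

/-- The inequalities that make the bounds correct. -/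
def Leaf.Ok {α : Type} [Field α] [LinearOrder α] (l : Leaf α) (s0 s1 U0 U1 : α) : Prop :=
  0 ≤ l.xb ∧
  (((1 + 8 * s0 + 8 * s0 ^ 2) * U1 - s0 ≤ l.xb ^ 2 ∧ (1 + 8 * s1 + 8 * s1 ^ 2) * U1 - s1 ≤ l.xb ^ 2) ∨
    s1 + l.vb ≤ l.xb ^ 2) ∧
  (U1 ≤ l.vb ∨ 1 ≤ 5 * l.vb ∨ 1 ≤ l.vb * (4 * (1 + s0))) ∧
  1 + s1 + 6 * s1 ≤ 2 * l.Kb * (1 + s1) ∧
  0 ≤ l.Ab ∧ l.vb ≤ l.Ab ^ 2 * (1 + 16 * s0 + 16 * s0 ^ 2) ∧
  (1 ≤ l.ob ∨ l.xb ≤ l.ob) ∧
  0 < l.ab ∧ 0 ≤ l.Sl ∧ l.Sl ^ 2 ≤ s0 ∧ 1 ≤ l.ab * (l.ab + 2 * l.Sl) ∧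
  0 < l.al ∧ 0 ≤ l.Sb ∧ s1 ≤ l.Sb ^ 2 ∧ l.al * (l.al + 2 * l.Sb) ≤ 1 ∧
  l.Kb * l.vb * l.Ab ≤ l.D ∧ l.D * l.ob ≤ l.de ∧ l.Kb * l.Ab * l.ob * (2 * l.xb + l.de) ≤ l.eta ∧
  l.Kb * l.vb * l.ob ≤ l.eS ∧
  0 < l.W ∧ (l.W + l.de) ^ 2 ≤ 1 + (5 + 20 * s0 + 16 * s0 ^ 2) * U0 ∧
  l.ab * (1 + l.eta) * (1 + l.eS) ≤ l.G * l.W ^ 3 ∧
  11 * (l.D * l.G) < 3 ∧ 3 * l.G ≤ l.T1 * (3 - 11 * (l.D * l.G)) ∧
  34 * (l.xb + l.de) * (l.xb + l.Sb) * (1 + l.eta) ^ 2 ≤ 25 * (l.T2 * (1 + 6 * s0)) ∧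
  0 ≤ l.pb ∧ 1 - (3 + 4 * s0) * U0 ≤ l.pb ^ 2 ∧
  l.D * l.pb ≤ l.R ∧ l.D * l.ob ≤ l.R ∧
  ((0 ≤ l.pl + l.xb ∧ (l.pl + l.xb) ^ 2 ≤ 1 + s0) ∨
    (0 < l.Cb ∧ 1 + s1 ≤ l.Cb ^ 2 ∧ 2 * l.Cb * l.pl ≤ 1)) ∧
  0 < l.m ∧ l.m + l.R ≤ l.pl ∧
  2 * (1 + 3 * l.m) ≤ l.lam * ((2 + l.m) * l.m) ∧ l.lam * l.R < 1 ∧
  l.lam * l.D * (l.pb ^ 2 + l.ob ^ 2) ≤ 2 * (l.T3 * (1 - l.lam * l.R)) ∧
  100 * (l.T1 + l.T2 + l.T3) ≤ 99 ∧ 4 * (l.vb * (1 + l.eta)) ≤ 1 ∧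
  0 ≤ 1 + l.al - l.Ab - l.de ∧ 7 * (l.vb * (1 + l.eta)) ≤ (1 + l.al - l.Ab - l.de) ^ 2

instance (l : Leaf ℚ) (s0 s1 U0 U1 : ℚ) : Decidable (l.Ok s0 s1 U0 U1) := by
  unfold Leaf.Ok
  infer_instance

/-- The leaf with real entries. -/
noncomputable def Leaf.toR (l : Leaf ℚ) : Leaf ℝ where
  xb := l.xb
  vb := l.vb
  Kb := l.Kb
  Ab := l.Ab
  ob := l.ob
  ab := l.ab
  al := l.al
  Sb := l.Sb
  Sl := l.Sl
  Cb := l.Cb
  D := l.D
  de := l.de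
  eta := l.eta
  eS := l.eS
  W := l.W
  G := l.G
  pb := l.pb
  pl := l.pl
  m := l.m
  lam := l.lam
  R := l.R
  T1 := l.T1
  T2 := l.T2
  T3 := l.T3

theorem Leaf.ok_toR {l : Leaf ℚ} {s0 s1 U0 U1 : ℚ} (h : l.Ok s0 s1 U0 U1) :
    l.toR.Ok (s0 : ℝ) s1 U0 U1 := by
  unfold Leaf.Ok at h ⊢
  unfold Leaf.toR
  dsimp only
  exact_mod_cast h

/-- What the scalar estimates must give. -/
def Goal (θ s v A x o p K a δ η S W : ℝ) : Prop :=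
  v * (1 + η) ≤ 1 / 4 ∧ 7 * (v * (1 + η)) ≤ (1 + a - A - δ) ^ 2 ∧ 0 ≤ 1 + a - A - δ ∧
  lamb (p - K * v * A * max p o) * (K * v * A * max p o) < 1 ∧
  11 / 3 * (K * v * A * fG K a W v A o x) < 1 ∧
  T1f (K * v * A) (fG K a W v A o x) + T2f K v A o x S s +
    T3f (lamb (p - K * v * A * max p o)) (K * v * A) (p ^ 2) o (K * v * A * max p o) ≤ θ

theorem quad_max {c b d M s s0 s1 : ℝ} (hc : 0 ≤ c) (h0 : s0 ≤ s) (h1 : s ≤ s1)
    (f0 : c * s0 ^ 2 + b * s0 + d ≤ M) (f1 : c * s1 ^ 2 + b * s1 + d ≤ M) :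
    c * s ^ 2 + b * s + d ≤ M := by
  rcases (h0.trans h1).eq_or_lt with h | h
  · have : s = s0 := le_antisymm (h1.trans h.ge) h0
    rw [this]
    exact f0
  · have k1 : 0 ≤ (s - s0) * (s1 - s) := mul_nonneg (by linarith) (by linarith)
    have k2 : (c * s ^ 2 + b * s + d) * (s1 - s0) =
        (c * s0 ^ 2 + b * s0 + d) * (s1 - s) + (c * s1 ^ 2 + b * s1 + d) * (s - s0) -
          c * ((s - s0) * (s1 - s)) * (s1 - s0) := by ring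
    have k3 : (c * s0 ^ 2 + b * s0 + d) * (s1 - s) ≤ M * (s1 - s) :=
      mul_le_mul_of_nonneg_right f0 (by linarith)
    have k4 : (c * s1 ^ 2 + b * s1 + d) * (s - s0) ≤ M * (s - s0) :=
      mul_le_mul_of_nonneg_right f1 (by linarith)
    have k5 : 0 ≤ c * ((s - s0) * (s1 - s)) * (s1 - s0) :=
      mul_nonneg (mul_nonneg hc k1) (by linarith)
    have k6 : (c * s ^ 2 + b * s + d) * (s1 - s0) ≤ M * (s1 - s0) := by
      rw [k2]
      nlinarith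
    exact le_of_mul_le_mul_right k6 (by linarith)

/-- Monotonicity: bounds of all ingredients give a bound of the sum. -/
theorem goal_of_bounds {s v A x o p K a δ η S W xb vb Kb Ab ob ab al Sb D de eta eS Wb G pb m lam R
    T1 T2 T3 s0 θ : ℝ} (hs0 : 0 ≤ s0) (hs : s0 ≤ s) (hv0 : 0 ≤ v) (hA0 : 0 ≤ A) (hx0 : 0 ≤ x)
    (ho0 : 0 ≤ o) (hp0 : 0 < p) (hK0 : 0 < K) (ha0 : 0 < a) (hS0 : 0 ≤ S)
    (hδ : δ = K * v * A * o) (hη : η = K * A * o * (2 * x + δ))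
    (hv : v ≤ vb) (hA : A ≤ Ab) (hx : x ≤ xb) (ho : o ≤ ob) (hK : K ≤ Kb) (ha : a ≤ ab)
    (hal : al ≤ a) (hS : S ≤ Sb)
    (hD : Kb * vb * Ab ≤ D) (hde : D * ob ≤ de) (heta : Kb * Ab * ob * (2 * xb + de) ≤ eta)
    (heS : Kb * vb * ob ≤ eS) (hWb : 0 < Wb) (hW : Wb ≤ W)
    (hG : ab * (1 + eta) * (1 + eS) ≤ G * Wb ^ 3) (hDG : 11 / 3 * (D * G) < 1)
    (hT1 : G ≤ T1 * (1 - 11 / 3 * (D * G)))
    (hT2 : 34 / 25 * (xb + de) * (xb + Sb) * (1 + eta) ^ 2 ≤ T2 * (1 + 6 * s0))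
    (hpb : p ≤ pb) (hR1 : D * pb ≤ R) (hR2 : D * ob ≤ R) (hm : 0 < m) (hmp : m + R ≤ p)
    (hlam : 1 + 3 * m ≤ lam * ((1 + m / 2) * m)) (hlR : lam * R < 1)
    (hT3 : lam * D * (pb ^ 2 + ob ^ 2) / 2 ≤ T3 * (1 - lam * R))
    (hT : T1 + T2 + T3 ≤ θ) (h4 : vb * (1 + eta) ≤ 1 / 4) (h70 : 0 ≤ 1 + al - Ab - de)
    (h7 : 7 * (vb * (1 + eta)) ≤ (1 + al - Ab - de) ^ 2) :
    Goal θ s v A x o p K a δ η S W := by
  have hvb : 0 ≤ vb := hv0.trans hv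
  have hAb : 0 ≤ Ab := hA0.trans hA
  have hxb : 0 ≤ xb := hx0.trans hx
  have hob : 0 ≤ ob := ho0.trans ho
  have hKb : 0 < Kb := hK0.trans_le hK
  have hab : 0 < ab := ha0.trans_le ha
  have hSb : 0 ≤ Sb := hS0.trans hS
  have hpb0 : 0 < pb := hp0.trans_le hpb
  have D1 : K * v * A ≤ D := by
    refine le_trans ?_ hD
    gcongr
  have D0 : 0 ≤ K * v * A := by positivity
  have hD0 : 0 ≤ D := D0.trans D1
  have d1 : δ ≤ de := by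
    rw [hδ]
    refine le_trans ?_ hde
    gcongr
  have d0 : 0 ≤ δ := by rw [hδ]; positivity
  have hde0 : 0 ≤ de := d0.trans d1
  have e1 : η ≤ eta := by
    rw [hη]
    refine le_trans ?_ heta
    gcongr
  have e0 : 0 ≤ η := by rw [hη]; positivity
  have heta0 : 0 ≤ eta := e0.trans e1
  have es1 : K * v * o ≤ eS := by
    refine le_trans ?_ heS
    gcongr
  have es0 : 0 ≤ K * v * o := by positivity
  have heS0 : 0 ≤ eS := es0.trans es1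
  have hW0 : 0 < W := hWb.trans_le hW
  have hηf : 1 + K * A * o * (2 * x + K * v * A * o) = 1 + η := by rw [hη, hδ]
  have g1 : fG K a W v A o x ≤ G := by
    unfold fG
    rw [hηf, div_le_iff₀ (by positivity)]
    have hGn : 0 ≤ G := by
      have : 0 ≤ G * Wb ^ 3 := le_trans (by positivity) hG
      exact nonneg_of_mul_nonneg_left this (by positivity)
    calc a * (1 + η) * (1 + K * v * o) ≤ ab * (1 + eta) * (1 + eS) := by gcongr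
      _ ≤ G * Wb ^ 3 := hG
      _ ≤ G * W ^ 3 := by gcongr
  have g0 : 0 ≤ fG K a W v A o x := by
    unfold fG
    rw [hηf]
    positivity
  have hG0 : 0 ≤ G := g0.trans g1
  have dg : K * v * A * fG K a W v A o x ≤ D * G := mul_le_mul D1 g1 g0 hD0
  have hmax : K * v * A * max p o ≤ R := by
    rcases le_total p o with h | h
    · rw [max_eq_right h]
      refine le_trans ?_ hR2
      gcongr
    · rw [max_eq_left h]
      refine le_trans ?_ hR1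
      gcongr
  have hR0 : 0 ≤ K * v * A * max p o := mul_nonneg D0 (le_max_of_le_left hp0.le)
  have hRn : 0 ≤ R := hR0.trans hmax
  have hmR : m ≤ p - K * v * A * max p o := by linarith
  have hl1 : lamb (p - K * v * A * max p o) ≤ lam := by
    refine (lamb_anti hm hmR).trans ?_
    unfold lamb
    rw [div_le_iff₀ (by positivity)]
    exact hlam
  have hl0 : 0 < lamb (p - K * v * A * max p o) := lamb_pos (hm.trans_le hmR)
  have hlam0 : 0 < lam := hl0.trans_le hl1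
  have hlR' : lamb (p - K * v * A * max p o) * (K * v * A * max p o) ≤ lam * R :=
    mul_le_mul hl1 hmax hR0 hlam0.le
  have hs' : 0 ≤ s := hs0.trans hs
  refine ⟨?_, ?_, ?_, by linarith, by linarith, ?_⟩
  · calc v * (1 + η) ≤ vb * (1 + eta) := by gcongr
      _ ≤ 1 / 4 := h4
  · calc 7 * (v * (1 + η)) ≤ 7 * (vb * (1 + eta)) := by gcongr
      _ ≤ (1 + al - Ab - de) ^ 2 := h7
      _ ≤ (1 + a - A - δ) ^ 2 := by
        apply pow_le_pow_left₀ h70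
        linarith
  · linarith
  · refine le_trans (add_le_add (add_le_add ?_ ?_) ?_) hT
    · -- T1
      unfold T1f
      rw [div_le_iff₀ (by linarith)]
      have hT10 : 0 ≤ T1 := by
        have : 0 ≤ T1 * (1 - 11 / 3 * (D * G)) := hG0.trans hT1
        exact nonneg_of_mul_nonneg_left this (by linarith)
      calc fG K a W v A o x ≤ G := g1
        _ ≤ T1 * (1 - 11 / 3 * (D * G)) := hT1
        _ ≤ T1 * (1 - 11 / 3 * (K * v * A * fG K a W v A o x)) := by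
          apply mul_le_mul_of_nonneg_left _ hT10
          linarith
    · unfold T2f
      rw [hηf, ← hδ, div_le_iff₀ (by positivity)]
      have hT20 : 0 ≤ T2 := by
        have : 0 ≤ T2 * (1 + 6 * s0) := le_trans (by positivity) hT2
        exact nonneg_of_mul_nonneg_left this (by positivity)
      calc 34 / 25 * (x + δ) * (x + S) * (1 + η) ^ 2 ≤
            34 / 25 * (xb + de) * (xb + Sb) * (1 + eta) ^ 2 := by gcongr
        _ ≤ T2 * (1 + 6 * s0) := hT2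
        _ ≤ T2 * (1 + 6 * s) := by gcongr
    · unfold T3f
      rw [div_le_iff₀ (by linarith)]
      have hT30 : 0 ≤ T3 := by
        have : 0 ≤ T3 * (1 - lam * R) := le_trans (by positivity) hT3
        exact nonneg_of_mul_nonneg_left this (by linarith)
      calc lamb (p - K * v * A * max p o) * (K * v * A) * (p ^ 2 + o ^ 2) / 2 ≤
            lam * D * (pb ^ 2 + ob ^ 2) / 2 := by gcongr
        _ ≤ T3 * (1 - lam * R) := hT3
        _ ≤ T3 * (1 - lamb (p - K * v * A * max p o) * (K * v * A * max p o)) := by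
          apply mul_le_mul_of_nonneg_left _ hT30
          linarith

end Pool.Agent.helper4.EQW
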