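import Pool.Agent.helper4.EQW.Box

/-!
# EQW: soundness of the boxes
-/

namespace Pool.Agent.helper4.EQW

variable {e κ : ℝ} {P : ℂ} {s U v A B x o p δ η : ℝ}

theorem leaf_sound {l : Leaf ℝ} {s0 s1 U0 U1 : ℝ} (h : l.Ok s0 s1 U0 U1) (hs0 : 0 ≤ s0)
    (hU0 : 0 ≤ U0) (hs : s0 ≤ s) (hs1 : s ≤ s1) (hU : U0 ≤ U) (hU1 : U ≤ U1)
    (he : 1 ≤ e) (he2 : e ≤ 2) (hκ : 0 < κ) (F : Facts κ P s U v A B x o p)
    (X : Aux e κ s U v A B x o p (KK e κ) (Real.exp (-κ)) δ η) :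
    Goal (99 / 100) s v A x o p (KK e κ) (Real.exp (-κ)) δ η (Real.sinh κ)
      (‖2 * (Real.cosh κ : ℂ) - P‖ - δ) := by
  obtain ⟨c1, c2, c3, c4, c5, c6, c7, c8, c9, c10, c11, c12, c13, c14, c15, c16, c17, c18, c19, c20,
    c21, c22, c23, c24, c25, c26, c27, c28, c29, c30, c31, c32, c33, c34, c35, c36, c37, c38,
    c39⟩ := h
  have hsp := F.s_pos
  have hS : 0 < Real.sinh κ := Real.sinh_pos_iff.2 hκ
  have hC1 := Real.one_le_cosh κ
  have hCs : Real.cosh κ ^ 2 = 1 + s := by rw [F.s_def, Real.cosh_sq]; ring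
  have hSs : Real.sinh κ ^ 2 = s := F.s_def.symm
  have hs1p : 0 < s1 := hsp.trans_le hs1
  have hv0 := X.v_nn
  have hA0 := X.A_nn
  have hx0 := X.x_nn
  have ho0 := X.o_nn
  have hp0 := X.p_pos
  have hUn := X.U_nn
  -- v
  have hv : v ≤ l.vb := by
    rcases c3 with h | h | h
    · exact F.v_le_U.trans (hU1.trans h)
    · have := F.v_lt
      linarith only [this, h]
    · have h1 := F.v_le
      have h2 : v * (4 * (1 + s0)) ≤ v * (4 * (1 + s)) := by
        apply mul_le_mul_of_nonneg_left _ hv0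
        linarith only [hs]
      have h3 : v * (4 * (1 + s0)) ≤ l.vb * (4 * (1 + s0)) := by linarith only [h1, h2, h]
      exact le_of_mul_le_mul_right h3 (by linarith only [hs0])
  have hvb : 0 ≤ l.vb := hv0.trans hv
  -- x
  have hx : x ≤ l.xb := by
    apply le_of_sq_le_sq _ c1
    rcases c2 with ⟨h1, h2⟩ | h1
    · have hq := F.U_eq
      unfold q4 at hq
      have h3 : x ^ 2 ≤ (8 * U1) * s ^ 2 + (8 * U1 - 1) * s + U1 := by
        have : (1 + 8 * s + 8 * s ^ 2) * U ≤ (1 + 8 * s + 8 * s ^ 2) * U1 :=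
          mul_le_mul_of_nonneg_left hU1 (by positivity)
        linarith only [this, hq]
      refine h3.trans (quad_max (by linarith only [hU1, hUn]) hs hs1 ?_ ?_)
      · linarith only [h1]
      · linarith only [h2]
    · have := F.x_le
      linarith only [this, h1, hv, hs1]
  -- K
  have hK : KK e κ ≤ l.Kb := by
    refine (KK_le he he2 hκ).trans ?_
    rw [hSs]
    have h1 : 3 * s / (1 + s) ≤ 3 * s1 / (1 + s1) := by
      rw [div_le_div_iff₀ (by linarith only [hsp]) (by linarith only [hs1p])]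
      linarith only [hs1]
    have h2 : 1 / 2 + 3 * s1 / (1 + s1) ≤ l.Kb := by
      have h3 : 1 / 2 + 3 * s1 / (1 + s1) = (1 + s1 + 6 * s1) / (2 * (1 + s1)) := by
        field_simp
        ring
      rw [h3, div_le_iff₀ (by linarith only [hs1p])]
      linarith only [c4]
    linarith only [h1, h2]
  -- A
  have hA : A ≤ l.Ab := by
    apply le_of_sq_le_sq _ c5
    have h1 := F.A_le
    have hsq : s0 ^ 2 ≤ s ^ 2 := pow_le_pow_left₀ hs0 hs 2
    have h2 : 1 + 16 * s0 + 16 * s0 ^ 2 ≤ 1 + 16 * s + 16 * s ^ 2 := by linarith only [hsq, hs]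
    have h3 : l.Ab ^ 2 * (1 + 16 * s0 + 16 * s0 ^ 2) ≤ l.Ab ^ 2 * (1 + 16 * s + 16 * s ^ 2) :=
      mul_le_mul_of_nonneg_left h2 (by positivity)
    have h4 : A ^ 2 * (1 + 16 * s + 16 * s ^ 2) ≤ l.Ab ^ 2 * (1 + 16 * s + 16 * s ^ 2) := by
      linarith only [h1, h3, c6, hv]
    exact le_of_mul_le_mul_right h4 (by positivity)
  -- o
  have ho : o ≤ l.ob := by
    rcases c7 with h | h
    · exact F.o_le_1.trans h
    · exact F.o_le_x.trans (hx.trans h)
  -- a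
  have haS : Real.exp (-κ) * (Real.exp (-κ) + 2 * Real.sinh κ) = 1 := by
    rw [exp_neg_eq]
    linarith only [Real.cosh_sq κ]
  have ha0 := X.a_pos
  have hSl : l.Sl ≤ Real.sinh κ := by
    apply le_of_sq_le_sq _ hS.le
    rw [hSs]
    linarith only [c10, hs]
  have hSb : Real.sinh κ ≤ l.Sb := by
    apply le_of_sq_le_sq _ c13
    rw [hSs]
    linarith only [c14, hs1]
  have ha : Real.exp (-κ) ≤ l.ab := by
    by_contra hc
    push Not at hc
    have h1 : l.ab * (l.ab + 2 * l.Sl) < Real.exp (-κ) * (Real.exp (-κ) + 2 * Real.sinh κ) := by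
      have h2 : l.ab + 2 * l.Sl < Real.exp (-κ) + 2 * Real.sinh κ := by linarith only [hc, hSl]
      calc l.ab * (l.ab + 2 * l.Sl) < l.ab * (Real.exp (-κ) + 2 * Real.sinh κ) :=
            mul_lt_mul_of_pos_left h2 c8
        _ ≤ Real.exp (-κ) * (Real.exp (-κ) + 2 * Real.sinh κ) :=
            mul_le_mul_of_nonneg_right hc.le (by positivity)
    linarith only [h1, haS, c11]
  have hal : l.al ≤ Real.exp (-κ) := by
    by_contra hc
    push Not at hc
    have h1 : Real.exp (-κ) * (Real.exp (-κ) + 2 * Real.sinh κ) < l.al * (l.al + 2 * l.Sb) := by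
      have h2 : Real.exp (-κ) + 2 * Real.sinh κ < l.al + 2 * l.Sb := by linarith only [hc, hSb]
      calc Real.exp (-κ) * (Real.exp (-κ) + 2 * Real.sinh κ) ≤
            l.al * (Real.exp (-κ) + 2 * Real.sinh κ) :=
            mul_le_mul_of_nonneg_right hc.le (by positivity)
        _ < l.al * (l.al + 2 * l.Sb) := mul_lt_mul_of_pos_left h2 c12
    linarith only [h1, haS, c15]
  -- W
  have hde : δ ≤ l.de := by
    rw [X.δ_def]
    have hK0 := X.K_pos
    have hAb : 0 ≤ l.Ab := c5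
    have hob : 0 ≤ l.ob := ho0.trans ho
    have hKb : 0 ≤ l.Kb := hK0.le.trans hK
    calc KK e κ * v * A * o ≤ l.Kb * l.vb * l.Ab * l.ob := by gcongr
      _ ≤ l.D * l.ob := mul_le_mul_of_nonneg_right c16 hob
      _ ≤ l.de := c17
  have hde0 : 0 ≤ l.de := X.δ_nn.trans hde
  have hW : l.W ≤ ‖2 * (Real.cosh κ : ℂ) - P‖ - δ := by
    have h1 : l.W + l.de ≤ ‖2 * (Real.cosh κ : ℂ) - P‖ := by
      apply le_of_sq_le_sq _ (norm_nonneg _)
      refine c21.trans ((le_trans ?_ F.W_sq))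
      have hsq : s0 ^ 2 ≤ s ^ 2 := pow_le_pow_left₀ hs0 hs 2
      have h2 : (5 + 20 * s0 + 16 * s0 ^ 2) ≤ (5 + 20 * s + 16 * s ^ 2) := by
        linarith only [hsq, hs]
      have h3 : (5 + 20 * s0 + 16 * s0 ^ 2) * U0 ≤ (5 + 20 * s + 16 * s ^ 2) * U :=
        mul_le_mul h2 hU hU0 (by positivity)
      linarith only [h3]
    linarith only [h1, hde]
  -- p
  have hpb : p ≤ l.pb := by
    apply le_of_sq_le_sq _ c26
    refine F.p_sq.trans (le_trans ?_ c27)
    have h3 : (3 + 4 * s0) * U0 ≤ (3 + 4 * s) * U :=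
      mul_le_mul (by linarith only [hs]) hU hU0 (by positivity)
    linarith only [h3]
  have hpl : l.pl ≤ p := by
    rcases c30 with ⟨h1, h2⟩ | ⟨h1, h2, h3⟩
    · have h4 : l.pl + l.xb ≤ Real.cosh κ := by
        apply le_of_sq_le_sq _ (by linarith only [hC1])
        rw [hCs]
        linarith only [h2, hs]
      have h5 := F.p_ge
      linarith only [h4, h5, hx]
    · have h4 : Real.cosh κ ≤ l.Cb := by
        apply le_of_sq_le_sq _ h1.le
        rw [hCs]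
        linarith only [h2, hs1]
      have h5 := F.p_ge2
      by_contra hc
      push Not at hc
      have h6 : 2 * Real.cosh κ * p < 2 * l.Cb * l.pl := by
        have h7 : 0 < l.pl := hp0.trans hc
        calc 2 * Real.cosh κ * p < 2 * Real.cosh κ * l.pl :=
              mul_lt_mul_of_pos_left hc (by linarith only [hC1])
          _ ≤ 2 * l.Cb * l.pl := mul_le_mul_of_nonneg_right (by linarith only [h4]) h7.le
      linarith only [h6, h5, h3]
  refine goal_of_bounds (s0 := s0) hs0 hs hv0 hA0 hx0 ho0 hp0 X.K_pos ha0 hS.le X.δ_def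
    X.η_def hv hA hx ho hK ha hal hSb c16 c17 c18 c19 c20 hW c22 (by linarith only [c23])
    (by linarith only [c24]) (by linarith only [c25]) hpb c28 c29 c31 (by linarith only [c32, hpl])
    (by linarith only [c33]) c34 (by linarith only [c35])
    (T1 := l.T1) (T2 := l.T2) (T3 := l.T3) (by linarith only [c36]) (by linarith only [c37]) c38 c39

/-- Subdivision tree. -/
inductive Tree where
  | e1 : Tree
  | e2 : ℚ → Tree
  | c : Tree
  | l : Leaf ℚ → Tree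
  | s : ℚ → Tree → Tree → Tree
  | u : ℚ → Tree → Tree → Tree

def Tree.ok : Tree → ℚ → ℚ → ℚ → ℚ → Bool
  | .e1, s0, s1, _, U1 => decide (U1 * (1 + 2 * s0) ^ 2 < s0) && decide (U1 * (1 + 2 * s1) ^ 2 < s1)
      && decide (0 ≤ U1)
  | .e2 w, s0, s1, U0, _ =>
      (decide (1 ≤ 5 * w) || decide (1 ≤ w * (4 * (1 + s0)))) &&
      decide (2 * s0 + w < (1 + 8 * s0 + 8 * s0 ^ 2) * U0) &&
      decide (2 * s0 + w <
        (1 + 8 * s0 + 8 * s0 ^ 2) * U0 + ((8 + 16 * s0) * U0 - 2) * (s1 - s0))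
  | .c, _, s1, _, U1 => decide (U1 ≤ 3 / 100) && decide (s1 ≤ 1 / 20)
  | .l t, s0, s1, U0, U1 => decide (t.Ok s0 s1 U0 U1)
  | .s m t1 t2, s0, s1, U0, U1 => decide (s0 ≤ m) && t1.ok s0 m U0 U1 && t2.ok m s1 U0 U1
  | .u m t1 t2, s0, s1, U0, U1 => decide (U0 ≤ m) && t1.ok s0 s1 U0 m && t2.ok s0 s1 m U1

theorem tree_sound (t : Tree) (s0 s1 U0 U1 : ℚ) (h : t.ok s0 s1 U0 U1 = true) (hs0 : 0 ≤ s0)
    (hU0 : 0 ≤ U0) (hs : (s0 : ℝ) ≤ s) (hs1 : s ≤ s1) (hU : (U0 : ℝ) ≤ U) (hU1 : U ≤ U1)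
    (hsU : s ≤ U * (1 + 2 * s) ^ 2) (hv0 : 0 ≤ v)
    (hqU : (1 + 8 * s + 8 * s ^ 2) * U ≤ 2 * s + v) (hv5 : v < 1 / 5) (hv4 : v * (4 * (1 + s)) ≤ 1)
    {Q : Prop} (hcor : s ≤ 1 / 20 → U ≤ 3 / 100 → Q)
    (hleaf : ∀ (l : Leaf ℝ) (a b c d : ℝ), l.Ok a b c d → 0 ≤ a → 0 ≤ c → a ≤ s → s ≤ b → c ≤ U →
      U ≤ d → Q) : Q := by
  induction t generalizing s0 s1 U0 U1 with
  | e1 =>
    exfalso
    simp only [Tree.ok, Bool.and_eq_true, decide_eq_true_eq] at h
    obtain ⟨⟨h1, h2⟩, h3⟩ := h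
    have h1' : (U1 : ℝ) * (1 + 2 * s0) ^ 2 < s0 := by exact_mod_cast h1
    have h2' : (U1 : ℝ) * (1 + 2 * s1) ^ 2 < s1 := by exact_mod_cast h2
    have h3' : (0 : ℝ) ≤ U1 := by exact_mod_cast h3
    have hs0' : (0 : ℝ) ≤ s0 := by exact_mod_cast hs0
    -- strict version of convexity
    obtain ⟨M, hM1, hM2, hM3⟩ : ∃ M : ℝ, (U1 : ℝ) * (1 + 2 * s0) ^ 2 - s0 ≤ M ∧
        (U1 : ℝ) * (1 + 2 * s1) ^ 2 - s1 ≤ M ∧ M < 0 :=
      ⟨max _ _, le_max_left _ _, le_max_right _ _, max_lt (by linarith) (by linarith)⟩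
    have h4 := quad_max (c := 4 * (U1 : ℝ)) (b := 4 * U1 - 1) (d := U1) (M := M) (by linarith) hs hs1
      (by linarith) (by linarith)
    have h5 : U * (1 + 2 * s) ^ 2 ≤ U1 * (1 + 2 * s) ^ 2 :=
      mul_le_mul_of_nonneg_right hU1 (by positivity)
    linarith
  | e2 w =>
    exfalso
    simp only [Tree.ok, Bool.and_eq_true, Bool.or_eq_true, decide_eq_true_eq] at h
    obtain ⟨⟨h0, h1⟩, h2⟩ := h
    have h1' : 2 * (s0 : ℝ) + w < (1 + 8 * s0 + 8 * s0 ^ 2) * U0 := by exact_mod_cast h1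
    have h2' : 2 * (s0 : ℝ) + w <
        (1 + 8 * s0 + 8 * s0 ^ 2) * U0 + ((8 + 16 * s0) * U0 - 2) * (s1 - s0) := by
      exact_mod_cast h2
    have hs0' : (0 : ℝ) ≤ s0 := by exact_mod_cast hs0
    have hU0' : (0 : ℝ) ≤ U0 := by exact_mod_cast hU0
    have hvm : v ≤ w := by
      rcases h0 with h0 | h0
      · have h0' : (1 : ℝ) ≤ 5 * w := by exact_mod_cast h0
        linarith
      · have h0' : (1 : ℝ) ≤ w * (4 * (1 + s0)) := by exact_mod_cast h0
        have : v * (4 * (1 + s0)) ≤ v * (4 * (1 + s)) := by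
          apply mul_le_mul_of_nonneg_left _ hv0
          linarith
        have h3 : v * (4 * (1 + (s0 : ℝ))) ≤ w * (4 * (1 + s0)) := by linarith
        exact le_of_mul_le_mul_right h3 (by linarith)
    have h3 : (1 + 8 * s + 8 * s ^ 2) * (U0 : ℝ) ≤ 2 * s + w := by
      have : (1 + 8 * s + 8 * s ^ 2) * (U0 : ℝ) ≤ (1 + 8 * s + 8 * s ^ 2) * U :=
        mul_le_mul_of_nonneg_left hU (by have : 0 ≤ s := hs0'.trans hs; positivity)
      linarith
    have h4 : (1 + 8 * (s0 : ℝ) + 8 * s0 ^ 2) * U0 + (8 + 16 * s0) * U0 * (s - s0) ≤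
        (1 + 8 * s + 8 * s ^ 2) * (U0 : ℝ) := by
      nlinarith [mul_nonneg hU0' (sq_nonneg (s - s0))]
    -- linear function positive at both ends
    have h5 : 0 ≤ s - (s0 : ℝ) := by linarith
    have h6 : s - (s0 : ℝ) ≤ s1 - s0 := by linarith
    rcases le_total 0 ((8 + 16 * (s0 : ℝ)) * U0 - 2) with hc | hc
    · have := mul_nonneg hc h5
      linarith
    · have := mul_nonneg (neg_nonneg.2 hc) (sub_nonneg.2 h6)
      linarith
  | c =>
    simp only [Tree.ok, Bool.and_eq_true, decide_eq_true_eq] at h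
    obtain ⟨h1, h2⟩ := h
    have h1' : (U1 : ℝ) ≤ 3 / 100 := by
      have : ((U1 : ℚ) : ℝ) ≤ ((3 / 100 : ℚ) : ℝ) := by exact_mod_cast h1
      push_cast at this
      exact this
    have h2' : (s1 : ℝ) ≤ 1 / 20 := by
      have : ((s1 : ℚ) : ℝ) ≤ ((1 / 20 : ℚ) : ℝ) := by exact_mod_cast h2
      push_cast at this
      exact this
    exact hcor (hs1.trans h2') (hU1.trans h1')
  | l t =>
    simp only [Tree.ok, decide_eq_true_eq] at h
    exact hleaf t.toR s0 s1 U0 U1 (Leaf.ok_toR h) (by exact_mod_cast hs0) (by exact_mod_cast hU0)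
      hs hs1 hU hU1
  | s m t1 t2 ih1 ih2 =>
    simp only [Tree.ok, Bool.and_eq_true, decide_eq_true_eq] at h
    obtain ⟨⟨h1, h2⟩, h3⟩ := h
    rcases le_total s (m : ℝ) with hm | hm
    · exact ih1 s0 m U0 U1 h2 hs0 hU0 hs hm hU hU1
    · exact ih2 m s1 U0 U1 h3 (hs0.trans h1) hU0 hm hs1 hU hU1
  | u m t1 t2 ih1 ih2 =>
    simp only [Tree.ok, Bool.and_eq_true, decide_eq_true_eq] at h
    obtain ⟨⟨h1, h2⟩, h3⟩ := h
    rcases le_total U (m : ℝ) with hm | hm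
    · exact ih1 s0 s1 U0 m h2 hs0 hU0 hs hs1 hU hm
    · exact ih2 s0 s1 m U1 h3 hs0 (hU0.trans h1) hs hs1 hm hU1

end Pool.Agent.helper4.EQW
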