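import Pool.Agent.helper4.EQW.Step

/-!
# EQW: geometry of one step in the tail region
-/

namespace Pool.Agent.helper4.EQW

open Complex
open Pool.Agent.helper31.EQ.W (c2 gl gs nxt wn FW)

variable {e κ : ℝ} {P : ℂ} {s U v A B x o p : ℝ}

theorem Aux.ball {K a δ η : ℝ} (F : Facts κ P s U v A B x o p)
    (X : Aux e κ s U v A B x o p K a δ η) (ha : a = Real.exp (-κ)) :
    Ball a (K * v * A * max p o) P := by
  have hK := X.K_pos
  have hv := X.v_nn
  have hA := X.A_nn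
  have hm : 0 ≤ max p o := le_max_of_le_left X.p_pos.le
  refine ⟨X.a_pos, by positivity, ?_, ?_, ?_⟩
  · rw [ha, ← F.A_def, ← ha]
    exact X.ball1
  · rw [← F.p_def]
    exact X.ball2.le
  · rw [← F.p_def]
    exact X.ball3

theorem disc_of_mem (he : 1 ≤ e) (he2 : e ≤ 2) (hκ : 0 < κ) (hP : P ∈ LT κ) :
    ‖P - ((Real.exp (-κ) : ℝ) : ℂ)‖ ≤ Real.exp (-κ) / 2 ∧ ‖P‖ ≤ 1 := by
  have F := facts_of_mem hκ hP
  have X := aux_of he he2 hκ F
  have hb := X.ball F rfl
  have h := hb.disc (z := P) (by rw [sub_self, norm_zero]; exact hb.hR)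
  exact ⟨h, hb.le_one (z := P) (by rw [sub_self, norm_zero]; exact hb.hR)⟩

/-- `‖Γ'(P)‖ ≥ 1` on the region. -/
theorem one_le_G1 (he : 1 ≤ e) (he2 : e ≤ 2) (hκ : 0 < κ) (hP : P ∈ LT κ) :
    1 ≤ ‖G1 e κ P‖ := by
  have hd := disc_of_mem he he2 hκ hP
  have F := facts_of_mem hκ hP
  exact G1_ge he he2 (slitPlane_ne_zero (f0_slit (by linarith) he2 (Real.exp_pos _) hd.1)) hd.2
    F.p_ge2

/-- A deviation with `‖d‖ ‖Γ'(P)‖ ≤ K ‖g(P)‖` is small. -/
theorem d_le (he : 1 ≤ e) (he2 : e ≤ 2) (hκ : 0 < κ) (hP : P ∈ LT κ)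
    (F : Facts κ P s U v A B x o p) {d : ℂ} (hd : ‖d‖ * ‖G1 e κ P‖ ≤ KK e κ * ‖gK κ P‖) :
    ‖d‖ ≤ KK e κ * v * A := by
  have h1 := one_le_G1 he he2 hκ hP
  rw [norm_gK, ← F.v_def, ← F.A_def] at hd
  have h2 : ‖d‖ ≤ ‖d‖ * ‖G1 e κ P‖ := le_mul_of_one_le_right (norm_nonneg _) h1
  calc ‖d‖ ≤ _ := h2
    _ ≤ _ := hd
    _ = _ := by ring

/-- The position `Y = P + d (1 - P)`. -/
structure Pos (κ : ℝ) (P Y : ℂ) (v A x a δ η : ℝ) : Prop where
  sub : ‖Y - P‖ ≤ δ
  disc : ‖Y - ((Real.exp (-κ) : ℝ) : ℂ)‖ ≤ Real.exp (-κ) / 2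
  le_one : ‖Y‖ ≤ 1
  Ya : ‖Y - ((Real.exp (-κ) : ℝ) : ℂ)‖ ≤ A + δ
  v2 : ‖v2 κ Y‖ ≤ v * (1 + η)
  ζ : ‖(Real.cosh κ : ℂ) - Y‖ ≤ x + δ
  W : ‖2 * (Real.cosh κ : ℂ) - P‖ - δ ≤ ‖2 * (Real.cosh κ : ℂ) - Y‖
  Y1 : 1 + a - A - δ ≤ ‖1 + Y‖

theorem pos_of (F : Facts κ P s U v A B x o p)
    {K a δ η : ℝ} (X : Aux e κ s U v A B x o p K a δ η) (ha : a = Real.exp (-κ)) {d : ℂ}
    (hd : ‖d‖ ≤ K * v * A) : Pos κ P (P + d * (1 - P)) v A x a δ η := by
  have hb := X.ball F ha
  have hK := X.K_pos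
  have hv := X.v_nn
  have hA := X.A_nn
  have ho := X.o_nn
  have hδ : ‖d * (1 - P)‖ ≤ δ := by
    rw [norm_mul, X.δ_def, ← F.o_def]
    exact mul_le_mul_of_nonneg_right hd ho
  have hR : ‖(P + d * (1 - P)) - P‖ ≤ K * v * A * max p o := by
    rw [add_sub_cancel_left]
    refine hδ.trans ?_
    rw [X.δ_def]
    exact mul_le_mul_of_nonneg_left (le_max_right _ _) (by positivity)
  have hsub : ‖(P + d * (1 - P)) - P‖ ≤ δ := by rw [add_sub_cancel_left]; exact hδ
  have hdisc := hb.disc hR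
  have hYa : ‖(P + d * (1 - P)) - ((Real.exp (-κ) : ℝ) : ℂ)‖ ≤ A + δ := by
    have e1 : (P + d * (1 - P)) - ((Real.exp (-κ) : ℝ) : ℂ) =
        (P - ((Real.exp (-κ) : ℝ) : ℂ)) + d * (1 - P) := by ring
    rw [e1]
    have := norm_add_le (P - ((Real.exp (-κ) : ℝ) : ℂ)) (d * (1 - P))
    rw [← F.A_def] at this
    linarith
  refine ⟨hsub, ?_, hb.le_one hR, hYa, ?_, ?_, ?_, ?_⟩
  · rw [← ha]
    exact hdisc
  · have e1 : EQW.v2 κ (P + d * (1 - P)) = EQW.v2 κ P - d * (1 - P) *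
        (2 * ((Real.cosh κ : ℂ) - P) - d * (1 - P)) := by
      unfold EQW.v2
      ring
    rw [e1]
    refine (norm_sub_le _ _).trans ?_
    rw [norm_mul, ← F.v_def]
    have h1 : ‖2 * ((Real.cosh κ : ℂ) - P) - d * (1 - P)‖ ≤ 2 * x + δ := by
      refine (norm_sub_le _ _).trans ?_
      rw [norm_mul, ← F.x_def, Complex.norm_ofNat]
      linarith
    have h2 : ‖d * (1 - P)‖ * ‖2 * ((Real.cosh κ : ℂ) - P) - d * (1 - P)‖ ≤
        δ * (2 * x + δ) := mul_le_mul hδ h1 (norm_nonneg _) X.δ_nn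
    have h3 : δ * (2 * x + δ) = v * η := by
      calc δ * (2 * x + δ) = (K * v * A * o) * (2 * x + δ) := by rw [← X.δ_def]
        _ = v * (K * A * o * (2 * x + δ)) := by ring
        _ = v * η := by rw [← X.η_def]
    linarith
  · have e1 : (Real.cosh κ : ℂ) - (P + d * (1 - P)) = ((Real.cosh κ : ℂ) - P) - d * (1 - P) := by
      ring
    rw [e1]
    refine (norm_sub_le _ _).trans ?_
    rw [← F.x_def]
    linarith
  · have e1 : 2 * (Real.cosh κ : ℂ) - P = (2 * (Real.cosh κ : ℂ) - (P + d * (1 - P))) +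
        d * (1 - P) := by ring
    have := norm_add_le (2 * (Real.cosh κ : ℂ) - (P + d * (1 - P))) (d * (1 - P))
    rw [← e1] at this
    linarith
  · have e1 : ((1 + a : ℝ) : ℂ) = (1 + (P + d * (1 - P))) -
        ((P + d * (1 - P)) - ((Real.exp (-κ) : ℝ) : ℂ)) := by rw [ha]; push_cast; ring
    have := norm_sub_le (1 + (P + d * (1 - P)))
      ((P + d * (1 - P)) - ((Real.exp (-κ) : ℝ) : ℂ))
    rw [← e1, Complex.norm_real, Real.norm_of_nonneg (by have := X.a_pos; linarith)] at this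
    linarith

/-- `P' = 1/(2C - Y)`: exact formulas. -/
theorem nx_formulas {Y : ℂ} (hW : 2 * (Real.cosh κ : ℂ) - Y ≠ 0) :
    ‖v2 κ (nx κ Y)‖ = ‖v2 κ Y‖ / ‖2 * (Real.cosh κ : ℂ) - Y‖ ^ 2 ∧
    ‖nx κ Y - ((Real.exp (-κ) : ℝ) : ℂ)‖ =
      Real.exp (-κ) * ‖Y - ((Real.exp (-κ) : ℝ) : ℂ)‖ / ‖2 * (Real.cosh κ : ℂ) - Y‖ ∧
    ‖nx κ Y - ((Real.exp κ : ℝ) : ℂ)‖ =
      Real.exp κ * ‖Y - ((Real.exp κ : ℝ) : ℂ)‖ / ‖2 * (Real.cosh κ : ℂ) - Y‖ := by
  have hCS : (Real.cosh κ : ℂ) ^ 2 - (Real.sinh κ : ℂ) ^ 2 = 1 := by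
    exact_mod_cast Real.cosh_sq_sub_sinh_sq κ
  have ha : ((Real.exp (-κ) : ℝ) : ℂ) = (Real.cosh κ : ℂ) - (Real.sinh κ : ℂ) := by
    rw [exp_neg_eq]; push_cast; rfl
  have hb : ((Real.exp κ : ℝ) : ℂ) = (Real.cosh κ : ℂ) + (Real.sinh κ : ℂ) := by
    rw [exp_eq]; push_cast; rfl
  have e1 : v2 κ (nx κ Y) = v2 κ Y / (2 * (Real.cosh κ : ℂ) - Y) ^ 2 := by
    unfold v2 nx
    field_simp
    ring
  have e2 : nx κ Y - ((Real.exp (-κ) : ℝ) : ℂ) = ((Real.exp (-κ) : ℝ) : ℂ) *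
      (Y - ((Real.exp (-κ) : ℝ) : ℂ)) / (2 * (Real.cosh κ : ℂ) - Y) := by
    rw [ha]
    unfold nx
    field_simp
    linear_combination (-1 : ℂ) * hCS
  have e3 : nx κ Y - ((Real.exp κ : ℝ) : ℂ) = ((Real.exp κ : ℝ) : ℂ) *
      (Y - ((Real.exp κ : ℝ) : ℂ)) / (2 * (Real.cosh κ : ℂ) - Y) := by
    rw [hb]
    unfold nx
    field_simp
    linear_combination (-1 : ℂ) * hCS
  refine ⟨?_, ?_, ?_⟩
  · rw [e1, norm_div, norm_pow]
  · rw [e2, norm_div, norm_mul, Complex.norm_real, Real.norm_of_nonneg (Real.exp_pos _).le]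
  · rw [e3, norm_div, norm_mul, Complex.norm_real, Real.norm_of_nonneg (Real.exp_pos _).le]

/-- The ideal next position is in the region again. -/
theorem step_mem (he : 1 ≤ e) (he2 : e ≤ 2) (hκ : 0 < κ) (hP : P ∈ LT κ)
    (hPa : P ≠ ((Real.exp (-κ) : ℝ) : ℂ)) {d : ℂ}
    (hd : ‖d‖ * ‖G1 e κ P‖ ≤ KK e κ * ‖gK κ P‖) : P + d * (1 - P) ∈ OT κ := by
  have F := facts_of_mem hκ hP
  have X := aux_of he he2 hκ F
  have hdl := d_le he he2 hκ hP F hd
  have Q := pos_of F X rfl hdl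
  obtain ⟨w1, w2⟩ := W_ge F X
  set Y := P + d * (1 - P) with hY
  set K := KK e κ with hKd
  set v := ‖v2 κ P‖ with hv
  set A := ‖P - ((Real.exp (-κ) : ℝ) : ℂ)‖ with hA
  set B := ‖P - ((Real.exp κ : ℝ) : ℂ)‖ with hB
  set o := ‖1 - P‖ with ho
  set W := ‖2 * (Real.cosh κ : ℂ) - Y‖ with hWd
  have hW1 : 1 ≤ W := w2.trans Q.W
  have hWne : 2 * (Real.cosh κ : ℂ) - Y ≠ 0 := by
    intro h
    rw [hWd, h, norm_zero] at hW1
    norm_num at hW1
  have hApos : 0 < A := by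
    rw [hA]
    exact norm_pos_iff.2 (sub_ne_zero.2 hPa)
  have hKpos := X.K_pos
  have hv0 := X.v_nn
  have ho0 := X.o_nn
  have ho1 := F.o_le_1
  have hδA : K * v * A * o < A := by
    have h1 : K * v * o < 1 := by
      have h2 := KKa2 he he2 hκ
      have h3 := KKa he he2 hκ F.v_lt.le
      -- K v ≤ ? use ball1
      have h4 := X.D_le
      have h5 : K * v ≤ 7 / 10 := by
        have hKl := KK_le he he2 hκ
        have h6 : 3 * Real.sinh κ ^ 2 / (1 + Real.sinh κ ^ 2) ≤ 3 := by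
          rw [div_le_iff₀ (by positivity)]
          nlinarith [sq_nonneg (Real.sinh κ)]
        have h7 : K ≤ 7 / 2 := by linarith
        have h8 := F.v_lt.le
        nlinarith
      have h6 : K * v * o ≤ K * v := mul_le_of_le_one_right (by positivity) ho1
      linarith
    calc K * v * A * o = (K * v * o) * A := by ring
      _ < 1 * A := mul_lt_mul_of_pos_right h1 hApos
      _ = A := one_mul _
  obtain ⟨n1, n2, n3⟩ := nx_formulas hWne
  have hexp4 : Real.exp (-(4 * κ)) = Real.exp (-κ) ^ 4 := by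
    rw [← Real.exp_nat_mul]
    congr 1
    push_cast
    ring
  have ha0 := X.a_pos
  have hab : Real.exp (-κ) * Real.exp κ = 1 := by rw [← Real.exp_add]; simp
  have hS : 0 < Real.sinh κ := Real.sinh_pos_iff.2 hκ
  refine ⟨hWne, ⟨?_, ?_⟩, ?_⟩
  · rw [n2, n3, hexp4, ← mul_div_assoc]
    apply div_lt_div_of_pos_right _ (by linarith)
    set a := Real.exp (-κ) with had
    set b := Real.exp κ with hbd
    have hb0 : 0 < b := Real.exp_pos _
    -- a |Y - a| < a^4 b |Y - b|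
    set YA := ‖Y - (a : ℂ)‖ with hYA
    set YB := ‖Y - (b : ℂ)‖ with hYB
    -- |Y-a| |P-b| ≤ |Y-b| |P-a| + (b-a) |P - Y|
    have k1 : YA * B ≤ YB * A + (b - a) * (K * v * A * o) := by
      have e1 : (Y - (a : ℂ)) * (P - (b : ℂ)) =
          (Y - (b : ℂ)) * (P - (a : ℂ)) - ((b - a : ℝ) : ℂ) * (Y - P) := by
        push_cast
        ring
      have e2 : YA * B = ‖(Y - (a : ℂ)) * (P - (b : ℂ))‖ := by rw [norm_mul]
      rw [e2, e1]
      refine (norm_sub_le _ _).trans ?_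
      rw [norm_mul, norm_mul, Complex.norm_real, Real.norm_of_nonneg (by
        rw [had, hbd, exp_eq, exp_neg_eq]; linarith)]
      have := mul_le_mul_of_nonneg_left Q.sub (show (0 : ℝ) ≤ b - a by
        rw [had, hbd, exp_eq, exp_neg_eq]; linarith)
      linarith
    -- B ≥ A/a^4
    have k2 : A < a ^ 4 * B := F.A_lt
    have k3 : B - K * v * A * o ≤ YB := by
      have e1 : P - (b : ℂ) = (Y - (b : ℂ)) - (Y - P) := by ring
      have := norm_sub_le (Y - (b : ℂ)) (Y - P)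
      rw [← e1] at this
      have h2 := Q.sub
      linarith
    have hB0 : 0 < B := by
      have : 0 < a ^ 4 * B := hApos.trans k2
      exact pos_of_mul_pos_right this (by positivity)
    -- (b-a) δ ≤ (b² - 1) YB A
    have k4 : (b - a) * (K * v * A * o) ≤ (b ^ 2 - 1) * (YB * A) := by
      have hva : v = A * B := F.v_eq
      have h1 : b ^ 2 - 1 = b * (b - a) := by
        have : b * a = 1 := by rw [mul_comm]; exact hab
        rw [mul_sub, this]
        ring
      have hba : 0 ≤ b - a := by rw [had, hbd, exp_eq, exp_neg_eq]; linarith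
      have hb1 : 1 ≤ b := by
        rw [hbd]
        exact Real.one_le_exp hκ.le
      rw [h1]
      have h2 : K * v * A * o ≤ b * (YB * A) := by
        have h3 : K * v * o ≤ b * YB := by
          have h4 : K * v * o ≤ 9 / 20 * B := by
            rw [hva]
            have : K * A * o ≤ 9 / 20 := by
              calc K * A * o ≤ K * A := mul_le_of_le_one_right (by positivity) ho1
                _ ≤ 9 / 20 := X.KA
            calc K * (A * B) * o = (K * A * o) * B := by ring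
              _ ≤ 9 / 20 * B := mul_le_mul_of_nonneg_right this hB0.le
          have h5 : K * v * A * o ≤ 1 / 2 * B := by
            have h6 : K * v * A * o = (K * A * o) * (A * B) := by rw [hva]; ring
            rw [h6]
            have h7 : K * A * o ≤ 9 / 20 := by
              calc K * A * o ≤ K * A := mul_le_of_le_one_right (by positivity) ho1
                _ ≤ 9 / 20 := X.KA
            have h8 : A ≤ 1 := by
              have h9 := F.A_le2
              have h10 := X.a_lt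
              nlinarith
            have h11 : A * B ≤ B := mul_le_of_le_one_left hB0.le h8
            calc K * A * o * (A * B) ≤ 9 / 20 * B :=
                  mul_le_mul h7 h11 (by positivity) (by norm_num)
              _ ≤ 1 / 2 * B := by linarith
          have h6 : 1 / 2 * B ≤ YB := by linarith
          nlinarith
        calc K * v * A * o = (K * v * o) * A := by ring
          _ ≤ (b * YB) * A := mul_le_mul_of_nonneg_right h3 hApos.le
          _ = b * (YB * A) := by ring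
      calc (b - a) * (K * v * A * o) ≤ (b - a) * (b * (YB * A)) := mul_le_mul_of_nonneg_left h2 hba
        _ = b * (b - a) * (YB * A) := by ring
    have k5 : YA * B ≤ b ^ 2 * (YB * A) := by linarith
    have hYB : 0 < YB := by
      have h5 : K * v * A * o ≤ 9 / 100 := X.δ_le1
      have h6 : K * v * A * o < B := by
        have : A < B := by
          have h7 : a ^ 4 < 1 := pow_lt_one₀ ha0.le X.a_lt (by norm_num)
          nlinarith
        linarith
      linarith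
    -- conclude
    have k6 : YA * B < b ^ 2 * (YB * (a ^ 4 * B)) := by
      refine k5.trans_lt ?_
      have : 0 < b ^ 2 * YB := by positivity
      nlinarith
    have k7 : YA < b ^ 2 * YB * a ^ 4 := by
      have : YA * B < (b ^ 2 * YB * a ^ 4) * B := by
        calc YA * B < _ := k6
          _ = _ := by ring
      exact lt_of_mul_lt_mul_right this hB0.le
    have k8 : b ^ 2 * YB * a ^ 4 = a ^ 2 * YB := by
      have : b ^ 2 * YB * a ^ 4 = (a * b) ^ 2 * a ^ 2 * YB := by ring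
      rw [this, hab]
      ring
    rw [k8] at k7
    have k9 : a ^ 4 * (b * YB) = a ^ 3 * YB := by
      have : a ^ 4 * (b * YB) = a ^ 3 * (a * b) * YB := by ring
      rw [this, hab]
      ring
    rw [k9]
    calc a * YA < a * (a ^ 2 * YB) := mul_lt_mul_of_pos_left k7 ha0
      _ = a ^ 3 * YB := by ring
  · rw [n1]
    rw [div_lt_iff₀ (by positivity)]
    have h1 := Q.v2
    have h2 : (1 + K * A * o * (2 * ‖(Real.cosh κ : ℂ) - P‖ + K * v * A * o)) ≤ W ^ 2 := by
      refine w1.trans ?_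
      exact pow_le_pow_left₀ (by linarith) Q.W 2
    have h3 : v < 1 / 5 := F.v_lt
    rcases hv0.eq_or_lt with h0 | h0
    · rw [← h0, zero_mul] at h1
      have : 0 < W ^ 2 := by positivity
      linarith
    calc ‖v2 κ Y‖ ≤ _ := h1
      _ ≤ v * W ^ 2 := mul_le_mul_of_nonneg_left h2 hv0
      _ < 1 / 5 * W ^ 2 := mul_lt_mul_of_pos_right h3 (by positivity)
  · intro h
    have e1 : P - ((Real.exp (-κ) : ℝ) : ℂ) = -(Y - P) := by rw [← h]; ring
    have h2 : A ≤ K * v * A * o := by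
      calc A = ‖Y - P‖ := by rw [hA, e1, norm_neg]
        _ ≤ K * v * A * o := Q.sub
    linarith

end Pool.Agent.helper4.EQW
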