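import Pool.Agent.helper4.EQW.Disc
import Pool.Agent.helper31.EQ.W.Defs

/-!
# EQW: derivatives of `γ` on the disc `‖z - a‖ ≤ a/2`
-/

namespace Pool.Agent.helper4.EQW

open Complex
open Pool.Agent.helper31.EQ.W (c2 gl gs nxt wn FW)

noncomputable section

/-- `(1 + z^e)/2` -/
def f0 (e : ℝ) (z : ℂ) : ℂ := (1 + z ^ (e : ℂ)) / 2

/-- `Γ'(z) = c² z ((1 + z^e)/2)^(-(1+2/e))`. -/
def G1 (e κ : ℝ) (z : ℂ) : ℂ := (c2 e κ : ℂ) * z * f0 e z ^ (-((1 + 2 / e : ℝ) : ℂ))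

/-- `γ(1/y) = ((1 + y^e)/2)^(-2/e)`. -/
def h0 (e : ℝ) (y : ℂ) : ℂ := f0 e y ^ (-((2 / e : ℝ) : ℂ))

end

variable {a e κ : ℝ} {z : ℂ}

theorem c2_pos (e κ : ℝ) : 0 < c2 e κ := Real.rpow_pos_of_pos (Real.cosh_pos _) _

theorem f0_slit (he : 0 ≤ e) (he2 : e ≤ 2) (ha : 0 < a) (hz : ‖z - (a : ℂ)‖ ≤ a / 2) :
    f0 e z ∈ slitPlane := disc_half_slit he he2 ha hz

theorem f0_deriv (ha : 0 < a) (hz : ‖z - (a : ℂ)‖ ≤ a / 2) :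
    HasDerivAt (f0 e) ((e : ℂ) * z ^ ((e : ℂ) - 1) / 2) z := by
  have h1 : HasDerivAt (fun z : ℂ => z ^ (e : ℂ)) ((e : ℂ) * z ^ ((e : ℂ) - 1)) z := by
    have := (hasDerivAt_id z).cpow_const (c := (e : ℂ)) (disc_slit ha hz)
    simpa using this
  exact (h1.const_add 1).div_const 2

theorem mul_cpow_sub_one (hz : z ≠ 0) : z * z ^ ((e : ℂ) - 1) = z ^ (e : ℂ) := by
  rw [Complex.cpow_sub _ _ hz, Complex.cpow_one, mul_div_cancel₀ _ hz]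

theorem disc_ne (ha : 0 < a) (hz : ‖z - (a : ℂ)‖ ≤ a / 2) : z ≠ 0 :=
  norm_pos_iff.1 (disc_norm_pos ha hz)

/-- `Γ' = G1` -/
theorem gs_deriv (he : 0 < e) (he2 : e ≤ 2) (ha : 0 < a) (hz : ‖z - (a : ℂ)‖ ≤ a / 2) :
    HasDerivAt (fun z => (c2 e κ : ℂ) * gs e z) (G1 e κ z) z := by
  have hs := f0_slit he.le he2 ha hz
  have hf := f0_deriv (e := e) ha hz
  have hz0 := disc_ne ha hz
  have hf0 : f0 e z ≠ 0 := slitPlane_ne_zero hs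
  have h1 : HasDerivAt (fun z => f0 e z ^ (-((2 / e : ℝ) : ℂ)))
      (-((2 / e : ℝ) : ℂ) * f0 e z ^ (-((2 / e : ℝ) : ℂ) - 1) * ((e : ℂ) * z ^ ((e : ℂ) - 1) / 2)) z :=
    hf.cpow_const hs
  have h2 : HasDerivAt (fun z : ℂ => z ^ 2) (2 * z) z := by
    simpa using hasDerivAt_pow 2 z
  have h3 := (h2.mul h1).const_mul (c2 e κ : ℂ)
  have hfun : (fun z => (c2 e κ : ℂ) * gs e z) =
      fun y => (c2 e κ : ℂ) * ((fun z : ℂ => z ^ 2) * fun z => f0 e z ^ (-((2 / e : ℝ) : ℂ))) y := by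
    funext y
    rfl
  rw [hfun]
  refine h3.congr_deriv ?_
  symm
  unfold G1
  have e1 : -((2 / e : ℝ) : ℂ) - 1 = -((1 + 2 / e : ℝ) : ℂ) := by push_cast; ring
  have e2 : f0 e z ^ (-((2 / e : ℝ) : ℂ)) = f0 e z ^ (-((1 + 2 / e : ℝ) : ℂ)) * f0 e z := by
    have : -((2 / e : ℝ) : ℂ) = -((1 + 2 / e : ℝ) : ℂ) + 1 := by push_cast; ring
    rw [this, Complex.cpow_add _ _ hf0, Complex.cpow_one]
  rw [e1, e2]
  have e3 : f0 e z = (1 + z * z ^ ((e : ℂ) - 1)) / 2 := by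
    rw [mul_cpow_sub_one hz0]
    rfl
  have he' : (e : ℂ) ≠ 0 := by exact_mod_cast he.ne'
  set g := f0 e z ^ (-((1 + 2 / e : ℝ) : ℂ)) with hg
  rw [e3]
  push_cast
  field_simp
  ring

/-- `d/dy γ(1/y) = - y^(e-1) (..)^(-(1+2/e))` -/
theorem h0_deriv (he : 0 < e) (he2 : e ≤ 2) (ha : 0 < a) (hz : ‖z - (a : ℂ)‖ ≤ a / 2) :
    HasDerivAt (h0 e) (-(z ^ ((e : ℂ) - 1) * f0 e z ^ (-((1 + 2 / e : ℝ) : ℂ)))) z := by
  have hs := f0_slit he.le he2 ha hz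
  have hf := f0_deriv (e := e) ha hz
  have h1 : HasDerivAt (h0 e)
      (-((2 / e : ℝ) : ℂ) * f0 e z ^ (-((2 / e : ℝ) : ℂ) - 1) * ((e : ℂ) * z ^ ((e : ℂ) - 1) / 2)) z :=
    hf.cpow_const hs
  refine h1.congr_deriv ?_
  symm
  have e1 : -((2 / e : ℝ) : ℂ) - 1 = -((1 + 2 / e : ℝ) : ℂ) := by push_cast; ring
  rw [e1]
  have he' : (e : ℂ) ≠ 0 := by exact_mod_cast he.ne'
  push_cast
  field_simp

/-- `Γ'' = Γ'/z (1 - (e+1) z^e)/(1 + z^e)` -/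
theorem G1_deriv (he : 0 < e) (he2 : e ≤ 2) (ha : 0 < a) (hz : ‖z - (a : ℂ)‖ ≤ a / 2) :
    HasDerivAt (G1 e κ) (G1 e κ z * ((1 - ((e : ℂ) + 1) * z ^ (e : ℂ)) / (z * (1 + z ^ (e : ℂ))))) z := by
  have hs := f0_slit he.le he2 ha hz
  have hf := f0_deriv (e := e) ha hz
  have hz0 := disc_ne ha hz
  have hf0 : f0 e z ≠ 0 := slitPlane_ne_zero hs
  have h1 : HasDerivAt (fun z => f0 e z ^ (-((1 + 2 / e : ℝ) : ℂ)))
      (-((1 + 2 / e : ℝ) : ℂ) * f0 e z ^ (-((1 + 2 / e : ℝ) : ℂ) - 1) *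
        ((e : ℂ) * z ^ ((e : ℂ) - 1) / 2)) z :=
    hf.cpow_const hs
  have h2 : HasDerivAt (fun z : ℂ => (c2 e κ : ℂ) * z) (c2 e κ : ℂ) z := by
    simpa using (hasDerivAt_id z).const_mul (c2 e κ : ℂ)
  have h3 := h2.mul h1
  have hfun : G1 e κ = (fun z : ℂ => (c2 e κ : ℂ) * z) *
      fun z => f0 e z ^ (-((1 + 2 / e : ℝ) : ℂ)) := by
    funext y
    rfl
  rw [hfun]
  refine h3.congr_deriv ?_
  symm
  have e2 : f0 e z ^ (-((1 + 2 / e : ℝ) : ℂ) - 1) = f0 e z ^ (-((1 + 2 / e : ℝ) : ℂ)) / f0 e z := by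
    rw [Complex.cpow_sub _ _ hf0, Complex.cpow_one]
  rw [e2]
  have e3 : z ^ (e : ℂ) = z * z ^ ((e : ℂ) - 1) := (mul_cpow_sub_one hz0).symm
  have e4 : f0 e z = (1 + z * z ^ ((e : ℂ) - 1)) / 2 := by
    rw [← e3]
    rfl
  have e5 : 1 + z * z ^ ((e : ℂ) - 1) ≠ 0 := by
    intro h
    rw [e4, h] at hf0
    simp at hf0
  have he' : (e : ℂ) ≠ 0 := by exact_mod_cast he.ne'
  simp only [Pi.mul_apply]
  set g := f0 e z ^ (-((1 + 2 / e : ℝ) : ℂ)) with hg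
  rw [e4, e3]
  push_cast
  field_simp
  ring

theorem norm_f0_le : ‖f0 e z‖ ≤ (1 + ‖z‖ ^ e) / 2 := by
  unfold f0
  rw [norm_div, Complex.norm_ofNat]
  have h1 : ‖1 + z ^ (e : ℂ)‖ ≤ 1 + ‖z‖ ^ e := by
    refine (norm_add_le _ _).trans ?_
    rw [norm_one, Complex.norm_cpow_real]
  exact div_le_div_of_nonneg_right h1 (by norm_num)

theorem G1_ne (he : 0 < e) (he2 : e ≤ 2) (ha : 0 < a) (hz : ‖z - (a : ℂ)‖ ≤ a / 2) :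
    G1 e κ z ≠ 0 := by
  unfold G1
  have hs := f0_slit he.le he2 ha hz
  refine mul_ne_zero (mul_ne_zero (by exact_mod_cast (c2_pos e κ).ne') (disc_ne ha hz)) ?_
  rw [Complex.cpow_def_of_ne_zero (slitPlane_ne_zero hs)]
  exact exp_ne_zero _

theorem norm_G1 :
    ‖G1 e κ z‖ = c2 e κ * ‖z‖ * ‖f0 e z‖ ^ (-(1 + 2 / e)) := by
  unfold G1
  have h0 : (-((1 + 2 / e : ℝ) : ℂ)) = ((-(1 + 2 / e) : ℝ) : ℂ) := by push_cast; rfl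
  rw [norm_mul, norm_mul, h0, Complex.norm_cpow_real, Complex.norm_real,
    Real.norm_of_nonneg (c2_pos e κ).le]

/-- `‖G1' ‖ ≤ λ ‖G1‖` with `λ = (1+3y)/((1+y/2) y)`, `y = ‖z‖ ≤ 1`. -/
theorem G1_deriv_bound (he : 1 ≤ e) (he2 : e ≤ 2) (ha : 0 < a) (hz : ‖z - (a : ℂ)‖ ≤ a / 2)
    (hz1 : ‖z‖ ≤ 1) :
    ‖(1 - ((e : ℂ) + 1) * z ^ (e : ℂ)) / (z * (1 + z ^ (e : ℂ)))‖ ≤
      (1 + 3 * ‖z‖) / ((1 + ‖z‖ / 2) * ‖z‖) := by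
  have he0 : 0 ≤ e := by linarith
  have h1 := disc_one_add he0 he2 ha hz
  have hp := disc_norm_pos ha hz
  have hy : ‖z‖ ^ e ≤ ‖z‖ := by
    calc ‖z‖ ^ e ≤ ‖z‖ ^ (1 : ℝ) := Real.rpow_le_rpow_of_exponent_ge hp hz1 he
      _ = ‖z‖ := Real.rpow_one _
  have hy0 : 0 ≤ ‖z‖ ^ e := Real.rpow_nonneg hp.le _
  rw [norm_div, norm_mul]
  have h2 : ‖1 - ((e : ℂ) + 1) * z ^ (e : ℂ)‖ ≤ 1 + (e + 1) * ‖z‖ ^ e := by
    refine (norm_sub_le _ _).trans ?_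
    rw [norm_one, norm_mul, Complex.norm_cpow_real]
    have : ‖(e : ℂ) + 1‖ = e + 1 := by
      have : (e : ℂ) + 1 = ((e + 1 : ℝ) : ℂ) := by push_cast; rfl
      rw [this, Complex.norm_real, Real.norm_of_nonneg (by linarith)]
    rw [this]
  set y := ‖z‖ with hyd
  set r := y ^ e with hr
  have h3 : (1 + 3 * r) * (1 + y / 2) ≤ (1 + 3 * y) * (1 + r / 2) := by nlinarith
  have h4 : 0 < 1 + r / 2 := by linarith
  have h5 : 0 < ‖1 + z ^ (e : ℂ)‖ := by linarith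
  rw [div_le_div_iff₀ (by positivity) (by positivity)]
  have h6 : ‖1 - ((e : ℂ) + 1) * z ^ (e : ℂ)‖ ≤ 1 + 3 * r := by nlinarith
  calc ‖1 - ((e : ℂ) + 1) * z ^ (e : ℂ)‖ * ((1 + y / 2) * y) ≤ (1 + 3 * r) * ((1 + y / 2) * y) :=
        mul_le_mul_of_nonneg_right h6 (by positivity)
    _ = ((1 + 3 * r) * (1 + y / 2)) * y := by ring
    _ ≤ ((1 + 3 * y) * (1 + r / 2)) * y := mul_le_mul_of_nonneg_right h3 hp.le
    _ = (1 + 3 * y) * (y * (1 + r / 2)) := by ring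
    _ ≤ (1 + 3 * y) * (y * ‖1 + z ^ (e : ℂ)‖) := by
        apply mul_le_mul_of_nonneg_left _ (by positivity)
        exact mul_le_mul_of_nonneg_left h1 hp.le

end Pool.Agent.helper4.EQW
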