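import Pool.Agent.helper4.EQW.Geo

/-!
# EQW: the tail region in the complex plane
-/

namespace Pool.Agent.helper4.EQW

open Complex

noncomputable section

/-- `v² = 1 - 2 C P + P²`. -/
def v2 (κ : ℝ) (P : ℂ) : ℂ := 1 - 2 * (Real.cosh κ : ℂ) * P + P ^ 2

/-- Ideal positions: `Re z > 2`, `‖v²‖ < 1/5`. -/
def LT (κ : ℝ) : Set ℂ :=
  {P | ‖P - ((Real.exp (-κ) : ℝ) : ℂ)‖ < Real.exp (-(4 * κ)) * ‖P - ((Real.exp κ : ℝ) : ℂ)‖ ∧
    ‖v2 κ P‖ < 1 / 5}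

end

theorem exp_eq (κ : ℝ) : Real.exp κ = Real.cosh κ + Real.sinh κ := (Real.cosh_add_sinh κ).symm

theorem exp_neg_eq (κ : ℝ) : Real.exp (-κ) = Real.cosh κ - Real.sinh κ :=
  (Real.cosh_sub_sinh κ).symm

theorem v2_eq (κ : ℝ) (P : ℂ) :
    v2 κ P = (P - ((Real.exp (-κ) : ℝ) : ℂ)) * (P - ((Real.exp κ : ℝ) : ℂ)) := by
  have h : (Real.cosh κ : ℂ) ^ 2 - (Real.sinh κ : ℂ) ^ 2 = 1 := by
    exact_mod_cast Real.cosh_sq_sub_sinh_sq κ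
  rw [exp_eq κ, exp_neg_eq κ]
  unfold v2
  push_cast at h ⊢
  linear_combination (-1 : ℂ) * h

/-- All facts about a point of the region. -/
structure Facts (κ : ℝ) (P : ℂ) (s U v A B x o p : ℝ) : Prop where
  s_def : s = Real.sinh κ ^ 2
  v_def : v = ‖v2 κ P‖
  A_def : A = ‖P - ((Real.exp (-κ) : ℝ) : ℂ)‖
  B_def : B = ‖P - ((Real.exp κ : ℝ) : ℂ)‖
  x_def : x = ‖(Real.cosh κ : ℂ) - P‖
  o_def : o = ‖1 - P‖
  p_def : p = ‖P‖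
  s_pos : 0 < s
  v_eq : v = A * B
  U_eq : q4 s * U = x ^ 2 + s
  AB : A ^ 2 + B ^ 2 = 2 * (x ^ 2 + s)
  v_le_U : v ≤ U
  v_lt : v < 1 / 5
  v_le : v * (4 * (1 + s)) ≤ 1
  x_le : x ^ 2 ≤ s + v
  A_lt : A < Real.exp (-κ) ^ 4 * B
  B_le : B ≤ x + Real.sinh κ
  A_le : A ^ 2 * (1 + 16 * s + 16 * s ^ 2) ≤ v
  A_le2 : A ≤ 9 / 20 * Real.exp (-κ) ^ 2
  o_le_x : o ≤ x
  o_le_1 : o ≤ 1
  p_sq : p ^ 2 ≤ 1 - (3 + 4 * s) * U
  p_ge : Real.cosh κ - x ≤ p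
  p_ge2 : 1 ≤ 2 * Real.cosh κ * p
  W_sq : 1 + (5 + 20 * s + 16 * s ^ 2) * U ≤ ‖2 * (Real.cosh κ : ℂ) - P‖ ^ 2

theorem facts_of_mem {κ : ℝ} (hκ : 0 < κ) {P : ℂ} (hP : P ∈ LT κ) :
    Facts κ P (Real.sinh κ ^ 2)
      ((‖(Real.cosh κ : ℂ) - P‖ ^ 2 + Real.sinh κ ^ 2) / q4 (Real.sinh κ ^ 2)) ‖v2 κ P‖
      ‖P - ((Real.exp (-κ) : ℝ) : ℂ)‖ ‖P - ((Real.exp κ : ℝ) : ℂ)‖ ‖(Real.cosh κ : ℂ) - P‖
      ‖1 - P‖ ‖P‖ := by
  obtain ⟨hP1, hP2⟩ := hP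
  have hS : 0 < Real.sinh κ := Real.sinh_pos_iff.2 hκ
  have hC : 0 < Real.cosh κ := Real.cosh_pos κ
  have hCS : Real.cosh κ ^ 2 = 1 + Real.sinh κ ^ 2 := by
    have := Real.cosh_sq κ
    linarith
  have h4 : Real.exp (-(4 * κ)) = Real.exp (-κ) ^ 4 := by
    rw [← Real.exp_nat_mul]
    congr 1
    push_cast
    ring
  rw [h4] at hP1
  set C := Real.cosh κ with hCd
  set S := Real.sinh κ with hSd
  have ha : Real.exp (-κ) = C - S := exp_neg_eq κ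
  have hb : Real.exp κ = C + S := exp_eq κ
  obtain ⟨ha0, ha1, hab⟩ := geo_ab hS hC hCS
  have hv : ‖v2 κ P‖ = ‖P - ((Real.exp (-κ) : ℝ) : ℂ)‖ * ‖P - ((Real.exp κ : ℝ) : ℂ)‖ := by
    rw [v2_eq, norm_mul]
  rw [hv] at hP2
  have hA : ‖P - ((Real.exp (-κ) : ℝ) : ℂ)‖ = ‖P - ((C - S : ℝ) : ℂ)‖ := by rw [ha]
  have hB : ‖P - ((Real.exp κ : ℝ) : ℂ)‖ = ‖P - ((C + S : ℝ) : ℂ)‖ := by rw [hb]
  set A := ‖P - ((Real.exp (-κ) : ℝ) : ℂ)‖ with hA'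
  set B := ‖P - ((Real.exp κ : ℝ) : ℂ)‖ with hB'
  set x := ‖(C : ℂ) - P‖ with hx
  have hA0 : 0 ≤ A := norm_nonneg _
  have hB0 : 0 ≤ B := norm_nonneg _
  have hx0 : 0 ≤ x := norm_nonneg _
  have hs : 0 < S ^ 2 := by positivity
  -- coordinates
  have hxx : x ^ 2 = (C - P.re) ^ 2 + P.im ^ 2 := by
    rw [hx, ← Complex.normSq_eq_norm_sq, Complex.normSq_apply]
    simp
    ring
  have hAA : A ^ 2 = (P.re - (C - S)) ^ 2 + P.im ^ 2 := by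
    rw [hA, ← Complex.normSq_eq_norm_sq, Complex.normSq_apply]
    simp
    ring
  have hBB : B ^ 2 = (P.re - (C + S)) ^ 2 + P.im ^ 2 := by
    rw [hB, ← Complex.normSq_eq_norm_sq, Complex.normSq_apply]
    simp
    ring
  have hpp : ‖P‖ ^ 2 = P.re ^ 2 + P.im ^ 2 := by
    rw [← Complex.normSq_eq_norm_sq, Complex.normSq_apply]
    ring
  have hoo : ‖1 - P‖ ^ 2 = (1 - P.re) ^ 2 + P.im ^ 2 := by
    rw [← Complex.normSq_eq_norm_sq, Complex.normSq_apply]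
    simp
    ring
  have hWW : ‖2 * (C : ℂ) - P‖ ^ 2 = (2 * C - P.re) ^ 2 + P.im ^ 2 := by
    rw [← Complex.normSq_eq_norm_sq, Complex.normSq_apply]
    simp
    ring
  set X := C - P.re with hX
  have hPre : P.re = C - X := by rw [hX]; ring
  rw [hPre] at hAA hBB hpp hoo hWW
  have h1 : A ^ 2 + B ^ 2 = 2 * (x ^ 2 + S ^ 2) := by rw [hAA, hBB, hxx]; ring
  have h2 : B ^ 2 - A ^ 2 = 4 * S * X := by rw [hAA, hBB]; ring
  have hr : A ≤ (C - S) ^ 4 * B := by rw [← ha]; exact hP1.le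
  have hq0 : 0 < q4 (S ^ 2) := by
    have := q4_pos (s := S ^ 2) hs.le
    linarith
  have g1 := geo_v hS hC hCS hA0 hB0 h1 hr
  have g2 := geo_X hS hC hCS hA0 hB0 h1 h2 hr
  have hC1 : 1 ≤ C := Real.one_le_cosh κ
  -- x² ≤ s + v, from  ζ² = s + v2
  have h3 : x ^ 2 ≤ S ^ 2 + A * B := by
    have e1 : ((C : ℂ) - P) ^ 2 = (S ^ 2 : ℝ) + v2 κ P := by
      unfold v2
      rw [← hCd]
      have : (C : ℂ) ^ 2 = 1 + (S : ℂ) ^ 2 := by exact_mod_cast hCS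
      push_cast
      linear_combination this
    have e2 : x ^ 2 = ‖((C : ℂ) - P) ^ 2‖ := by rw [norm_pow]
    rw [e2, e1]
    refine (norm_add_le _ _).trans ?_
    rw [hv, Complex.norm_real, Real.norm_of_nonneg hs.le]
  have g3 := geo_v2 hS hC hCS hA0 hB0 h1 hr h3
  have g4 := geo_A hS hC hCS hA0 hr
  have g5 := geo_A2 hA0 hr
  have g6 := geo_X1 hS hC hCS (sq_nonneg x) g2
  have hX0 : 0 ≤ X := by linarith
  have hUq : q4 (S ^ 2) * ((x ^ 2 + S ^ 2) / q4 (S ^ 2)) = x ^ 2 + S ^ 2 := by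
    field_simp
  set U := (x ^ 2 + S ^ 2) / q4 (S ^ 2) with hU
  have hU0 : 0 ≤ U := by positivity
  have hCX : 4 * (1 + S ^ 2) * (1 + 2 * S ^ 2) * U ≤ 2 * C * X := by
    have e1 : 2 * C * (1 + 2 * S ^ 2) * (q4 (S ^ 2) * U) ≤ X * q4 (S ^ 2) := by rw [hUq]; exact g2
    have e2 : 2 * C * (1 + 2 * S ^ 2) * U ≤ X := by
      have : q4 (S ^ 2) * (2 * C * (1 + 2 * S ^ 2) * U) ≤ q4 (S ^ 2) * X := by linarith
      exact le_of_mul_le_mul_left this hq0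
    have e3 : 2 * C * (2 * C * (1 + 2 * S ^ 2) * U) ≤ 2 * C * X :=
      mul_le_mul_of_nonneg_left e2 (by linarith)
    have e4 : 2 * C * (2 * C * (1 + 2 * S ^ 2) * U) = 4 * C ^ 2 * (1 + 2 * S ^ 2) * U := by ring
    rw [e4, hCS] at e3
    exact e3
  have hq' : q4 (S ^ 2) * U = U + 8 * S ^ 2 * U + 8 * S ^ 4 * U := by
    unfold q4
    ring
  have hA2 : A ≤ 9 / 20 * (C - S) ^ 2 := by
    have e1 : A ^ 2 ≤ (9 / 20 * (C - S) ^ 2) ^ 2 := by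
      have e2 : (9 / 20 * (C - S) ^ 2) ^ 2 = 81 / 400 * (C - S) ^ 4 := by ring
      rw [e2]
      have e3 : (C - S) ^ 4 * (A * B) ≤ (C - S) ^ 4 * (81 / 400) :=
        mul_le_mul_of_nonneg_left (by linarith) (by positivity)
      linarith
    exact le_of_sq_le_sq e1 (by positivity)
  refine ⟨rfl, rfl, rfl, rfl, rfl, rfl, rfl, hs, hv, hUq, h1, ?_, ?_, ?_, ?_, hP1, ?_, ?_,
    ?_, ?_, ?_, ?_, ?_, ?_, ?_⟩
  · rw [hv]; exact (le_div_iff₀ hq0).2 g1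
  · rw [hv]; exact hP2
  · rw [hv]; linarith
  · rw [hv]; exact h3
  · -- B ≤ x + S
    have e1 : P - ((C + S : ℝ) : ℂ) = -(((C : ℂ) - P) + (S : ℂ)) := by push_cast; ring
    rw [hB, e1, norm_neg]
    refine (norm_add_le _ _).trans ?_
    rw [Complex.norm_real, Real.norm_of_nonneg hS.le]
  · have e1 : (S ^ 2) ^ 2 = S ^ 4 := by ring
    rw [e1, hv]
    exact g4
  · rw [ha]; exact hA2
  · apply abs_le_of_sq_le_sq' _ hx0 |>.2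
    rw [hoo, hxx]
    have e1 : 0 ≤ (C - 1) * (2 * X - (C - 1)) := mul_nonneg (by linarith) (by linarith)
    have e2 : (1 - (C - X)) ^ 2 = X ^ 2 - (C - 1) * (2 * X - (C - 1)) := by ring
    rw [e2]
    linarith
  · -- ‖1 - P‖ ≤ 1
    have e1 : 1 - P = (1 - (C - S) : ℝ) - (P - ((C - S : ℝ) : ℂ)) := by push_cast; ring
    rw [e1]
    refine (norm_sub_le _ _).trans ?_
    rw [Complex.norm_real, Real.norm_of_nonneg (by linarith)]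
    have e2 : (C - S) ^ 2 ≤ C - S := by
      have : (C - S) ^ 2 = (C - S) * (C - S) := by ring
      rw [this]
      exact mul_le_of_le_one_left ha0.le ha1.le
    have e3 : ‖P - ((C - S : ℝ) : ℂ)‖ ≤ 9 / 20 * (C - S) ^ 2 := by rw [← hA]; exact hA2
    linarith
  · rw [hpp]
    have e6 : (C - X) ^ 2 + P.im ^ 2 = C ^ 2 - 2 * C * X + (X ^ 2 + P.im ^ 2) := by ring
    rw [e6, ← hxx, hCS]
    have e7 : 4 * (1 + S ^ 2) * (1 + 2 * S ^ 2) * U = 4 * U + 12 * S ^ 2 * U + 8 * S ^ 4 * U := by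
      ring
    linarith
  · have e1 : ‖(C : ℂ)‖ ≤ ‖(C : ℂ) - P‖ + ‖P‖ := by
      have := norm_add_le ((C : ℂ) - P) P
      rwa [sub_add_cancel] at this
    rw [Complex.norm_real, Real.norm_of_nonneg hC.le] at e1
    linarith
  · have e1 : ‖(C : ℂ)‖ ≤ ‖(C : ℂ) - P‖ + ‖P‖ := by
      have := norm_add_le ((C : ℂ) - P) P
      rwa [sub_add_cancel] at this
    rw [Complex.norm_real, Real.norm_of_nonneg hC.le] at e1
    -- x ≤ C - 1/(2C)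
    have e2 : (2 * C * x) ^ 2 ≤ (2 * C ^ 2 - 1) ^ 2 := by
      have : (2 * C * x) ^ 2 = 4 * C ^ 2 * x ^ 2 := by ring
      rw [this]
      have e3 : 4 * C ^ 2 * x ^ 2 ≤ 4 * C ^ 2 * (S ^ 2 + A * B) :=
        mul_le_mul_of_nonneg_left h3 (by positivity)
      rw [hCS] at e3 ⊢
      have e5 : 4 * (1 + S ^ 2) * (S ^ 2 + A * B) = 4 * S ^ 2 + 4 * S ^ 4 + A * B * (4 * (1 + S ^ 2)) := by
        ring
      have e6 : (2 * (1 + S ^ 2) - 1) ^ 2 = 1 + 4 * S ^ 2 + 4 * S ^ 4 := by ring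
      rw [e6]
      linarith
    have e4 : 2 * C * x ≤ 2 * C ^ 2 - 1 := by
      apply abs_le_of_sq_le_sq' e2 (by linarith) |>.2
    have e5 : 2 * C * (C - x) ≤ 2 * C * ‖P‖ := mul_le_mul_of_nonneg_left (by linarith) (by linarith)
    have e6 : 2 * C * (C - x) = 2 * C ^ 2 - 2 * C * x := by ring
    linarith
  · rw [hWW]
    have e6 : (2 * C - (C - X)) ^ 2 + P.im ^ 2 = C ^ 2 + 2 * C * X + (X ^ 2 + P.im ^ 2) := by ring
    rw [e6, ← hxx, hCS]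
    have e7 : 4 * (1 + S ^ 2) * (1 + 2 * S ^ 2) * U = 4 * U + 12 * S ^ 2 * U + 8 * S ^ 4 * U := by
      ring
    have e8 : (5 + 20 * S ^ 2 + 16 * (S ^ 2) ^ 2) * U = 5 * U + 20 * S ^ 2 * U + 16 * S ^ 4 * U := by
      ring
    rw [e8]
    linarith

end Pool.Agent.helper4.EQW
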