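import Pool.Agent.helper4.EQW.Var
import Pool.Agent.helper4.EQW.Region

/-!
# EQW: real constants, lower bound of `Γ'`
-/

namespace Pool.Agent.helper4.EQW

open Complex
open Pool.Agent.helper31.EQ.W (c2 gl gs nxt wn FW)

noncomputable section

/-- `g = sinh κ / tanh (eκ/2)` -/
def gg (e κ : ℝ) : ℝ := Real.sinh κ / Real.tanh (e * κ / 2)

/-- The radius constant. -/
def KK (e κ : ℝ) : ℝ := e ^ 2 / 8 + 3 * Real.tanh (e * κ / 2) ^ 2

end

variable {e κ : ℝ}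

theorem mean2 {x y p : ℝ} (hx : 0 ≤ x) (hy : 0 ≤ y) (hp : 1 ≤ p) :
    (1 / 2 * x + 1 / 2 * y) ^ p ≤ 1 / 2 * x ^ p + 1 / 2 * y ^ p := by
  have := (convexOn_rpow hp).2 (Set.mem_Ici.2 hx) (Set.mem_Ici.2 hy) (show (0 : ℝ) ≤ 1 / 2 by norm_num)
    (show (0 : ℝ) ≤ 1 / 2 by norm_num) (by norm_num)
  simpa only [smul_eq_mul] using this

theorem tanh_mono {x y : ℝ} (h : x ≤ y) : Real.tanh x ≤ Real.tanh y := by
  rw [Real.tanh_eq_sinh_div_cosh, Real.tanh_eq_sinh_div_cosh,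
    div_le_div_iff₀ (Real.cosh_pos _) (Real.cosh_pos _)]
  have h1 : 0 ≤ Real.sinh (y - x) := Real.sinh_nonneg_iff.2 (by linarith)
  rw [Real.sinh_sub] at h1
  nlinarith

theorem tanh_pos {x : ℝ} (h : 0 < x) : 0 < Real.tanh x := by
  rw [Real.tanh_eq_sinh_div_cosh]
  exact div_pos (Real.sinh_pos_iff.2 h) (Real.cosh_pos _)

theorem self_le_sinh {x : ℝ} (h : 0 ≤ x) : x ≤ Real.sinh x := Real.self_le_sinh_iff.2 h

theorem tanh_le_self {x : ℝ} (h : 0 ≤ x) : Real.tanh x ≤ x := by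
  rw [Real.tanh_eq_sinh_div_cosh, div_le_iff₀ (Real.cosh_pos _)]
  have hd : ∀ y : ℝ, HasDerivAt (fun y => y * Real.cosh y - Real.sinh y)
      (1 * Real.cosh y + y * Real.sinh y - Real.cosh y) y := fun y =>
    ((hasDerivAt_id y).mul (Real.hasDerivAt_cosh y)).sub (Real.hasDerivAt_sinh y)
  have hmono : MonotoneOn (fun y => y * Real.cosh y - Real.sinh y) (Set.Ici 0) := by
    apply monotoneOn_of_deriv_nonneg (convex_Ici 0)
    · exact fun y _ => (hd y).continuousAt.continuousWithinAt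
    · exact fun y _ => (hd y).differentiableAt.differentiableWithinAt
    · intro y hy
      rw [interior_Ici] at hy
      rw [(hd y).deriv]
      have h1 : 0 < y := hy
      have h2 : 0 < Real.sinh y := Real.sinh_pos_iff.2 h1
      nlinarith [mul_pos h1 h2]
  have h2 := hmono (Set.mem_Ici.2 le_rfl) (Set.mem_Ici.2 h) h
  simp at h2
  linarith

theorem tanh_half (hκ : 0 < κ) : Real.tanh (κ / 2) * (Real.cosh κ + 1) = Real.sinh κ := by
  have h1 : Real.cosh κ = 2 * Real.cosh (κ / 2) ^ 2 - 1 := by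
    have := Real.cosh_two_mul (κ / 2)
    have h2 := Real.cosh_sq (κ / 2)
    rw [show 2 * (κ / 2) = κ by ring] at this
    linarith
  have h2 : Real.sinh κ = 2 * Real.sinh (κ / 2) * Real.cosh (κ / 2) := by
    have := Real.sinh_two_mul (κ / 2)
    rwa [show 2 * (κ / 2) = κ by ring] at this
  rw [h1, h2, Real.tanh_eq_sinh_div_cosh]
  have := (Real.cosh_pos (κ / 2)).ne'
  field_simp
  ring

theorem gg_facts (he : 1 ≤ e) (he2 : e ≤ 2) (hκ : 0 < κ) :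
    Real.cosh κ ≤ gg e κ ∧ gg e κ ≤ Real.cosh κ + 1 ∧ 2 ≤ e * gg e κ := by
  have hy : 0 < e * κ / 2 := by positivity
  have ht := tanh_pos hy
  have hS : 0 < Real.sinh κ := Real.sinh_pos_iff.2 hκ
  have hC := Real.cosh_pos κ
  unfold gg
  refine ⟨?_, ?_, ?_⟩
  · rw [le_div_iff₀ ht]
    have h1 : Real.tanh (e * κ / 2) ≤ Real.tanh κ := tanh_mono (by nlinarith)
    rw [Real.tanh_eq_sinh_div_cosh κ, le_div_iff₀ hC] at h1
    linarith
  · rw [div_le_iff₀ ht]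
    have h1 : Real.tanh (κ / 2) ≤ Real.tanh (e * κ / 2) := tanh_mono (by nlinarith)
    have h2 := tanh_half hκ
    nlinarith
  · rw [← mul_div_assoc, le_div_iff₀ ht]
    have h1 := tanh_le_self hy.le
    have h2 := self_le_sinh hκ.le
    nlinarith

/-- Power mean: `cosh (κ/2) ^ e ≤ cosh (eκ/2)`. -/
theorem c2_ge (he : 1 ≤ e) (κ : ℝ) : (Real.cosh κ + 1) / 2 ≤ c2 e κ := by
  have he0 : 0 < e := by linarith
  have hu : 0 < Real.exp (κ / 2) := Real.exp_pos _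
  have hu' : 0 < Real.exp (-(κ / 2)) := Real.exp_pos _
  have h1 : Real.cosh (κ / 2) ^ e ≤ Real.cosh (e * κ / 2) := by
    have := mean2 hu.le hu'.le he
    rw [← Real.exp_mul, ← Real.exp_mul] at this
    rw [Real.cosh_eq (κ / 2), Real.cosh_eq (e * κ / 2)]
    have e1 : (Real.exp (κ / 2) + Real.exp (-(κ / 2))) / 2 =
        1 / 2 * Real.exp (κ / 2) + 1 / 2 * Real.exp (-(κ / 2)) := by ring
    have e2 : κ / 2 * e = e * κ / 2 := by ring
    have e3 : -(κ / 2) * e = -(e * κ / 2) := by ring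
    rw [e2, e3] at this
    rw [e1]
    linarith
  have h2 : Real.cosh (κ / 2) ^ 2 = (Real.cosh κ + 1) / 2 := by
    have := Real.cosh_two_mul (κ / 2)
    have h2 := Real.cosh_sq (κ / 2)
    rw [show 2 * (κ / 2) = κ by ring] at this
    linarith
  have h3 : (Real.cosh (κ / 2) ^ e) ^ (2 / e) = Real.cosh (κ / 2) ^ 2 := by
    rw [← Real.rpow_mul (Real.cosh_pos _).le, mul_div_cancel₀ _ he0.ne', Real.rpow_ofNat]
  unfold c2
  rw [← h2, ← h3]
  exact Real.rpow_le_rpow (Real.rpow_nonneg (Real.cosh_pos _).le _) h1 (by positivity)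

/-- `p ≤ 1`, `2 C p ≥ 1`: `(1+p)(1+p²) ≤ 2(C+1)p`. -/
theorem low_poly {C p : ℝ} (hC : 1 ≤ C) (hp : 0 ≤ p) (hp1 : p ≤ 1) (h : 1 ≤ 2 * C * p) :
    (1 + p) * (1 + p ^ 2) ≤ 2 * (C + 1) * p := by
  rcases le_total p (3 / 5) with h1 | h1
  · have h2 : (1 + p) * (1 + p ^ 2) ≤ 1 + 2 * p := by nlinarith [mul_nonneg hp (sub_nonneg.2 h1)]
    nlinarith
  · have h2 : (1 + p) * (1 + p ^ 2) ≤ 4 * p := by
      have h3 : 4 * p - (1 + p) * (1 + p ^ 2) = (1 - p) * (p ^ 2 + 2 * p - 1) := by ring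
      have h4 : 0 ≤ (1 - p) * (p ^ 2 + 2 * p - 1) := mul_nonneg (by linarith) (by nlinarith)
      linarith
    nlinarith

/-- Lower bound of `Γ'`. -/
theorem G1_ge (he : 1 ≤ e) (he2 : e ≤ 2) {P : ℂ} (hf : f0 e P ≠ 0) (hP1 : ‖P‖ ≤ 1)
    (hP2 : 1 ≤ 2 * Real.cosh κ * ‖P‖) : 1 ≤ ‖G1 e κ P‖ := by
  have he0 : 0 < e := by linarith
  have hC := Real.one_le_cosh κ
  rw [norm_G1]
  set p := ‖P‖ with hp
  have hp0 : 0 ≤ p := norm_nonneg _
  have hpp : 0 < p := by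
    rcases hp0.lt_or_eq with h | h
    · exact h
    · rw [← h] at hP2
      norm_num at hP2
  set F := ‖f0 e P‖ with hF
  have hF0 : 0 < F := norm_pos_iff.2 hf
  have hFle : F ≤ (1 + p ^ e) / 2 := norm_f0_le
  have hpe : p ^ e ≤ p := by
    calc p ^ e ≤ p ^ (1 : ℝ) := Real.rpow_le_rpow_of_exponent_ge hpp hP1 he
      _ = p := Real.rpow_one _
  have hpe0 : 0 ≤ p ^ e := Real.rpow_nonneg hp0 _
  set M := (1 + p ^ e) / 2 with hM
  have hM0 : 0 < M := by positivity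
  have h1 : M ^ (2 / e) ≤ (1 + p ^ 2) / 2 := by
    have h2e : 1 ≤ 2 / e := by rw [le_div_iff₀ he0]; linarith
    have := mean2 zero_le_one hpe0 h2e
    rw [Real.one_rpow, ← Real.rpow_mul hp0, mul_div_cancel₀ _ he0.ne', Real.rpow_ofNat] at this
    have e1 : M = 1 / 2 * 1 + 1 / 2 * p ^ e := by rw [hM]; ring
    rw [e1]
    linarith
  have h2 : M ^ (1 + 2 / e) = M * M ^ (2 / e) := by rw [Real.rpow_add hM0, Real.rpow_one]
  have h3 : F ^ (1 + 2 / e) ≤ (1 + p) / 2 * ((1 + p ^ 2) / 2) := by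
    calc F ^ (1 + 2 / e) ≤ M ^ (1 + 2 / e) := Real.rpow_le_rpow hF0.le hFle (by positivity)
      _ = M * M ^ (2 / e) := h2
      _ ≤ (1 + p) / 2 * ((1 + p ^ 2) / 2) := by
          apply mul_le_mul (by rw [hM]; linarith) h1 (Real.rpow_nonneg hM0.le _) (by positivity)
  have h4 := c2_ge he κ
  have h5 := low_poly hC hp0 hP1 hP2
  rw [Real.rpow_neg hF0.le]
  have h6 : 0 < F ^ (1 + 2 / e) := Real.rpow_pos_of_pos hF0 _
  rw [← div_eq_mul_inv, le_div_iff₀ h6, one_mul]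
  calc F ^ (1 + 2 / e) ≤ (1 + p) / 2 * ((1 + p ^ 2) / 2) := h3
    _ ≤ (Real.cosh κ + 1) / 2 * p := by linarith
    _ ≤ c2 e κ * p := mul_le_mul_of_nonneg_right h4 hp0

theorem KK_pos (he : 0 < e) : 0 < KK e κ := by
  unfold KK
  positivity

theorem KK_le (he : 1 ≤ e) (he2 : e ≤ 2) (hκ : 0 < κ) :
    KK e κ ≤ 1 / 2 + 3 * Real.sinh κ ^ 2 / (1 + Real.sinh κ ^ 2) := by
  have hy : 0 < e * κ / 2 := by positivity
  have ht := tanh_pos hy
  have h1 : Real.tanh (e * κ / 2) ≤ Real.tanh κ := tanh_mono (by nlinarith)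
  have h2 : Real.tanh κ ^ 2 = Real.sinh κ ^ 2 / (1 + Real.sinh κ ^ 2) := by
    rw [Real.tanh_eq_sinh_div_cosh, div_pow, Real.cosh_sq]
    congr 1
    ring
  have h3 : Real.tanh (e * κ / 2) ^ 2 ≤ Real.tanh κ ^ 2 := pow_le_pow_left₀ ht.le h1 2
  rw [h2] at h3
  unfold KK
  have h4 : e ^ 2 / 8 ≤ 1 / 2 := by nlinarith
  have h5 : 3 * Real.sinh κ ^ 2 / (1 + Real.sinh κ ^ 2) =
      3 * (Real.sinh κ ^ 2 / (1 + Real.sinh κ ^ 2)) := by ring
  rw [h5]
  linarith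

theorem KK_gg (he : 1 ≤ e) (he2 : e ≤ 2) (hκ : 0 < κ) :
    1 + 6 * Real.sinh κ ^ 2 ≤ 2 * gg e κ ^ 2 * KK e κ := by
  obtain ⟨h1, -, h3⟩ := gg_facts he he2 hκ
  have hy : 0 < e * κ / 2 := by positivity
  have ht := tanh_pos hy
  have h4 : gg e κ * Real.tanh (e * κ / 2) = Real.sinh κ := by
    unfold gg
    field_simp
  have h5 : 2 * gg e κ ^ 2 * KK e κ = (e * gg e κ) ^ 2 / 4 +
      6 * (gg e κ * Real.tanh (e * κ / 2)) ^ 2 := by
    unfold KK
    ring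
  rw [h5, h4]
  nlinarith

end Pool.Agent.helper4.EQW
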