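import Pool.Agent.helper4.EQW.Chain
import Pool.Agent.helper4.EQW.L.Lam

/-!
# EQW: the closing estimate of one tail link
-/

namespace Pool.Agent.helper4.EQW

open Complex
open Pool.Agent.helper31.EQ.W (c2 gl gs nxt wn FW)

noncomputable section

/-- `G = a (1+η)(1+ηS)/W³` -/
def fG (K a W v A o x : ℝ) : ℝ :=
  a * (1 + K * A * o * (2 * x + K * v * A * o)) * (1 + K * v * o) / W ^ 3

def T1f (D G : ℝ) : ℝ := G / (1 - 11 / 3 * (D * G))

def T2f (K v A o x S s : ℝ) : ℝ :=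
  34 / 25 * (x + K * v * A * o) * (x + S) * (1 + K * A * o * (2 * x + K * v * A * o)) ^ 2 / (1 + 6 * s)

def T3f (lam D p2 o R : ℝ) : ℝ := lam * D * (p2 + o ^ 2) / 2 / (1 - lam * R)

end

variable {e κ : ℝ} {P : ℂ} {s U v A B x o p : ℝ}

theorem inv_slit {w : ℂ} (hw : w ∈ slitPlane) : w⁻¹ ∈ slitPlane := by
  have h0 := Complex.slitPlane_ne_zero hw
  have hn := Complex.normSq_pos.2 h0
  rw [Complex.mem_slitPlane_iff] at hw ⊢
  rw [Complex.inv_re, Complex.inv_im]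
  rcases hw with h | h
  · exact Or.inl (div_pos h hn)
  · exact Or.inr (div_ne_zero (neg_ne_zero.2 h) hn.ne')

theorem gl_inv {y : ℂ} (hy : y ∈ slitPlane) : gl e y⁻¹ = h0 e y := by
  unfold gl h0 f0
  have h1 : y.arg ≠ Real.pi := (Complex.mem_slitPlane_iff_arg.1 hy).1
  have h2 : y⁻¹ ^ (-(e : ℂ)) = y ^ (e : ℂ) := by
    rw [Complex.inv_cpow _ _ h1, Complex.cpow_neg, inv_inv]
  rw [h2]

/-- Everything about the link after `P`. -/
theorem wn_facts (he : 1 ≤ e) (he2 : e ≤ 2) (hκ : 0 < κ) {Y d' : ℂ} (hY : Y ∈ OT κ)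
    (hd' : ‖d'‖ * ‖G1 e κ (nx κ Y)‖ ≤ KK e κ * ‖gK κ (nx κ Y)‖) :
    Ball (Real.exp (-κ)) (‖nx κ Y‖ * ‖d'‖) (nx κ Y) ∧ nx κ Y * (1 - d') ∈ slitPlane ∧
    ‖nx κ Y * (1 - d')‖ < 1 ∧ ‖d'‖ ≤ 9 / 100 ∧ wn κ Y d' = (nx κ Y * (1 - d'))⁻¹ := by
  obtain ⟨hW, hP', -⟩ := hY
  have F' := facts_of_mem hκ hP'
  have X' := aux_of he he2 hκ F'
  have hd1 := d_le he he2 hκ hP' F' hd'
  have hb := X'.ball F' rfl
  set P' := nx κ Y with hPd
  have hd2 : ‖d'‖ ≤ 9 / 100 := by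
    have h1 := X'.D_le
    have h2 := F'.v_lt
    linarith
  have hR : ‖P'‖ * ‖d'‖ ≤ KK e κ * ‖v2 κ P'‖ * ‖P' - ((Real.exp (-κ) : ℝ) : ℂ)‖ *
      max ‖P'‖ ‖1 - P'‖ := by
    rw [mul_comm]
    apply mul_le_mul hd1 (le_max_left _ _) (norm_nonneg _)
    have := KK_pos (κ := κ) (show (0 : ℝ) < e by linarith)
    positivity
  have hball : Ball (Real.exp (-κ)) (‖P'‖ * ‖d'‖) P' := by
    refine ⟨hb.ha, by positivity, ?_, ?_, ?_⟩
    · linarith [hb.h1]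
    · linarith [hb.h2]
    · linarith [hb.h3]
  have hmem : ‖P' * (1 - d') - P'‖ ≤ ‖P'‖ * ‖d'‖ := by
    have : P' * (1 - d') - P' = -(P' * d') := by ring
    rw [this, norm_neg, norm_mul]
  refine ⟨hball, disc_slit hball.ha (hball.disc hmem), ?_, hd2, ?_⟩
  · have e1 : P' * (1 - d') = P' + (P' * (1 - d') - P') := by ring
    have h1 := norm_add_le P' (P' * (1 - d') - P')
    rw [← e1] at h1
    have h2 := X'.ball2
    linarith
  · unfold wn
    rw [hPd]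
    unfold nx
    have h1 : (1 : ℂ) - d' ≠ 0 := by
      intro h
      have h2 : d' = 1 := by linear_combination -h
      rw [h2, norm_one] at hd2
      norm_num at hd2
    field_simp

theorem close_main (he : 1 ≤ e) (he2 : e ≤ 2) (hκ : 0 < κ) (hP : P ∈ LT κ)
    (hPa : P ≠ ((Real.exp (-κ) : ℝ) : ℂ)) (F : Facts κ P s U v A B x o p)
    {K a δ η W S R G : ℝ} (hK : K = KK e κ) (ha : a = Real.exp (-κ)) (hS : S = Real.sinh κ)
    (X : Aux e κ s U v A B x o p K a δ η) (hW0 : 0 < W)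
    (hW : W ≤ ‖2 * (Real.cosh κ : ℂ) - P‖ - δ)
    (hR : R = K * v * A * max p o)
    (hG : G = fG K a W v A o x)
    {d d' : ℂ} (hd : ‖d‖ * ‖G1 e κ P‖ ≤ K * ‖gK κ P‖)
    (hd' : ‖d'‖ * ‖G1 e κ (nx κ (P + d * (1 - P)))‖ ≤ K * ‖gK κ (nx κ (P + d * (1 - P)))‖)
    (hv : v * (1 + η) ≤ 1 / 4) (h7 : 7 * (v * (1 + η)) ≤ (1 + a - A - δ) ^ 2)
    (h70 : 0 ≤ 1 + a - A - δ)
    (hl : lamb (p - R) * R < 1) (hDG : 11 / 3 * (K * v * A * G) < 1) :
    ‖d * G1 e κ P - FW e κ (P + d * (1 - P)) d d'‖ ≤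
      K * v * A * (T1f (K * v * A) G + T2f K v A o x S s + T3f (lamb (p - R)) (K * v * A) (p ^ 2) o R) := by
  have he0 : 0 < e := by linarith
  subst hK
  have hmem := step_mem he he2 hκ hP hPa hd
  have hdl := d_le he he2 hκ hP F hd
  have Q := pos_of F X ha hdl
  have hb := X.ball F ha
  have hwn := wn_facts he he2 hκ hmem hd'
  set Y := P + d * (1 - P) with hY
  obtain ⟨hball, hslit, hlt, hd9, hwneq⟩ := hwn
  obtain ⟨hWne, hP', hYa⟩ := hmem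
  set K := KK e κ with hKd
  set P' := nx κ Y with hP'd
  have hKpos := X.K_pos
  have hv0 := X.v_nn
  have hA0 := X.A_nn
  have ho0 := X.o_nn
  have hx0 := X.x_nn
  have hη0 := X.η_nn
  have hδ0 := X.δ_nn
  have ha0 := X.a_pos
  have hD0 : 0 ≤ K * v * A := by positivity
  have hηf : 1 + K * A * o * (2 * x + K * v * A * o) = 1 + η := by
    rw [X.η_def, X.δ_def]
  -- decomposition
  have hYd : Y - d = P * (1 - d) := by rw [hY]; ring
  have hdec : d * G1 e κ P - FW e κ Y d d' =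
      -((c2 e κ : ℂ) * gs e Y - (c2 e κ : ℂ) * gs e (P * (1 - d)) - d * G1 e κ P) -
      ((c2 e κ : ℂ) * h0 e P' - (c2 e κ : ℂ) * gs e Y - 2 * ((Real.cosh κ : ℂ) - Y)) -
      ((c2 e κ : ℂ) * h0 e (P' * (1 - d')) - (c2 e κ : ℂ) * h0 e P') := by
    unfold FW
    rw [hwneq, gl_inv hslit, hYd]
    ring
  rw [hdec]
  refine (norm_sub_le _ _).trans ?_
  have hns := norm_sub_le (-((c2 e κ : ℂ) * gs e Y - (c2 e κ : ℂ) * gs e (P * (1 - d)) - d * G1 e κ P))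
    ((c2 e κ : ℂ) * h0 e P' - (c2 e κ : ℂ) * gs e Y - 2 * ((Real.cosh κ : ℂ) - Y))
  rw [norm_neg] at hns
  -- third term
  have hgK : ‖d‖ * ‖G1 e κ P‖ ≤ K * v * A := by
    rw [norm_gK, ← F.v_def, ← F.A_def] at hd
    calc _ ≤ _ := hd
      _ = _ := by ring
  have t3 : ‖(c2 e κ : ℂ) * gs e Y - (c2 e κ : ℂ) * gs e (P * (1 - d)) - d * G1 e κ P‖ ≤
      K * v * A * T3f (lamb (p - R)) (K * v * A) (p ^ 2) o R := by
    rw [← hR] at hb
    have hl' : lamb (‖P‖ - R) * R < 1 := by rw [← F.p_def]; exact hl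
    have hm : 0 ≤ max p o := le_max_of_le_left X.p_pos.le
    have h1 : ‖d‖ * ‖P‖ ≤ R := by
      rw [hR, ← F.p_def]
      exact mul_le_mul hdl (le_max_left _ _) X.p_pos.le hD0
    have h2 : ‖d‖ * ‖1 - P‖ ≤ R := by
      rw [hR, ← F.o_def]
      exact mul_le_mul hdl (le_max_right _ _) ho0 hD0
    have h3 := T3_bound (κ := κ) he he2 hb hl' h1 h2
    rw [← hY, ← F.p_def, ← F.o_def] at h3
    refine h3.trans ?_
    have h4 : 0 < 1 - lamb (p - R) * R := by linarith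
    have hlp : 0 < lamb (p - R) := by
      apply lamb_pos
      rw [hR]
      exact X.ball3
    have h5 : ‖G1 e κ P‖ * ‖d‖ ^ 2 ≤ K * v * A * (K * v * A) := by
      calc ‖G1 e κ P‖ * ‖d‖ ^ 2 = (‖d‖ * ‖G1 e κ P‖) * ‖d‖ := by ring
        _ ≤ K * v * A * (K * v * A) := mul_le_mul hgK hdl (norm_nonneg _) hD0
    unfold T3f
    have e1 : lamb (p - R) * (‖G1 e κ P‖ / (1 - lamb (p - R) * R)) * ‖d‖ ^ 2 * (p ^ 2 + o ^ 2) / 2 =
        (‖G1 e κ P‖ * ‖d‖ ^ 2) * (lamb (p - R) * (p ^ 2 + o ^ 2) / 2 / (1 - lamb (p - R) * R)) := by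
      ring
    have e2 : K * v * A * (lamb (p - R) * (K * v * A) * (p ^ 2 + o ^ 2) / 2 /
        (1 - lamb (p - R) * R)) = (K * v * A * (K * v * A)) *
        (lamb (p - R) * (p ^ 2 + o ^ 2) / 2 / (1 - lamb (p - R) * R)) := by ring
    rw [e1, e2]
    apply mul_le_mul_of_nonneg_right h5
    positivity
  -- second term
  have t2 : ‖(c2 e κ : ℂ) * h0 e P' - (c2 e κ : ℂ) * gs e Y - 2 * ((Real.cosh κ : ℂ) - Y)‖ ≤
      K * v * A * T2f K v A o x S s := by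
    have hYv : ‖v2 κ Y‖ ≤ 1 / 4 := Q.v2.trans hv
    have hY7 : 7 * ‖v2 κ Y‖ ≤ ‖1 + Y‖ ^ 2 := by
      have h1 : 7 * ‖v2 κ Y‖ ≤ 7 * (v * (1 + η)) := by linarith [Q.v2]
      have h2 : (1 + a - A - δ) ^ 2 ≤ ‖1 + Y‖ ^ 2 := pow_le_pow_left₀ h70 Q.Y1 2
      linarith
    have h1 := Lam_bound he he2 hκ Q.disc Q.le_one (disc_of_mem he he2 hκ hP').1 hYv hY7
    refine h1.trans ?_
    have hg : 0 < gg e κ := by
      have := (gg_facts he he2 hκ).1
      have := Real.one_le_cosh κ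
      linarith
    have hKg := KK_gg he he2 hκ
    rw [← F.s_def, ← hKd] at hKg
    have hs := F.s_pos
    have hS0 : 0 < S := by rw [hS]; exact Real.sinh_pos_iff.2 hκ
    have h2 : ‖(Real.cosh κ : ℂ) - Y‖ * ‖v2 κ Y‖ ^ 2 ≤ (x + δ) * (v * (1 + η)) ^ 2 := by
      apply mul_le_mul Q.ζ (pow_le_pow_left₀ (norm_nonneg _) Q.v2 2) (by positivity) (by positivity)
    have h3 : 17 / 25 / gg e κ ^ 2 ≤ 34 / 25 * K / (1 + 6 * s) := by
      rw [div_le_div_iff₀ (by positivity) (by positivity)]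
      nlinarith
    have h4 : v ^ 2 ≤ v * A * (x + S) := by
      have hB : B ≤ x + S := by rw [hS]; exact F.B_le
      calc v ^ 2 = v * (A * B) := by rw [← F.v_eq]; ring
        _ = v * A * B := by ring
        _ ≤ v * A * (x + S) := mul_le_mul_of_nonneg_left hB (by positivity)
    calc 17 / 25 / gg e κ ^ 2 * (‖(Real.cosh κ : ℂ) - Y‖ * ‖v2 κ Y‖ ^ 2) ≤
          34 / 25 * K / (1 + 6 * s) * ((x + δ) * (v * (1 + η)) ^ 2) :=
          mul_le_mul h3 h2 (by positivity) (by positivity)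
      _ = 34 / 25 * K / (1 + 6 * s) * ((x + δ) * (1 + η) ^ 2) * v ^ 2 := by ring
      _ ≤ 34 / 25 * K / (1 + 6 * s) * ((x + δ) * (1 + η) ^ 2) * (v * A * (x + S)) :=
          mul_le_mul_of_nonneg_left h4 (by positivity)
      _ = K * v * A * T2f K v A o x S s := by
          unfold T2f
          rw [hηf, ← X.δ_def]
          ring
  -- first term
  have t1 : ‖(c2 e κ : ℂ) * h0 e (P' * (1 - d')) - (c2 e κ : ℂ) * h0 e P'‖ ≤
      K * v * A * T1f (K * v * A) G := by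
    obtain ⟨n1, n2, -⟩ := nx_formulas hWne
    have hWW : W ≤ ‖2 * (Real.cosh κ : ℂ) - Y‖ := hW.trans Q.W
    have hg1 : K * ‖gK κ P'‖ ≤ K * v * A * G := by
      rw [norm_gK, n1, n2, ← ha]
      set W' := ‖2 * (Real.cosh κ : ℂ) - Y‖ with hW'
      have hW'0 : 0 < W' := hW0.trans_le hWW
      have hYA : ‖Y - (a : ℂ)‖ ≤ A * (1 + K * v * o) := by
        have := Q.Ya
        rw [← ha, X.δ_def] at this
        calc _ ≤ _ := this
          _ = _ := by ring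
      have e1 : K * (‖v2 κ Y‖ / W' ^ 2 * (a * ‖Y - (a : ℂ)‖ / W')) =
          K * a * (‖v2 κ Y‖ * ‖Y - (a : ℂ)‖) / W' ^ 3 := by
        field_simp
      rw [e1, hG]
      unfold fG
      rw [hηf]
      have e2 : K * v * A * (a * (1 + η) * (1 + K * v * o) / W ^ 3) =
          K * a * ((v * (1 + η)) * (A * (1 + K * v * o))) / W ^ 3 := by ring
      rw [e2]
      apply div_le_div₀ (by positivity) _ (by positivity) (pow_le_pow_left₀ hW0.le hWW 3)
      apply mul_le_mul_of_nonneg_left _ (by positivity)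
      exact mul_le_mul Q.v2 hYA (norm_nonneg _) (by positivity)
    have hd1 : ‖d'‖ ≤ K * v * A * G := by
      have h1 := one_le_G1 he he2 hκ hP'
      have h2 : ‖d'‖ ≤ ‖d'‖ * ‖G1 e κ P'‖ := le_mul_of_one_le_right (norm_nonneg _) h1
      exact h2.trans (hd'.trans hg1)
    have h3 := T1_bound (κ := κ) he he2 hball (d := d') (by linarith)
    refine h3.trans ?_
    have h4 : ‖P'‖ ^ (e - 1) ≤ 1 :=
      Real.rpow_le_one (norm_nonneg _) (disc_of_mem he he2 hκ hP').2 (by linarith)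
    have h5 : ‖d'‖ * ‖G1 e κ P'‖ * ‖P'‖ ^ (e - 1) ≤ K * v * A * G := by
      calc ‖d'‖ * ‖G1 e κ P'‖ * ‖P'‖ ^ (e - 1) ≤ ‖d'‖ * ‖G1 e κ P'‖ * 1 :=
            mul_le_mul_of_nonneg_left h4 (by positivity)
        _ = ‖d'‖ * ‖G1 e κ P'‖ := mul_one _
        _ ≤ _ := hd'
        _ ≤ _ := hg1
    unfold T1f
    have h6 : 0 < 1 - 11 / 3 * (K * v * A * G) := by linarith
    calc ‖d'‖ * ‖G1 e κ P'‖ * ‖P'‖ ^ (e - 1) / (1 - 11 / 3 * ‖d'‖) ≤
          K * v * A * G / (1 - 11 / 3 * (K * v * A * G)) := by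
          apply div_le_div₀ _ h5 h6 (by linarith)
          exact (by positivity : (0 : ℝ) ≤ ‖d'‖ * ‖G1 e κ P'‖ * ‖P'‖ ^ (e - 1)).trans h5
      _ = K * v * A * (G / (1 - 11 / 3 * (K * v * A * G))) := by ring
  rw [mul_add, mul_add]
  linarith

end Pool.Agent.helper4.EQW
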