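import Pool.Agent.helper4.EQW.Rec

/-!
# EQW: openness and conjugation symmetry of the tail region
-/

namespace Pool.Agent.helper4.EQW

open Complex ComplexConjugate
open Pool.Agent.helper31.EQ.W (c2 gl gs nxt wn FW)

variable {e κ : ℝ} {P : ℂ}

theorem continuous_v2 (κ : ℝ) : Continuous (v2 κ) := by
  unfold v2
  fun_prop

theorem isOpen_LT (κ : ℝ) : IsOpen (LT κ) := by
  have h1 : Continuous fun P : ℂ => ‖P - ((Real.exp (-κ) : ℝ) : ℂ)‖ := by fun_prop
  have h2 : Continuous fun P : ℂ => Real.exp (-(4 * κ)) * ‖P - ((Real.exp κ : ℝ) : ℂ)‖ := by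
    fun_prop
  exact (isOpen_lt h1 h2).inter (isOpen_lt (continuous_v2 κ).norm continuous_const)

theorem isOpen_OT (κ : ℝ) : IsOpen (OT κ) := by
  rw [isOpen_iff_mem_nhds]
  intro Y hY
  have h1 : ContinuousAt (nx κ) Y :=
    ((differentiableAt_const (1 : ℂ)).div ((differentiableAt_const _).sub differentiableAt_id)
      hY.1).continuousAt
  have h2 : nx κ ⁻¹' LT κ ∈ nhds Y := h1 ((isOpen_LT κ).mem_nhds hY.2.1)
  have h3 : {Y : ℂ | 2 * (Real.cosh κ : ℂ) - Y ≠ 0} ∈ nhds Y :=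
    (isOpen_ne_fun (by fun_prop) continuous_const).mem_nhds hY.1
  have h4 : {Y : ℂ | Y ≠ ((Real.exp (-κ) : ℝ) : ℂ)} ∈ nhds Y := isOpen_ne.mem_nhds hY.2.2
  filter_upwards [h2, h3, h4] with Z z2 z3 z4
  exact ⟨z3, z2, z4⟩

theorem v2_conj (κ : ℝ) (P : ℂ) : v2 κ (conj P) = conj (v2 κ P) := by
  unfold v2
  simp only [map_add, map_sub, map_mul, map_pow, map_one, Complex.conj_ofReal, map_ofNat]

theorem LT_conj (hP : P ∈ LT κ) : conj P ∈ LT κ := by
  obtain ⟨h1, h2⟩ := hP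
  refine ⟨?_, ?_⟩
  · have e1 : conj P - ((Real.exp (-κ) : ℝ) : ℂ) = conj (P - ((Real.exp (-κ) : ℝ) : ℂ)) := by
      rw [map_sub, Complex.conj_ofReal]
    have e2 : conj P - ((Real.exp κ : ℝ) : ℂ) = conj (P - ((Real.exp κ : ℝ) : ℂ)) := by
      rw [map_sub, Complex.conj_ofReal]
    rw [e1, e2, Complex.norm_conj, Complex.norm_conj]
    exact h1
  · rw [v2_conj, Complex.norm_conj]
    exact h2

theorem nx_conj (κ : ℝ) (Y : ℂ) : nx κ (conj Y) = conj (nx κ Y) := by
  unfold nx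
  simp only [map_div₀, map_sub, map_mul, map_one, Complex.conj_ofReal, map_ofNat]

theorem OT_conj {Y : ℂ} (hY : Y ∈ OT κ) : conj Y ∈ OT κ := by
  refine ⟨?_, ?_, ?_⟩
  · intro h
    apply hY.1
    have h1 := congrArg conj h
    simp only [map_sub, map_mul, Complex.conj_ofReal, map_ofNat, Complex.conj_conj, map_zero] at h1
    exact h1
  · rw [nx_conj]
    exact LT_conj hY.2.1
  · intro h
    apply hY.2.2
    have h1 := congrArg conj h
    rwa [Complex.conj_conj, Complex.conj_ofReal] at h1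

theorem gK_conj (κ : ℝ) (P : ℂ) : gK κ (conj P) = conj (gK κ P) := by
  unfold gK
  simp only [map_sub, map_mul, Complex.conj_ofReal, v2_conj]

theorem f0_conj {z : ℂ} (hz : z ∈ slitPlane) : f0 e (conj z) = conj (f0 e z) := by
  unfold f0
  have h1 : z.arg ≠ Real.pi := (Complex.mem_slitPlane_iff_arg.1 hz).1
  rw [Complex.conj_cpow _ _ h1, Complex.conj_ofReal]
  simp only [map_div₀, map_add, map_one, map_ofNat]

theorem G1_conj {z : ℂ} (hz : z ∈ slitPlane) (hf : f0 e z ∈ slitPlane) :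
    G1 e κ (conj z) = conj (G1 e κ z) := by
  unfold G1
  rw [f0_conj hz]
  have h1 : (f0 e z).arg ≠ Real.pi := (Complex.mem_slitPlane_iff_arg.1 hf).1
  rw [Complex.conj_cpow _ _ h1]
  simp only [map_mul, map_neg, Complex.conj_ofReal]

theorem rT_conj (he : 1 ≤ e) (he2 : e ≤ 2) (hκ : 0 < κ) {Y : ℂ} (hY : Y ∈ OT κ) :
    rT e κ (conj Y) = conj (rT e κ Y) := by
  have hd := (disc_of_mem he he2 hκ hY.2.1).1
  unfold rT
  rw [nx_conj, gK_conj, G1_conj (disc_slit (Real.exp_pos _) hd)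
    (f0_slit (by linarith) he2 (Real.exp_pos _) hd)]
  simp only [map_div₀, map_mul, Complex.conj_ofReal]

end Pool.Agent.helper4.EQW
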