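import Pool.Agent.helper4.EQW.BoxS

/-!
# EQW: the scalar inequality for small `U` and for large `κ`
-/

namespace Pool.Agent.helper4.EQW

variable {e κ : ℝ} {P : ℂ} {s U v A B x o p δ η : ℝ}

/-- More facts. -/
theorem more_facts (F : Facts κ P s U v A B x o p) {K a : ℝ} (X : Aux e κ s U v A B x o p K a δ η) :
    s ≤ U * (1 + 2 * s) ^ 2 ∧ (1 + 8 * s + 8 * s ^ 2) * U ≤ 2 * s + v ∧ U ≤ 1 / 4 := by
  have hs := F.s_pos
  have hC1 := Real.one_le_cosh κ
  have hCs : Real.cosh κ ^ 2 = 1 + s := by rw [F.s_def, Real.cosh_sq]; ring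
  have hq := F.U_eq
  unfold q4 at hq
  have hx := F.x_le
  have hv4 := F.v_le
  have hv5 := F.v_lt
  have hx0 := X.x_nn
  have hU0 := X.U_nn
  have h2 : (1 + 8 * s + 8 * s ^ 2) * U ≤ 2 * s + v := by linarith
  refine ⟨?_, h2, ?_⟩
  · have hxC : x ≤ Real.cosh κ := by
      apply le_of_sq_le_sq _ (by linarith)
      rw [hCs]
      linarith
    have h3 : (Real.cosh κ - x) ^ 2 ≤ 1 - (3 + 4 * s) * U :=
      (pow_le_pow_left₀ (by linarith) F.p_ge 2).trans F.p_sq
    -- 2 C x ≥ 4 (1+s)(1+2s) U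
    have h4 : 4 * (1 + s) * (1 + 2 * s) * U ≤ 2 * Real.cosh κ * x := by nlinarith
    have h5 : (4 * (1 + s) * (1 + 2 * s) * U) ^ 2 ≤ (2 * Real.cosh κ * x) ^ 2 :=
      pow_le_pow_left₀ (by positivity) h4 2
    have h6 : (2 * Real.cosh κ * x) ^ 2 = 4 * (1 + s) * ((1 + 8 * s + 8 * s ^ 2) * U - s) := by
      have : (2 * Real.cosh κ * x) ^ 2 = 4 * Real.cosh κ ^ 2 * x ^ 2 := by ring
      rw [this, hCs]
      have : x ^ 2 = (1 + 8 * s + 8 * s ^ 2) * U - s := by linarith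
      rw [this]
    rw [h6] at h5
    -- (4 (1+s) U - 1) ((1+2s)² U - s) ≤ 0
    have h7 : (4 * (1 + s) * U - 1) * ((1 + 2 * s) ^ 2 * U - s) ≤ 0 := by
      have h8 : 4 * (1 + s) * ((4 * (1 + s) * U - 1) * ((1 + 2 * s) ^ 2 * U - s)) =
          (4 * (1 + s) * (1 + 2 * s) * U) ^ 2 - 4 * (1 + s) * ((1 + 8 * s + 8 * s ^ 2) * U - s) := by
        ring
      have h9 : 4 * (1 + s) * ((4 * (1 + s) * U - 1) * ((1 + 2 * s) ^ 2 * U - s)) ≤ 0 := by
        rw [h8]
        linarith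
      by_contra hc
      push Not at hc
      have : 0 < 4 * (1 + s) * ((4 * (1 + s) * U - 1) * ((1 + 2 * s) ^ 2 * U - s)) := by positivity
      linarith
    by_contra hc
    push Not at hc
    have h8 : (1 + 2 * s) ^ 2 * U - s < 0 := by linarith
    -- then 4(1+s)U - 1 ≥ 0
    have h9 : 0 ≤ 4 * (1 + s) * U - 1 := by
      by_contra hd
      push Not at hd
      have : 0 < (4 * (1 + s) * U - 1) * ((1 + 2 * s) ^ 2 * U - s) := mul_pos_of_neg_of_neg hd h8
      linarith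
    -- U ≥ 1/(4(1+s)), (1+2s)² U < s : (1+2s)² < 4 s (1+s): contradiction
    have h10 : (1 + 2 * s) ^ 2 * 1 ≤ (1 + 2 * s) ^ 2 * (4 * (1 + s) * U) :=
      mul_le_mul_of_nonneg_left (by linarith) (by positivity)
    have h11 : (1 + 2 * s) ^ 2 * (4 * (1 + s) * U) = 4 * (1 + s) * ((1 + 2 * s) ^ 2 * U) := by ring
    have h12 : 4 * (1 + s) * ((1 + 2 * s) ^ 2 * U) ≤ 4 * (1 + s) * s :=
      mul_le_mul_of_nonneg_left (by linarith) (by positivity)
    nlinarith
  · -- U ≤ 1/(4(1+s))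
    have h3 : (1 + 8 * s + 8 * s ^ 2) * (U * (4 * (1 + s))) ≤ (1 + 8 * s + 8 * s ^ 2) * 1 := by
      calc (1 + 8 * s + 8 * s ^ 2) * (U * (4 * (1 + s))) =
            ((1 + 8 * s + 8 * s ^ 2) * U) * (4 * (1 + s)) := by ring
        _ ≤ (2 * s + v) * (4 * (1 + s)) := mul_le_mul_of_nonneg_right h2 (by positivity)
        _ = 8 * s * (1 + s) + v * (4 * (1 + s)) := by ring
        _ ≤ 8 * s * (1 + s) + 1 := by linarith
        _ = (1 + 8 * s + 8 * s ^ 2) * 1 := by ring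
    have h4 : U * (4 * (1 + s)) ≤ 1 := le_of_mul_le_mul_left h3 (by positivity)
    nlinarith

theorem goal_large (hs5 : 5 ≤ s) (he : 1 ≤ e) (he2 : e ≤ 2) (hκ : 0 < κ)
    (F : Facts κ P s U v A B x o p)
    (X : Aux e κ s U v A B x o p (KK e κ) (Real.exp (-κ)) δ η) :
    Goal (99 / 100) s v A x o p (KK e κ) (Real.exp (-κ)) δ η (Real.sinh κ)
      (‖2 * (Real.cosh κ : ℂ) - P‖ - δ) := by
  have hsp := F.s_pos
  have hS : 0 < Real.sinh κ := Real.sinh_pos_iff.2 hκ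
  have hC1 := Real.one_le_cosh κ
  have hCs : Real.cosh κ ^ 2 = 1 + s := by rw [F.s_def, Real.cosh_sq]; ring
  have hSs : Real.sinh κ ^ 2 = s := F.s_def.symm
  have hv0 := X.v_nn
  have hA0 := X.A_nn
  have hx0 := X.x_nn
  have ho0 := X.o_nn
  have hp0 := X.p_pos
  have haS : Real.exp (-κ) * (Real.exp (-κ) + 2 * Real.sinh κ) = 1 := by
    rw [exp_neg_eq]
    linarith only [Real.cosh_sq κ]
  have ha0 := X.a_pos
  set S := Real.sinh κ with hSd
  have hS1 : 223 / 100 ≤ S := by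
    by_contra hc
    push Not at hc
    have : S ^ 2 < (223 / 100) ^ 2 := pow_lt_pow_left₀ hc hS.le (by norm_num)
    linarith
  have hv : v ≤ 1 / 24 := by
    have := F.v_le
    nlinarith
  have hA : A ≤ 1 / (19 * s) := by
    apply le_of_sq_le_sq _ (by positivity)
    have h1 := F.A_le
    rw [div_pow, one_pow, le_div_iff₀ (by positivity)]
    have h2 : A ^ 2 * (16 * s ^ 2) ≤ 1 / 24 := by
      have : 0 ≤ A ^ 2 * (1 + 16 * s) := by positivity
      linarith
    nlinarith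
  have hx : x ≤ S + 1 / 100 := by
    apply le_of_sq_le_sq _ (by linarith)
    have := F.x_le
    nlinarith
  have hK : KK e κ ≤ 7 / 2 := by
    have hKl := KK_le he he2 hκ
    have h6 : 3 * Real.sinh κ ^ 2 / (1 + Real.sinh κ ^ 2) ≤ 3 := by
      rw [div_le_iff₀ (by positivity)]
      nlinarith [sq_nonneg (Real.sinh κ)]
    linarith
  have ha : Real.exp (-κ) ≤ 28 / 125 := by
    by_contra hc
    push Not at hc
    nlinarith
  have hp1 := X.p_le
  have hpC : 91 / 200 / S ≤ p := by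
    have h1 := F.p_ge2
    have h2 : Real.cosh κ ≤ 1096 / 1000 * S := by
      apply le_of_sq_le_sq _ (by positivity)
      rw [hCs]
      nlinarith
    rw [div_le_iff₀ hS]
    nlinarith
  have hW := (W_ge F X).2
  have hSi : S / s = 1 / S := by rw [← hSs]; field_simp
  have hiS : 1 / S ≤ 449 / 1000 := by
    rw [div_le_iff₀ hS]
    linarith
  have his : 1 / s ≤ 1 / 5 := by
    rw [div_le_div_iff₀ (by linarith) (by norm_num)]
    linarith
  have hiss : 1 / s = 1 / S * (1 / S) := by rw [← hSs]; field_simp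
  have hiS0 : 0 < 1 / S := by positivity
  refine goal_of_bounds (s0 := s) (xb := S + 1 / 100) (vb := 1 / 24) (Kb := 7 / 2)
    (Ab := 1 / (19 * s)) (ob := 1) (ab := 28 / 125) (al := 0) (Sb := S) (D := 1 / (130 * s))
    (de := 1 / 650) (eta := 1 / 6) (eS := 3 / 20) (Wb := 1) (G := 31 / 100) (pb := 1)
    (m := 9 / 20 / S) (lam := 18 / 5 * S) (R := 1 / (130 * s)) (T1 := 312 / 1000) (T2 := 63 / 100)
    (T3 := 127 / 10000)
    hsp.le le_rfl hv0 hA0 hx0 ho0 hp0 X.K_pos ha0 hS.le X.δ_def X.η_def hv hA hx F.o_le_1 hK ha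
    ha0.le le_rfl ?_ ?_ ?_ (by norm_num) one_pos hW (by norm_num) ?_ ?_ ?_ hp1 (by linarith) (by linarith)
    (by positivity) ?_ ?_ ?_ ?_ (by norm_num) (by norm_num) ?_ ?_
  · -- K v A ≤ D
    rw [mul_one_div, div_le_div_iff₀ (by positivity) (by positivity)]
    nlinarith
  · rw [mul_one, div_le_div_iff₀ (by positivity) (by norm_num)]
    linarith
  · -- eta
    have e1 : 7 / 2 * (1 / (19 * s)) * 1 * (2 * (S + 1 / 100) + 1 / 650) =
        7 / 38 * (2 * (S / s) + (2 / 100 + 1 / 650) * (1 / s)) := by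
      field_simp
      ring
    rw [e1, hSi]
    nlinarith
  · -- D G
    have e1 : 11 / 3 * (1 / (130 * s) * (31 / 100)) = 341 / 39000 * (1 / s) := by
      field_simp
      norm_num
    rw [e1]
    linarith
  · have e1 : (312 / 1000 : ℝ) * (1 - 11 / 3 * (1 / (130 * s) * (31 / 100))) =
        312 / 1000 * (1 - 341 / 39000 * (1 / s)) := by
      field_simp
      ring
    rw [e1]
    linarith
  · -- T2
    nlinarith
  · -- m + R ≤ p
    have e1 : (9 / 20 / S + 1 / (130 * s) : ℝ) = 9 / 20 * (1 / S) + 1 / 130 * (1 / S * (1 / S)) := by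
      rw [← hiss]
      field_simp
    have e2 : 91 / 200 / S = 91 / 200 * (1 / S) := by ring
    rw [e2] at hpC
    rw [e1]
    nlinarith
  · -- lambda
    have e1 : 18 / 5 * S * ((1 + 9 / 20 / S / 2) * (9 / 20 / S)) =
        81 / 50 * (1 + 9 / 40 * (1 / S)) := by
      field_simp
      ring
    have e2 : (1 + 3 * (9 / 20 / S) : ℝ) = 1 + 27 / 20 * (1 / S) := by ring
    rw [e1, e2]
    linarith
  · have e1 : 18 / 5 * S * (1 / (130 * s)) = 18 / 650 * (S / s) := by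
      field_simp
      ring
    rw [e1, hSi]
    linarith
  · have e1 : 18 / 5 * S * (1 / (130 * s)) = 18 / 650 * (S / s) := by
      field_simp
      ring
    rw [e1, hSi]
    linarith
  · have h1 : 1 / (19 * s) = 1 / 19 * (1 / s) := by field_simp
    rw [h1]
    linarith
  · have h1 : 1 / (19 * s) = 1 / 19 * (1 / s) := by field_simp
    rw [h1]
    have h2 : 98 / 100 ≤ 1 + 0 - 1 / 19 * (1 / s) - 1 / 650 := by linarith
    calc (7 * (1 / 24 * (1 + 1 / 6)) : ℝ) ≤ (98 / 100) ^ 2 := by norm_num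
      _ ≤ (1 + 0 - 1 / 19 * (1 / s) - 1 / 650) ^ 2 := pow_le_pow_left₀ (by norm_num) h2 2

theorem goal_corner (hs20 : s ≤ 1 / 20) (hU3 : U ≤ 3 / 100) (he : 1 ≤ e) (he2 : e ≤ 2) (hκ : 0 < κ)
    (F : Facts κ P s U v A B x o p)
    (X : Aux e κ s U v A B x o p (KK e κ) (Real.exp (-κ)) δ η) :
    Goal (1 - U) s v A x o p (KK e κ) (Real.exp (-κ)) δ η (Real.sinh κ)
      (‖2 * (Real.cosh κ : ℂ) - P‖ - δ) := by
  have hsp := F.s_pos
  have hS : 0 < Real.sinh κ := Real.sinh_pos_iff.2 hκ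
  have hC1 := Real.one_le_cosh κ
  have hCs : Real.cosh κ ^ 2 = 1 + s := by rw [F.s_def, Real.cosh_sq]; ring
  have hSs : Real.sinh κ ^ 2 = s := F.s_def.symm
  have hv0 := X.v_nn
  have hA0 := X.A_nn
  have hx0 := X.x_nn
  have ho0 := X.o_nn
  have hp0 := X.p_pos
  have hU0 := X.U_nn
  have hUp := X.U_pos
  have ha0 := X.a_pos
  obtain ⟨m1, m2, -⟩ := more_facts F X
  set S := Real.sinh κ with hSd
  set t := Real.sqrt U with htd
  have ht : t ^ 2 = U := Real.sq_sqrt hU0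
  have ht0 : 0 < t := Real.sqrt_pos.2 hUp
  have ht1 : t ≤ 1733 / 10000 := by
    by_contra hc
    push Not at hc
    have : (1733 / 10000 : ℝ) ^ 2 < t ^ 2 := pow_lt_pow_left₀ hc (by norm_num) (by norm_num)
    rw [ht] at this
    linarith
  have hsU : s ≤ 121 / 100 * U := by
    have : (1 + 2 * s) ^ 2 ≤ 121 / 100 := by nlinarith
    nlinarith
  have hs36 : s ≤ 363 / 10000 := by linarith
  have hv : v ≤ t ^ 2 := by rw [ht]; exact F.v_le_U
  have hA : A ≤ t := by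
    apply le_of_sq_le_sq _ ht0.le
    have h1 := F.A_le
    have h2 : 0 ≤ A ^ 2 * (16 * s + 16 * s ^ 2) := by positivity
    linarith
  have hx : x ≤ 1141 / 1000 * t := by
    apply le_of_sq_le_sq _ (by positivity)
    have hq := F.U_eq
    unfold q4 at hq
    have : (1 + 8 * s + 8 * s ^ 2) ≤ 1301 / 1000 := by nlinarith
    have h3 : (1 + 8 * s + 8 * s ^ 2) * U ≤ 1301 / 1000 * U := mul_le_mul_of_nonneg_right this hU0
    have h4 : (1141 / 1000 * t) ^ 2 = 1301881 / 1000000 * U := by rw [mul_pow, ht]; norm_num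
    rw [h4]
    linarith
  have hK : KK e κ ≤ 61 / 100 := by
    have hKl := KK_le he he2 hκ
    rw [← hSd, hSs] at hKl
    have h6 : 3 * s / (1 + s) ≤ 3 * s := div_le_self (by linarith) (by linarith)
    linarith
  have hSt : S ≤ 11 / 10 * t := by
    apply le_of_sq_le_sq _ (by positivity)
    rw [hSs, mul_pow, ht]
    linarith
  have hal : 4 / 5 ≤ Real.exp (-κ) := by
    rw [exp_neg_eq, ← hSd]
    linarith
  have hp1 := X.p_le
  have hpl : 1 - 1141 / 1000 * t ≤ p := by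
    have := F.p_ge
    linarith
  -- powers of t
  have t3 : t ^ 3 ≤ 1733 / 10000 * U := by
    rw [← ht]
    nlinarith [mul_nonneg (sq_nonneg t) (sub_nonneg.2 ht1)]
  have t30 : 0 < t ^ 3 := by positivity
  have t3' : t ^ 3 ≤ 52 / 10000 := by linarith
  have t4 : t ^ 4 = U ^ 2 := by rw [← ht]; ring
  have hW : 1 + 235 / 100 * U ≤ ‖2 * (Real.cosh κ : ℂ) - P‖ - δ := by
    have hde : δ ≤ 7 / 10 * U ^ 2 := by
      rw [X.δ_def]
      have hK0 := X.K_pos
      have ho : o ≤ 1141 / 1000 * t := F.o_le_x.trans hx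
      calc KK e κ * v * A * o ≤ 61 / 100 * t ^ 2 * t * (1141 / 1000 * t) := by gcongr
        _ = 61 / 100 * (1141 / 1000) * t ^ 4 := by ring
        _ ≤ 7 / 10 * U ^ 2 := by
            rw [t4]
            have : 0 ≤ U ^ 2 := sq_nonneg _
            linarith
    have h1 : 1 + 235 / 100 * U + 7 / 10 * U ^ 2 ≤ ‖2 * (Real.cosh κ : ℂ) - P‖ := by
      apply le_of_sq_le_sq _ (norm_nonneg _)
      refine le_trans ?_ F.W_sq
      have h2 : 0 ≤ (20 * s + 16 * s ^ 2) * U := by positivity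
      have h3 : (1 + 235 / 100 * U + 7 / 10 * U ^ 2) ^ 2 ≤ 1 + 5 * U := by
        have h5 : U ^ 2 ≤ 3 / 100 * U := by nlinarith
        have h6 : (235 / 100 * U + 7 / 10 * U ^ 2) ≤ 2371 / 1000 * U := by linarith
        have h7 : 0 ≤ 235 / 100 * U + 7 / 10 * U ^ 2 := by positivity
        have h8 : (235 / 100 * U + 7 / 10 * U ^ 2) ^ 2 ≤ (2371 / 1000 * U) ^ 2 :=
          pow_le_pow_left₀ h7 h6 2
        nlinarith
      linarith
    linarith
  have hUU : U ^ 2 ≤ 3 / 100 * U := by nlinarith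
  refine goal_of_bounds (s0 := 0) (xb := 1141 / 1000 * t) (vb := t ^ 2) (Kb := 61 / 100)
    (Ab := t) (ob := 1141 / 1000 * t) (ab := 1) (al := 4 / 5) (Sb := 11 / 10 * t) (D := 61 / 100 * t ^ 3)
    (de := 7 / 10 * t ^ 4) (eta := 8 / 5 * t ^ 3) (eS := 7 / 10 * t ^ 3) (Wb := 1 + 235 / 100 * U)
    (G := 1 - 54 / 10 * U) (pb := 1)
    (m := 79 / 100) (lam := 31 / 10) (R := 61 / 100 * t ^ 3) (T1 := 1 - 49 / 10 * U)
    (T2 := 36 / 10 * U) (T3 := 18 / 100 * U)
    le_rfl hsp.le hv0 hA0 hx0 ho0 hp0 X.K_pos ha0 hS.le X.δ_def X.η_def hv hA hx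
    (F.o_le_x.trans hx) hK X.a_lt.le hal hSt ?_ ?_ ?_ ?_ (by positivity) hW ?_ ?_ ?_ ?_ hp1 ?_ ?_
    (by norm_num) ?_ (by norm_num) ?_ ?_ (by linarith) ?_ ?_ ?_
  · have : 61 / 100 * t ^ 2 * t = 61 / 100 * t ^ 3 := by ring
    linarith
  · have : 61 / 100 * t ^ 3 * (1141 / 1000 * t) = 69601 / 100000 * t ^ 4 := by ring
    have : 0 < t ^ 4 := by positivity
    linarith
  · -- eta
    have e1 : 61 / 100 * t * (1141 / 1000 * t) * (2 * (1141 / 1000 * t) + 7 / 10 * t ^ 4) =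
        69601 / 100000 * (2282 / 1000 + 7 / 10 * t ^ 3) * t ^ 3 := by ring
    rw [e1]
    apply mul_le_mul_of_nonneg_right _ t30.le
    linarith
  · have e1 : 61 / 100 * t ^ 2 * (1141 / 1000 * t) = 69601 / 100000 * t ^ 3 := by ring
    rw [e1]
    linarith
  · -- G
    have h1 : 1 + 8 / 5 * t ^ 3 ≤ 1 + 278 / 1000 * U := by linarith
    have h2 : 1 + 7 / 10 * t ^ 3 ≤ 1 + 122 / 1000 * U := by linarith
    have h3 : 1 * (1 + 8 / 5 * t ^ 3) * (1 + 7 / 10 * t ^ 3) ≤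
        (1 + 278 / 1000 * U) * (1 + 122 / 1000 * U) := by
      rw [one_mul]
      exact mul_le_mul h1 h2 (by positivity) (by positivity)
    refine h3.trans ?_
    have h4 : 1 + 705 / 100 * U + 1656 / 100 * U ^ 2 ≤ (1 + 235 / 100 * U) ^ 3 := by
      have : (1 + 235 / 100 * U) ^ 3 = 1 + 705 / 100 * U + 3 * (235 / 100) ^ 2 * U ^ 2 +
          (235 / 100) ^ 3 * U ^ 3 := by ring
      rw [this]
      have : 0 ≤ U ^ 3 := by positivity
      have := sq_nonneg U
      linarith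
    have h5 : 0 ≤ 1 - 54 / 10 * U := by linarith
    refine le_trans ?_ (mul_le_mul_of_nonneg_left h4 h5)
    nlinarith
  · -- D G
    have : 61 / 100 * t ^ 3 * (1 - 54 / 10 * U) ≤ 61 / 100 * t ^ 3 := by
      apply mul_le_of_le_one_right (by positivity)
      linarith
    linarith
  · have h1 : 61 / 100 * t ^ 3 * (1 - 54 / 10 * U) ≤ 61 / 100 * t ^ 3 := by
      apply mul_le_of_le_one_right (by positivity)
      linarith
    have h2 : 11 / 3 * (61 / 100 * t ^ 3 * (1 - 54 / 10 * U)) ≤ 388 / 1000 * U := by linarith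
    have h3 : (1 - 49 / 10 * U) * (1 - 388 / 1000 * U) ≤
        (1 - 49 / 10 * U) * (1 - 11 / 3 * (61 / 100 * t ^ 3 * (1 - 54 / 10 * U))) :=
      mul_le_mul_of_nonneg_left (by linarith) (by linarith)
    nlinarith
  · -- T2
    have e1 : 34 / 25 * (1141 / 1000 * t + 7 / 10 * t ^ 4) * (1141 / 1000 * t + 11 / 10 * t) =
        34 / 25 * (1141 / 1000 + 7 / 10 * t ^ 3) * (2241 / 1000) * U := by
      rw [← ht]
      ring
    rw [e1]
    have h1 : 34 / 25 * (1141 / 1000 + 7 / 10 * t ^ 3) * (2241 / 1000) * U ≤ 349 / 100 * U := by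
      apply mul_le_mul_of_nonneg_right _ hU0
      linarith
    have h2 : (1 + 8 / 5 * t ^ 3) ^ 2 ≤ (10084 / 10000) ^ 2 :=
      pow_le_pow_left₀ (by positivity) (by linarith) 2
    calc 34 / 25 * (1141 / 1000 + 7 / 10 * t ^ 3) * (2241 / 1000) * U * (1 + 8 / 5 * t ^ 3) ^ 2 ≤
          349 / 100 * U * (10084 / 10000) ^ 2 := mul_le_mul h1 h2 (by positivity) (by positivity)
      _ ≤ 36 / 10 * U * (1 + 6 * 0) := by nlinarith
  · linarith
  · have : 61 / 100 * t ^ 3 * (1141 / 1000 * t) ≤ 61 / 100 * t ^ 3 * 1 :=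
      mul_le_mul_of_nonneg_left (by linarith) (by positivity)
    linarith
  · linarith
  · linarith
  · -- T3
    have h1 : (1 ^ 2 + (1141 / 1000 * t) ^ 2) ≤ 104 / 100 := by
      rw [mul_pow, ht]
      linarith
    have h2 : 31 / 10 * (61 / 100 * t ^ 3) * (1 ^ 2 + (1141 / 1000 * t) ^ 2) / 2 ≤
        31 / 10 * (61 / 100 * t ^ 3) * (104 / 100) / 2 := by gcongr
    have h3 : 18 / 100 * U * (99 / 100) ≤ 18 / 100 * U * (1 - 31 / 10 * (61 / 100 * t ^ 3)) :=
      mul_le_mul_of_nonneg_left (by linarith) (by positivity)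
    linarith
  · -- v
    have h1 : 1 + 8 / 5 * t ^ 3 ≤ 2 := by linarith
    rw [ht]
    nlinarith
  · have h1 : 0 ≤ t ^ 4 := by positivity
    have h2 : t ^ 4 ≤ 1 / 100 := by rw [t4]; nlinarith
    linarith
  · have h2 : t ^ 4 ≤ 1 / 100 := by rw [t4]; nlinarith
    have h3 : 3 / 2 ≤ 1 + 4 / 5 - t - 7 / 10 * t ^ 4 := by linarith
    have h4 : (3 / 2 : ℝ) ^ 2 ≤ (1 + 4 / 5 - t - 7 / 10 * t ^ 4) ^ 2 :=
      pow_le_pow_left₀ (by norm_num) h3 2
    have h1 : 1 + 8 / 5 * t ^ 3 ≤ 2 := by linarith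
    rw [ht]
    nlinarith

end Pool.Agent.helper4.EQW
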