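import Mathlib

/-!
# EQW: powers on the disc `‖z - a‖ ≤ a/2`
-/

namespace Pool.Agent.helper4.EQW

open Complex

variable {a e : ℝ} {z : ℂ}

theorem disc_re (hz : ‖z - (a : ℂ)‖ ≤ a / 2) : a / 2 ≤ z.re ∧ 3 * z.im ^ 2 ≤ z.re ^ 2 := by
  have h1 : (z.re - a) ^ 2 + z.im ^ 2 ≤ (a / 2) ^ 2 := by
    have h2 : ‖z - (a : ℂ)‖ ^ 2 ≤ (a / 2) ^ 2 := pow_le_pow_left₀ (norm_nonneg _) hz 2
    rw [← Complex.normSq_eq_norm_sq, Complex.normSq_apply] at h2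
    simp at h2
    nlinarith
  constructor
  · have h3 : |(z - (a : ℂ)).re| ≤ a / 2 := (Complex.abs_re_le_norm _).trans hz
    rw [Complex.sub_re, Complex.ofReal_re] at h3
    have := (abs_le.1 h3).1
    linarith
  · nlinarith [sq_nonneg (2 * z.re - 3 / 2 * a)]

theorem disc_slit (ha : 0 < a) (hz : ‖z - (a : ℂ)‖ ≤ a / 2) : z ∈ slitPlane := by
  rw [Complex.mem_slitPlane_iff]
  left
  have := (disc_re hz).1
  linarith

theorem disc_arg (ha : 0 < a) (hz : ‖z - (a : ℂ)‖ ≤ a / 2) : |arg z| ≤ Real.pi / 6 := by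
  obtain ⟨h1, h2⟩ := disc_re hz
  have hre : 0 < z.re := by linarith
  have hz0 : 0 < ‖z‖ := by
    have := Complex.re_le_norm z
    linarith
  rw [Complex.arg_of_re_nonneg hre.le]
  have h3 : |z.im / ‖z‖| ≤ 1 / 2 := by
    rw [abs_div, abs_of_pos hz0, div_le_iff₀ hz0]
    apply abs_le_of_sq_le_sq _ (by positivity)
    have h4 : ‖z‖ ^ 2 = z.re ^ 2 + z.im ^ 2 := by
      rw [← Complex.normSq_eq_norm_sq, Complex.normSq_apply]
      ring
    have h5 : (1 / 2 * ‖z‖) ^ 2 = 1 / 4 * ‖z‖ ^ 2 := by ring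
    rw [h5, h4]
    linarith
  have h4 := abs_le.1 h3
  have h5 : Real.arcsin (1 / 2) = Real.pi / 6 := by
    rw [← Real.sin_pi_div_six, Real.arcsin_sin]
    · linarith [Real.pi_pos]
    · linarith [Real.pi_pos]
  rw [abs_le]
  constructor
  · rw [← h5, ← Real.arcsin_neg]
    exact Real.monotone_arcsin (by linarith [h4.1])
  · rw [← h5]
    exact Real.monotone_arcsin h4.2

theorem disc_pow_re (he : 0 ≤ e) (he2 : e ≤ 2) (ha : 0 < a) (hz : ‖z - (a : ℂ)‖ ≤ a / 2) :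
    ‖z‖ ^ e / 2 ≤ (z ^ (e : ℂ)).re := by
  rw [Complex.cpow_ofReal_re]
  have h1 := disc_arg ha hz
  have h2 : |arg z * e| ≤ Real.pi / 3 := by
    rw [abs_mul, abs_of_nonneg he]
    have := abs_nonneg (arg z)
    nlinarith [Real.pi_pos]
  have h3 : 1 / 2 ≤ Real.cos (arg z * e) := by
    rw [← Real.cos_pi_div_three, ← Real.cos_abs (arg z * e)]
    exact Real.cos_le_cos_of_nonneg_of_le_pi (abs_nonneg _) (by linarith [Real.pi_pos]) h2
  have h4 : 0 ≤ ‖z‖ ^ e := Real.rpow_nonneg (norm_nonneg _) _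
  nlinarith

theorem disc_one_add (he : 0 ≤ e) (he2 : e ≤ 2) (ha : 0 < a) (hz : ‖z - (a : ℂ)‖ ≤ a / 2) :
    1 + ‖z‖ ^ e / 2 ≤ ‖1 + z ^ (e : ℂ)‖ := by
  have h1 := disc_pow_re he he2 ha hz
  have h2 := Complex.re_le_norm (1 + z ^ (e : ℂ))
  rw [Complex.add_re, Complex.one_re] at h2
  linarith

theorem disc_half_slit (he : 0 ≤ e) (he2 : e ≤ 2) (ha : 0 < a) (hz : ‖z - (a : ℂ)‖ ≤ a / 2) :
    (1 + z ^ (e : ℂ)) / 2 ∈ slitPlane := by
  rw [Complex.mem_slitPlane_iff]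
  left
  have h1 := disc_pow_re he he2 ha hz
  have h2 : 0 ≤ ‖z‖ ^ e := Real.rpow_nonneg (norm_nonneg _) _
  have h5 : ((1 + z ^ (e : ℂ)) / 2).re = (1 + (z ^ (e : ℂ)).re) / 2 := by
    have : (1 + z ^ (e : ℂ)) / 2 = (1 + z ^ (e : ℂ)) / ((2 : ℝ) : ℂ) := by push_cast; rfl
    rw [this, Complex.div_ofReal_re, Complex.add_re, Complex.one_re]
  rw [h5]
  linarith

theorem disc_norm_pos (ha : 0 < a) (hz : ‖z - (a : ℂ)‖ ≤ a / 2) : 0 < ‖z‖ := by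
  have h1 := (disc_re hz).1
  have := Complex.re_le_norm z
  linarith

end Pool.Agent.helper4.EQW
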