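import Mathlib

/-!
# EQW: geometry of the tail region (real numbers)

`C = cosh κ`, `S = sinh κ`, `P` the ideal position, `ζ = C - P`, `X = Re ζ`, `t = ‖ζ‖²`,
`A = ‖ζ - S‖ = ‖P - exp (-κ)‖`, `B = ‖ζ + S‖ = ‖P - exp κ‖`.
-/

namespace Pool.Agent.helper4.EQW

variable {C S A B X t : ℝ}

/-- `q = cosh (4κ)`. -/
def q4 (s : ℝ) : ℝ := 1 + 8 * s + 8 * s ^ 2

theorem q4_pos {s : ℝ} (hs : 0 ≤ s) : 1 ≤ q4 s := by
  unfold q4
  nlinarith [sq_nonneg s]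

theorem geo_ab (hS : 0 < S) (hC : 0 < C) (hCS : C ^ 2 = 1 + S ^ 2) :
    0 < C - S ∧ C - S < 1 ∧ (C - S) * (C + S) = 1 := by
  have h1 : (C - S) * (C + S) = 1 := by nlinarith
  have h2 : 0 < C - S := by
    by_contra h
    push Not at h
    nlinarith
  refine ⟨h2, ?_, h1⟩
  have h3 : S < C := by linarith
  nlinarith

theorem geo_q (hCS : C ^ 2 = 1 + S ^ 2) :
    (C - S) ^ 4 + (C + S) ^ 4 = 2 * q4 (S ^ 2) := by
  unfold q4
  have h : (C - S) ^ 4 + (C + S) ^ 4 = 2 * (C ^ 2) ^ 2 + 12 * C ^ 2 * S ^ 2 + 2 * (S ^ 2) ^ 2 := by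
    ring
  rw [h, hCS]
  ring

theorem geo_v (hS : 0 < S) (hC : 0 < C) (hCS : C ^ 2 = 1 + S ^ 2) (hA : 0 ≤ A) (hB : 0 ≤ B)
    (h1 : A ^ 2 + B ^ 2 = 2 * (t + S ^ 2)) (hr : A ≤ (C - S) ^ 4 * B) :
    A * B * q4 (S ^ 2) ≤ t + S ^ 2 := by
  obtain ⟨ha, ha1, hab⟩ := geo_ab hS hC hCS
  have hb : 0 < C + S := by linarith
  have h4 : (C - S) ^ 4 * (C + S) ^ 4 = 1 := by rw [← mul_pow, hab, one_pow]
  have hq := geo_q hCS
  set r := (C - S) ^ 4 with hrd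
  set r' := (C + S) ^ 4 with hrd'
  have hr0 : 0 < r := by positivity
  have hr1 : r ≤ 1 := by
    rw [hrd]
    exact pow_le_one₀ ha.le ha1.le
  have h5 : A ≤ B := hr.trans (by nlinarith)
  have h6 : 0 ≤ (r * B - A) * (B - r * A) := by
    apply mul_nonneg (by linarith)
    nlinarith
  -- divide by r
  have h7 : r' * ((r * B - A) * (B - r * A)) = A ^ 2 + B ^ 2 - A * B * (r + r') := by
    have : r' * ((r * B - A) * (B - r * A)) = (r * r') * B ^ 2 - (r * r') * r * A * B -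
      r' * A * B + (r * r') * A ^ 2 := by ring
    rw [this, h4]
    ring
  have h8 : 0 ≤ r' * ((r * B - A) * (B - r * A)) := mul_nonneg (by positivity) h6
  rw [h7, h1, hq] at h8
  linarith

theorem geo_X (hS : 0 < S) (hC : 0 < C) (hCS : C ^ 2 = 1 + S ^ 2) (hA : 0 ≤ A) (hB : 0 ≤ B)
    (h1 : A ^ 2 + B ^ 2 = 2 * (t + S ^ 2)) (h2 : B ^ 2 - A ^ 2 = 4 * S * X)
    (hr : A ≤ (C - S) ^ 4 * B) :
    2 * C * (1 + 2 * S ^ 2) * (t + S ^ 2) ≤ X * q4 (S ^ 2) := by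
  obtain ⟨ha, ha1, hab⟩ := geo_ab hS hC hCS
  have hb : 0 < C + S := by linarith
  have h4 : (C - S) ^ 4 * (C + S) ^ 4 = 1 := by rw [← mul_pow, hab, one_pow]
  have hq := geo_q hCS
  have hd : (C + S) ^ 4 - (C - S) ^ 4 = 8 * C * S * (1 + 2 * S ^ 2) := by
    have : (C + S) ^ 4 - (C - S) ^ 4 = 8 * C * S * (C ^ 2 + S ^ 2) := by ring
    rw [this, hCS]
    ring
  set r := (C - S) ^ 4 with hrd
  set r' := (C + S) ^ 4 with hrd'
  have hr0 : 0 < r := by positivity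
  have hr0' : 0 < r' := by positivity
  have h5 : A ^ 2 ≤ r ^ 2 * B ^ 2 := by
    rw [← mul_pow]
    exact pow_le_pow_left₀ hA hr 2
  have h6 : r' * A ^ 2 ≤ r * B ^ 2 := by
    have h7 : r' * A ^ 2 ≤ r' * (r ^ 2 * B ^ 2) := mul_le_mul_of_nonneg_left h5 hr0'.le
    have h8 : r' * (r ^ 2 * B ^ 2) = (r * r') * (r * B ^ 2) := by ring
    rw [h8, h4, one_mul] at h7
    exact h7
  -- (r' - r)(A²+B²) ≤ (r'+r)(B²-A²)
  have h9 : (r' - r) * (A ^ 2 + B ^ 2) ≤ (r + r') * (B ^ 2 - A ^ 2) := by nlinarith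
  rw [hd, h1, hq, h2] at h9
  have h10 : 8 * S * (2 * C * (1 + 2 * S ^ 2) * (t + S ^ 2)) ≤ 8 * S * (X * q4 (S ^ 2)) := by
    linarith
  exact le_of_mul_le_mul_left h10 (by positivity)

/-- `v ≤ 1/(4 (1+s))` -/
theorem geo_v2 (hS : 0 < S) (hC : 0 < C) (hCS : C ^ 2 = 1 + S ^ 2) (hA : 0 ≤ A) (hB : 0 ≤ B)
    (h1 : A ^ 2 + B ^ 2 = 2 * (t + S ^ 2)) (hr : A ≤ (C - S) ^ 4 * B)
    (h3 : t ≤ S ^ 2 + A * B) : A * B * (4 * (1 + S ^ 2)) ≤ 1 := by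
  have h4 := geo_v hS hC hCS hA hB h1 hr
  unfold q4 at h4
  have hs : 0 < S ^ 2 := by positivity
  have h5 : S ^ 2 * (2 * (A * B * (4 * (1 + S ^ 2)))) ≤ S ^ 2 * (2 * 1) := by nlinarith
  have h6 := le_of_mul_le_mul_left h5 hs
  linarith

theorem geo_A (hS : 0 < S) (hC : 0 < C) (hCS : C ^ 2 = 1 + S ^ 2) (hA : 0 ≤ A)
    (hr : A ≤ (C - S) ^ 4 * B) : A ^ 2 * (1 + 16 * S ^ 2 + 16 * S ^ 4) ≤ A * B := by
  obtain ⟨ha, ha1, hab⟩ := geo_ab hS hC hCS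
  have h4 : (C - S) ^ 4 * (C + S) ^ 4 = 1 := by rw [← mul_pow, hab, one_pow]
  have hq := geo_q hCS
  unfold q4 at hq
  set r := (C - S) ^ 4 with hrd
  set r' := (C + S) ^ 4 with hrd'
  have hr1 : r ≤ 1 := by
    rw [hrd]
    exact pow_le_one₀ ha.le ha1.le
  have hr0 : 0 < r := by positivity
  have hr0' : 0 < r' := by positivity
  have h5 : r' * A ≤ B := by
    have h7 : r' * A ≤ r' * (r * B) := mul_le_mul_of_nonneg_left hr hr0'.le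
    have h8 : r' * (r * B) = (r * r') * B := by ring
    rw [h8, h4, one_mul] at h7
    exact h7
  have h6 : 1 + 16 * S ^ 2 + 16 * S ^ 4 ≤ r' := by nlinarith
  calc A ^ 2 * (1 + 16 * S ^ 2 + 16 * S ^ 4) ≤ A ^ 2 * r' :=
        mul_le_mul_of_nonneg_left h6 (sq_nonneg A)
    _ = A * (r' * A) := by ring
    _ ≤ A * B := mul_le_mul_of_nonneg_left h5 hA

/-- `A ≤ (C-S)² √v`, squared -/
theorem geo_A2 (hA : 0 ≤ A) (hr : A ≤ (C - S) ^ 4 * B) :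
    A ^ 2 ≤ (C - S) ^ 4 * (A * B) := by
  calc A ^ 2 = A * A := by ring
    _ ≤ A * ((C - S) ^ 4 * B) := mul_le_mul_of_nonneg_left hr hA
    _ = _ := by ring

/-- lower bound of `Re ζ` against `C - 1`. -/
theorem geo_X1 (hS : 0 < S) (hC : 0 < C) (hCS : C ^ 2 = 1 + S ^ 2) (ht : 0 ≤ t)
    (hX : 2 * C * (1 + 2 * S ^ 2) * (t + S ^ 2) ≤ X * q4 (S ^ 2)) : C - 1 ≤ 2 * X := by
  have hC1 : 1 ≤ C := by nlinarith
  have hq : 0 < q4 (S ^ 2) := by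
    have := q4_pos (s := S ^ 2) (by positivity)
    linarith
  have h1 : S ^ 2 = (C - 1) * (C + 1) := by nlinarith
  have h2 : (C - 1) * q4 (S ^ 2) ≤ 4 * C * (1 + 2 * S ^ 2) * S ^ 2 := by
    have h3 : q4 (S ^ 2) ≤ 4 * C * (1 + 2 * S ^ 2) * (C + 1) := by
      unfold q4
      have h4 : C + 1 ≥ 1 := by linarith
      have h5 : 4 * C * (C + 1) = 4 * (1 + S ^ 2) + 4 * C := by nlinarith
      have h6 : 4 * C * (1 + 2 * S ^ 2) * (C + 1) = (4 * C * (C + 1)) * (1 + 2 * S ^ 2) := by ring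
      rw [h6, h5]
      nlinarith [sq_nonneg (S ^ 2), mul_nonneg (by linarith : (0:ℝ) ≤ C - 1) (sq_nonneg S)]
    calc (C - 1) * q4 (S ^ 2) ≤ (C - 1) * (4 * C * (1 + 2 * S ^ 2) * (C + 1)) :=
          mul_le_mul_of_nonneg_left h3 (by linarith)
      _ = 4 * C * (1 + 2 * S ^ 2) * ((C - 1) * (C + 1)) := by ring
      _ = _ := by rw [← h1]
  have h7 : (C - 1) * q4 (S ^ 2) ≤ 2 * X * q4 (S ^ 2) := by
    have h8 : 4 * C * (1 + 2 * S ^ 2) * S ^ 2 ≤ 2 * (2 * C * (1 + 2 * S ^ 2) * (t + S ^ 2)) := by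
      have : 0 ≤ 2 * (2 * C * (1 + 2 * S ^ 2) * t) := by positivity
      nlinarith
    linarith
  exact le_of_mul_le_mul_right h7 hq

end Pool.Agent.helper4.EQW
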