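import Pool.Agent.helper4.EQW.Corner
import Pool.Agent.helper4.EQW.BoxT

/-!
# EQW: the tail record of the W-scheme for `1 ≤ e ≤ 2`
-/

namespace Pool.Agent.helper4.EQW

open Complex
open Pool.Agent.helper31.EQ.W (c2 gl gs nxt wn FW)

noncomputable section

/-- the contraction constant -/
def thT (κ : ℝ) : ℝ :=
  max (99 / 100) (1 - Real.sinh κ ^ 2 / (1 + 2 * Real.sinh κ ^ 2) ^ 2)

end

variable {e κ : ℝ} {P : ℂ} {s U v A B x o p δ η : ℝ}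

theorem thT_nonneg (κ : ℝ) : 0 ≤ thT κ := le_max_of_le_left (by norm_num)

theorem thT_lt (hκ : 0 < κ) : thT κ < 1 := by
  unfold thT
  refine max_lt (by norm_num) ?_
  have hS : 0 < Real.sinh κ := Real.sinh_pos_iff.2 hκ
  have : 0 < Real.sinh κ ^ 2 / (1 + 2 * Real.sinh κ ^ 2) ^ 2 := by positivity
  linarith

theorem Goal.mono {θ θ' K a S W : ℝ} (h : Goal θ s v A x o p K a δ η S W) (hθ : θ ≤ θ') :
    Goal θ' s v A x o p K a δ η S W := by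
  obtain ⟨h1, h2, h3, h4, h5, h6⟩ := h
  exact ⟨h1, h2, h3, h4, h5, h6.trans hθ⟩

theorem goal_all (he : 1 ≤ e) (he2 : e ≤ 2) (hκ : 0 < κ) (F : Facts κ P s U v A B x o p)
    (X : Aux e κ s U v A B x o p (KK e κ) (Real.exp (-κ)) δ η) :
    Goal (thT κ) s v A x o p (KK e κ) (Real.exp (-κ)) δ η (Real.sinh κ)
      (‖2 * (Real.cosh κ : ℂ) - P‖ - δ) := by
  have h99 : (99 / 100 : ℝ) ≤ thT κ := le_max_left _ _
  obtain ⟨m1, m2, m3⟩ := more_facts F X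
  have hsp := F.s_pos
  rcases le_total 5 s with h5 | h5
  · exact (goal_large h5 he he2 hκ F X).mono h99
  refine tree_sound (s := s) (U := U) (v := v) tree 0 5 0 (1 / 4) tree_ok le_rfl le_rfl
    (by push_cast; exact hsp.le) (by push_cast; exact h5) (by push_cast; exact X.U_nn)
    (by push_cast; exact m3) m1 X.v_nn m2 F.v_lt F.v_le ?_ ?_
  · intro hs hU
    refine (goal_corner hs hU he he2 hκ F X).mono ?_
    refine le_trans ?_ (le_max_right _ _)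
    rw [← F.s_def]
    have : s / (1 + 2 * s) ^ 2 ≤ U := by
      rw [div_le_iff₀ (by positivity)]
      exact m1
    linarith
  · intro l a b c d hl ha hc has hsb hcU hUd
    exact (leaf_sound hl ha hc has hsb hcU hUd he he2 hκ F X).mono h99

/-- `1/W` etc. -/
theorem OT.P_mem {Y : ℂ} (hY : Y ∈ OT κ) : nx κ Y ∈ LT κ := hY.2.1

theorem OT.P_ne {Y : ℂ} (hY : Y ∈ OT κ) : nx κ Y ≠ ((Real.exp (-κ) : ℝ) : ℂ) := by
  intro h
  obtain ⟨-, n2, -⟩ := nx_formulas hY.1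
  rw [h, sub_self, norm_zero] at n2
  have h1 : 0 < ‖Y - ((Real.exp (-κ) : ℝ) : ℂ)‖ := norm_pos_iff.2 (sub_ne_zero.2 hY.2.2)
  have h2 : 0 < ‖2 * (Real.cosh κ : ℂ) - Y‖ := norm_pos_iff.2 hY.1
  have h3 := Real.exp_pos (-κ)
  have : 0 < Real.exp (-κ) * ‖Y - ((Real.exp (-κ) : ℝ) : ℂ)‖ / ‖2 * (Real.cosh κ : ℂ) - Y‖ := by
    positivity
  linarith

theorem nxt_eq {Y d : ℂ} : nxt κ Y d = nx κ Y + d * (1 - nx κ Y) := by
  unfold nxt nx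
  ring

theorem G1_ne_of_mem (he : 1 ≤ e) (he2 : e ≤ 2) (hκ : 0 < κ) (hP : P ∈ LT κ) : G1 e κ P ≠ 0 := by
  have := one_le_G1 he he2 hκ hP
  intro h
  rw [h, norm_zero] at this
  norm_num at this

theorem norm_rT (he : 1 ≤ e) (Y : ℂ) :
    ‖rT e κ Y‖ = KK e κ * ‖gK κ (nx κ Y)‖ / ‖G1 e κ (nx κ Y)‖ := by
  unfold rT
  have := KK_pos (κ := κ) (show (0 : ℝ) < e by linarith)
  rw [norm_div, norm_mul, Complex.norm_real, Real.norm_of_nonneg this.le]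

theorem d_bound (he : 1 ≤ e) (he2 : e ≤ 2) (hκ : 0 < κ) {Y x : ℂ} (hY : Y ∈ OT κ) (hx : ‖x‖ ≤ 1) :
    ‖rT e κ Y * x‖ * ‖G1 e κ (nx κ Y)‖ ≤ KK e κ * ‖gK κ (nx κ Y)‖ := by
  have hG : 0 < ‖G1 e κ (nx κ Y)‖ := norm_pos_iff.2 (G1_ne_of_mem he he2 hκ hY.2.1)
  rw [norm_mul, norm_rT he]
  have := KK_pos (κ := κ) (show (0 : ℝ) < e by linarith)
  calc KK e κ * ‖gK κ (nx κ Y)‖ / ‖G1 e κ (nx κ Y)‖ * ‖x‖ * ‖G1 e κ (nx κ Y)‖ =
        KK e κ * ‖gK κ (nx κ Y)‖ * ‖x‖ := by field_simp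
    _ ≤ KK e κ * ‖gK κ (nx κ Y)‖ * 1 := mul_le_mul_of_nonneg_left hx (by positivity)
    _ = _ := mul_one _

theorem inv_OT (he : 1 ≤ e) (he2 : e ≤ 2) (hκ : 0 < κ) {Y x : ℂ} (hY : Y ∈ OT κ) (hx : ‖x‖ ≤ 1) :
    nxt κ Y (rT e κ Y * x) ∈ OT κ := by
  rw [nxt_eq]
  exact step_mem he he2 hκ hY.2.1 (OT.P_ne hY) (d_bound he he2 hκ hY hx)

theorem den_ne_OT {Y : ℂ} (hY : Y ∈ OT κ) : 2 * (Real.cosh κ : ℂ) - Y ≠ 0 := hY.1

theorem norm_d_le (he : 1 ≤ e) (he2 : e ≤ 2) (hκ : 0 < κ) {Y x : ℂ} (hY : Y ∈ OT κ)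
    (hx : ‖x‖ ≤ 1) : ‖rT e κ Y * x‖ ≤ 9 / 100 :=
  (wn_facts he he2 hκ hY (d_bound he he2 hκ hY hx)).2.2.2.1

theorem one_sub_ne_OT (he : 1 ≤ e) (he2 : e ≤ 2) (hκ : 0 < κ) {Y x : ℂ} (hY : Y ∈ OT κ)
    (hx : ‖x‖ ≤ 1) : 1 - rT e κ Y * x ≠ 0 := by
  have h := norm_d_le he he2 hκ hY hx
  intro h1
  have h2 : rT e κ Y * x = 1 := by linear_combination -h1
  rw [h2, norm_one] at h
  norm_num at h

theorem w_slit_OT (he : 1 ≤ e) (he2 : e ≤ 2) (hκ : 0 < κ) {Y x : ℂ} (hY : Y ∈ OT κ)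
    (hx : ‖x‖ ≤ 1) : wn κ Y (rT e κ Y * x) ∈ slitPlane := by
  obtain ⟨-, h1, -, -, h2⟩ := wn_facts he he2 hκ hY (d_bound he he2 hκ hY hx)
  rw [h2]
  exact inv_slit h1

theorem w_norm_OT (he : 1 ≤ e) (he2 : e ≤ 2) (hκ : 0 < κ) {Y x : ℂ} (hY : Y ∈ OT κ)
    (hx : ‖x‖ ≤ 1) : 1 < ‖wn κ Y (rT e κ Y * x)‖ := by
  obtain ⟨-, h1, h3, -, h2⟩ := wn_facts he he2 hκ hY (d_bound he he2 hκ hY hx)
  rw [h2, norm_inv]
  exact (one_lt_inv₀ (norm_pos_iff.2 (slitPlane_ne_zero h1))).2 h3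

theorem rT_ne (he : 1 ≤ e) (he2 : e ≤ 2) (hκ : 0 < κ) {Y : ℂ} (hY : Y ∈ OT κ) :
    rT e κ Y ≠ 0 := by
  have hG := G1_ne_of_mem he he2 hκ hY.2.1
  have hK := KK_pos (κ := κ) (show (0 : ℝ) < e by linarith)
  unfold rT
  refine div_ne_zero (mul_ne_zero (by exact_mod_cast hK.ne') ?_) hG
  intro h
  have h1 := norm_gK κ (nx κ Y)
  rw [h, norm_zero] at h1
  have hPa := OT.P_ne hY
  have h2 : ‖nx κ Y - ((Real.exp (-κ) : ℝ) : ℂ)‖ ≠ 0 := norm_ne_zero_iff.2 (sub_ne_zero.2 hPa)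
  have h3 : ‖v2 κ (nx κ Y)‖ = 0 := by
    rcases mul_eq_zero.1 h1.symm with h4 | h4
    · exact h4
    · exact absurd h4 h2
  rw [norm_eq_zero, v2_eq] at h3
  rcases mul_eq_zero.1 h3 with h4 | h4
  · exact hPa (sub_eq_zero.1 h4)
  · -- P = e^κ is impossible
    have h5 := hY.2.1.1
    rw [h4, norm_zero, mul_zero] at h5
    exact absurd h5 (not_lt.2 (norm_nonneg _))

/-- The point where the preconditioner is evaluated. -/
theorem back_eq (he : 1 ≤ e) (he2 : e ≤ 2) (hκ : 0 < κ) {Y x : ℂ} (hY : Y ∈ OT κ)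
    (hx : ‖x‖ ≤ 1) :
    (nxt κ Y (rT e κ Y * x) - rT e κ Y * x) / (1 - rT e κ Y * x) = nx κ Y := by
  have h := one_sub_ne_OT he he2 hκ hY hx
  rw [nxt_eq, div_eq_iff h]
  ring

theorem MT_eq (he : 1 ≤ e) (he2 : e ≤ 2) (hκ : 0 < κ) {Y x : ℂ} (hY : Y ∈ OT κ)
    (hx : ‖x‖ ≤ 1) (d' : ℂ) :
    MT e κ (nxt κ Y (rT e κ Y * x)) (rT e κ Y * x) d' = 1 / G1 e κ (nx κ Y) := by
  unfold MT
  rw [back_eq he he2 hκ hY hx]

theorem MT_ne (he : 1 ≤ e) (he2 : e ≤ 2) (hκ : 0 < κ) {Y x : ℂ} (hY : Y ∈ OT κ)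
    (hx : ‖x‖ ≤ 1) (d' : ℂ) :
    MT e κ (nxt κ Y (rT e κ Y * x)) (rT e κ Y * x) d' ≠ 0 := by
  rw [MT_eq he he2 hκ hY hx]
  exact one_div_ne_zero (G1_ne_of_mem he he2 hκ hY.2.1)

theorem G1_differentiableAt (he : 1 ≤ e) (he2 : e ≤ 2) (hκ : 0 < κ) (hP : P ∈ LT κ) :
    DifferentiableAt ℂ (G1 e κ) P :=
  (G1_deriv (by linarith) he2 (Real.exp_pos _) (disc_of_mem he he2 hκ hP).1).differentiableAt

theorem rT_diff (he : 1 ≤ e) (he2 : e ≤ 2) (hκ : 0 < κ) {Y : ℂ} (hY : Y ∈ OT κ) :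
    DifferentiableAt ℂ (rT e κ) Y := by
  have h1 : DifferentiableAt ℂ (nx κ) Y :=
    (differentiableAt_const (1 : ℂ)).div ((differentiableAt_const _).sub differentiableAt_id) hY.1
  have h2 : DifferentiableAt ℂ (gK κ) (nx κ Y) := by
    unfold gK v2
    fun_prop
  have h3 : DifferentiableAt ℂ (fun Y => gK κ (nx κ Y)) Y := DifferentiableAt.comp Y h2 h1
  have h4 : DifferentiableAt ℂ (fun Y => G1 e κ (nx κ Y)) Y :=
    DifferentiableAt.comp Y (G1_differentiableAt he he2 hκ hY.2.1) h1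
  exact (h3.const_mul _).div h4 (G1_ne_of_mem he he2 hκ hY.2.1)

theorem MT_diff (he : 1 ≤ e) (he2 : e ≤ 2) (hκ : 0 < κ) {Y x : ℂ} (hY : Y ∈ OT κ)
    (hx : ‖x‖ ≤ 1) (d' : ℂ) :
    DifferentiableAt ℂ (fun q : ℂ × ℂ × ℂ => MT e κ q.1 q.2.1 q.2.2)
      (nxt κ Y (rT e κ Y * x), rT e κ Y * x, d') := by
  have hb := back_eq he he2 hκ hY hx
  have hne := one_sub_ne_OT he he2 hκ hY hx
  set Y' := nxt κ Y (rT e κ Y * x) with hY'
  set d := rT e κ Y * x with hd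
  set q0 : ℂ × ℂ × ℂ := (Y', d, d') with hq0
  have i1 : DifferentiableAt ℂ (fun q : ℂ × ℂ × ℂ => (1 - q.2.1)⁻¹) q0 := by
    have h5 : DifferentiableAt ℂ (fun z : ℂ => z⁻¹) ((fun q : ℂ × ℂ × ℂ => 1 - q.2.1) q0) :=
      differentiableAt_inv hne
    exact DifferentiableAt.comp (f := fun q : ℂ × ℂ × ℂ => 1 - q.2.1) q0 h5 (by fun_prop)
  have i2 : DifferentiableAt ℂ (fun q : ℂ × ℂ × ℂ => q.1 - q.2.1) q0 := by fun_prop
  have h1 : DifferentiableAt ℂ (fun q : ℂ × ℂ × ℂ => (q.1 - q.2.1) / (1 - q.2.1)) q0 := by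
    simp only [div_eq_mul_inv]
    exact i2.mul i1
  have h2 : DifferentiableAt ℂ (G1 e κ)
      ((fun q : ℂ × ℂ × ℂ => (q.1 - q.2.1) / (1 - q.2.1)) q0) := by
    show DifferentiableAt ℂ (G1 e κ) ((Y' - d) / (1 - d))
    rw [hb]
    exact G1_differentiableAt he he2 hκ hY.2.1
  have h3 : DifferentiableAt ℂ (fun q : ℂ × ℂ × ℂ => G1 e κ ((q.1 - q.2.1) / (1 - q.2.1)))
      q0 := DifferentiableAt.comp (f := fun q : ℂ × ℂ × ℂ => (q.1 - q.2.1) / (1 - q.2.1)) q0 h2 h1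
  have h4 : DifferentiableAt ℂ (fun z : ℂ => z⁻¹)
      ((fun q : ℂ × ℂ × ℂ => G1 e κ ((q.1 - q.2.1) / (1 - q.2.1))) q0) := by
    apply differentiableAt_inv
    show G1 e κ ((Y' - d) / (1 - d)) ≠ 0
    rw [hb]
    exact G1_ne_of_mem he he2 hκ hY.2.1
  have h5 : DifferentiableAt ℂ (fun q : ℂ × ℂ × ℂ => (G1 e κ ((q.1 - q.2.1) / (1 - q.2.1)))⁻¹)
      q0 := DifferentiableAt.comp
        (f := fun q : ℂ × ℂ × ℂ => G1 e κ ((q.1 - q.2.1) / (1 - q.2.1))) q0 h4 h3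
  unfold MT
  simp only [one_div]
  exact h5

theorem close_OT (he : 1 ≤ e) (he2 : e ≤ 2) (hκ : 0 < κ) {Y x x' : ℂ} (hY : Y ∈ OT κ)
    (hx : ‖x‖ ≤ 1) (hx' : ‖x'‖ ≤ 1) :
    ‖rT e κ Y * x - MT e κ (nxt κ Y (rT e κ Y * x)) (rT e κ Y * x)
        (rT e κ (nxt κ Y (rT e κ Y * x)) * x') *
      FW e κ (nxt κ Y (rT e κ Y * x)) (rT e κ Y * x)
        (rT e κ (nxt κ Y (rT e κ Y * x)) * x')‖ ≤ thT κ * ‖rT e κ Y‖ := by
  rw [MT_eq he he2 hκ hY hx]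
  have hY' := inv_OT he he2 hκ hY hx
  have hd := d_bound he he2 hκ hY hx
  have hd' := d_bound he he2 hκ hY' hx'
  set d := rT e κ Y * x with hdd
  set Y' := nxt κ Y d with hYd
  set d' := rT e κ Y' * x' with hdd'
  set P := nx κ Y with hPd
  have hYP : Y' = P + d * (1 - P) := nxt_eq
  have F := facts_of_mem hκ hY.2.1
  have X := aux_of he he2 hκ F
  have g := goal_all he he2 hκ F X
  obtain ⟨g1, g2, g3, g4, g5, g6⟩ := g
  have hW := W_ge F X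
  rw [hYP] at hd'
  have hc := close_main he he2 hκ hY.2.1 (OT.P_ne hY) F rfl rfl rfl X (by linarith [hW.2]) le_rfl rfl rfl
    hd hd' g1 g2 g3 g4 g5
  rw [← hYP] at hc
  have hG0 : G1 e κ P ≠ 0 := G1_ne_of_mem he he2 hκ hY.2.1
  have hGn : 0 < ‖G1 e κ P‖ := norm_pos_iff.2 hG0
  have e1 : d - 1 / G1 e κ P * FW e κ Y' d d' = (d * G1 e κ P - FW e κ Y' d d') / G1 e κ P := by
    field_simp
  rw [e1, norm_div, div_le_iff₀ hGn, norm_rT he, norm_gK]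
  refine hc.trans ?_
  have e2 : thT κ * (KK e κ * (‖v2 κ P‖ * ‖P - ((Real.exp (-κ) : ℝ) : ℂ)‖) / ‖G1 e κ P‖) *
      ‖G1 e κ P‖ = KK e κ * ‖v2 κ P‖ * ‖P - ((Real.exp (-κ) : ℝ) : ℂ)‖ * thT κ := by
    field_simp
  rw [e2]
  have hK := KK_pos (κ := κ) (show (0 : ℝ) < e by linarith)
  exact mul_le_mul_of_nonneg_left g6 (by positivity)

/-- real values of `Γ'` -/
theorem G1_real {z : ℝ} (hz : 0 ≤ z) : G1 e κ (z : ℂ) =
    ((c2 e κ * z * ((1 + z ^ e) / 2) ^ (-(1 + 2 / e)) : ℝ) : ℂ) := by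
  unfold G1 f0
  have h1 : (0 : ℝ) ≤ (1 + z ^ e) / 2 := by
    have := Real.rpow_nonneg hz e
    positivity
  have h2 : ((1 + (z : ℂ) ^ (e : ℂ)) / 2) = (((1 + z ^ e) / 2 : ℝ) : ℂ) := by
    rw [← Complex.ofReal_cpow hz]
    push_cast
    rfl
  have h3 : (-((1 + 2 / e : ℝ) : ℂ)) = ((-(1 + 2 / e) : ℝ) : ℂ) := by push_cast; rfl
  rw [h2, h3, ← Complex.ofReal_cpow h1]
  push_cast
  rfl

theorem nx_real (κ Y : ℝ) : nx κ (Y : ℂ) = ((1 / (2 * Real.cosh κ - Y) : ℝ) : ℂ) := by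
  unfold nx
  push_cast
  rfl

theorem nx_real_pos (he : 1 ≤ e) (he2 : e ≤ 2) (hκ : 0 < κ) {Y : ℝ} (hY : (Y : ℂ) ∈ OT κ) :
    0 < 1 / (2 * Real.cosh κ - Y) := by
  have h := (disc_re (disc_of_mem he he2 hκ hY.2.1).1).1
  rw [nx_real, Complex.ofReal_re] at h
  have := Real.exp_pos (-κ)
  linarith

theorem rT_real (he : 1 ≤ e) (he2 : e ≤ 2) (hκ : 0 < κ) {Y : ℝ} (hY : (Y : ℂ) ∈ OT κ) :
    (rT e κ Y).im = 0 := by
  have hp := nx_real_pos he he2 hκ hY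
  have h : rT e κ Y = ((KK e κ * ((1 - 2 * Real.cosh κ * (1 / (2 * Real.cosh κ - Y)) +
      (1 / (2 * Real.cosh κ - Y)) ^ 2) * (Real.cosh κ - 1 / (2 * Real.cosh κ - Y) -
      Real.sinh κ)) / (c2 e κ * (1 / (2 * Real.cosh κ - Y)) *
      ((1 + (1 / (2 * Real.cosh κ - Y)) ^ e) / 2) ^ (-(1 + 2 / e))) : ℝ) : ℂ) := by
    unfold rT
    rw [nx_real, G1_real hp.le]
    unfold gK v2
    push_cast
    rfl
  rw [h, Complex.ofReal_im]

theorem MT_real (he : 1 ≤ e) (he2 : e ≤ 2) (hκ : 0 < κ) {Y : ℝ} (hY : (Y : ℂ) ∈ OT κ) {x : ℂ}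
    (hx : ‖x‖ ≤ 1) (d' : ℂ) :
    (MT e κ (nxt κ Y (rT e κ Y * x)) (rT e κ Y * x) d').im = 0 := by
  rw [MT_eq he he2 hκ hY hx, nx_real, G1_real (nx_real_pos he he2 hκ hY).le, one_div,
    ← Complex.ofReal_inv, Complex.ofReal_im]

/-- `K v o ≤ 3/2 U` or `s ≥ 1/2`. -/
theorem contr_real (he : 1 ≤ e) (he2 : e ≤ 2) (hκ : 0 < κ) (F : Facts κ P s U v A B x o p)
    (X : Aux e κ s U v A B x o p (KK e κ) (Real.exp (-κ)) δ η) :
    Real.exp (-κ) * p * (1 + KK e κ * v * o) ≤ max (Real.exp (-κ)) (9 / 10) := by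
  have hv0 := X.v_nn
  have ho0 := X.o_nn
  have ho1 := F.o_le_1
  have hp0 := X.p_pos
  have hp1 := X.p_le
  have hU0 := X.U_nn
  have ha0 := X.a_pos
  have hK0 := X.K_pos
  have hs := F.s_pos
  have hvU := F.v_le_U
  have hS : 0 < Real.sinh κ := Real.sinh_pos_iff.2 hκ
  have hSs : Real.sinh κ ^ 2 = s := F.s_def.symm
  have hKl := KK_le he he2 hκ
  rw [hSs] at hKl
  rcases le_total (KK e κ) (3 / 2) with h | h
  · refine le_trans ?_ (le_max_left _ _)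
    have h1 : KK e κ * v * o ≤ 3 / 2 * U := by
      calc KK e κ * v * o ≤ KK e κ * v := mul_le_of_le_one_right (by positivity) ho1
        _ ≤ 3 / 2 * U := mul_le_mul h hvU hv0 (by norm_num)
    have hpsq := F.p_sq
    have h2 : p * (1 + 3 / 2 * U) ≤ 1 := by
      have h3 : (p * (1 + 3 / 2 * U)) ^ 2 ≤ 1 ^ 2 := by
        have h4 : (p * (1 + 3 / 2 * U)) ^ 2 = p ^ 2 * (1 + 3 / 2 * U) ^ 2 := by ring
        rw [h4]
        have h5 : p ^ 2 ≤ 1 - 3 * U := by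
          have : 0 ≤ 4 * s * U := by positivity
          linarith
        have h6 : 0 ≤ (1 + 3 / 2 * U) ^ 2 := by positivity
        calc p ^ 2 * (1 + 3 / 2 * U) ^ 2 ≤ (1 - 3 * U) * (1 + 3 / 2 * U) ^ 2 :=
              mul_le_mul_of_nonneg_right h5 h6
          _ ≤ 1 ^ 2 := by
              have : (1 - 3 * U) * (1 + 3 / 2 * U) ^ 2 = 1 - 27 / 4 * U ^ 2 - 27 / 4 * U ^ 3 := by
                ring
              rw [this]
              have : 0 ≤ U ^ 2 := by positivity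
              have : 0 ≤ U ^ 3 := by positivity
              linarith
      exact le_of_sq_le_sq h3 zero_le_one
    calc Real.exp (-κ) * p * (1 + KK e κ * v * o) ≤ Real.exp (-κ) * p * (1 + 3 / 2 * U) :=
          mul_le_mul_of_nonneg_left (by linarith) (by positivity)
      _ = Real.exp (-κ) * (p * (1 + 3 / 2 * U)) := by ring
      _ ≤ Real.exp (-κ) * 1 := mul_le_mul_of_nonneg_left h2 ha0.le
      _ = Real.exp (-κ) := mul_one _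
  · refine le_trans ?_ (le_max_right _ _)
    have hs2 : 1 / 2 ≤ s := by
      by_contra hc
      push Not at hc
      have h1 : 3 * s / (1 + s) < 1 := by
        rw [div_lt_one (by linarith)]
        linarith
      linarith
    have hS7 : 7 / 10 ≤ Real.sinh κ := by
      by_contra hc
      push Not at hc
      have : Real.sinh κ ^ 2 < (7 / 10) ^ 2 := pow_lt_pow_left₀ hc hS.le (by norm_num)
      linarith
    have haS : Real.exp (-κ) * (Real.exp (-κ) + 2 * Real.sinh κ) = 1 := by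
      rw [exp_neg_eq]
      linarith only [Real.cosh_sq κ]
    have ha : Real.exp (-κ) ≤ 525 / 1000 := by
      by_contra hc
      push Not at hc
      nlinarith
    have hK : KK e κ ≤ 7 / 2 := by
      have h6 : 3 * s / (1 + s) ≤ 3 := by
        rw [div_le_iff₀ (by positivity)]
        linarith
      linarith
    have h1 : KK e κ * v * o ≤ 7 / 10 := by
      calc KK e κ * v * o ≤ KK e κ * v := mul_le_of_le_one_right (by positivity) ho1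
        _ ≤ 7 / 2 * (1 / 5) := mul_le_mul hK F.v_lt.le hv0 (by norm_num)
        _ = 7 / 10 := by norm_num
    have h2 : Real.exp (-κ) * p ≤ 525 / 1000 := by
      calc Real.exp (-κ) * p ≤ Real.exp (-κ) * 1 := mul_le_mul_of_nonneg_left hp1 ha0.le
        _ ≤ 525 / 1000 := by linarith
    calc Real.exp (-κ) * p * (1 + KK e κ * v * o) ≤ 525 / 1000 * (17 / 10) := by
          apply mul_le_mul h2 (by linarith) (by positivity) (by norm_num)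
      _ ≤ 9 / 10 := by norm_num

theorem norm_nx {Y : ℂ} : ‖nx κ Y‖ = 1 / ‖2 * (Real.cosh κ : ℂ) - Y‖ := by
  unfold nx
  rw [norm_div, norm_one]

theorem contr_OT (he : 1 ≤ e) (he2 : e ≤ 2) (hκ : 0 < κ) {Y x : ℂ} (hY : Y ∈ OT κ)
    (hx : ‖x‖ ≤ 1) :
    ‖nxt κ Y (rT e κ Y * x) - ((Real.exp (-κ) : ℝ) : ℂ)‖ ≤
      max (Real.exp (-κ)) (9 / 10) * ‖Y - ((Real.exp (-κ) : ℝ) : ℂ)‖ := by
  have hd := d_bound he he2 hκ hY hx
  have F := facts_of_mem hκ hY.2.1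
  have X := aux_of he he2 hκ F
  have hdl := d_le he he2 hκ hY.2.1 F hd
  have Q := pos_of F X rfl hdl
  have hc := contr_real he he2 hκ F X
  obtain ⟨-, n2, -⟩ := nx_formulas hY.1
  rw [nxt_eq]
  refine Q.Ya.trans ?_
  set Pn := nx κ Y with hPn
  have e1 : ‖Pn - ((Real.exp (-κ) : ℝ) : ℂ)‖ =
      Real.exp (-κ) * ‖Pn‖ * ‖Y - ((Real.exp (-κ) : ℝ) : ℂ)‖ := by
    rw [n2, hPn, norm_nx]
    ring
  have e2 : ‖Pn - ((Real.exp (-κ) : ℝ) : ℂ)‖ +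
      KK e κ * ‖v2 κ Pn‖ * ‖Pn - ((Real.exp (-κ) : ℝ) : ℂ)‖ * ‖1 - Pn‖ =
      (Real.exp (-κ) * ‖Pn‖ * (1 + KK e κ * ‖v2 κ Pn‖ * ‖1 - Pn‖)) *
        ‖Y - ((Real.exp (-κ) : ℝ) : ℂ)‖ := by
    rw [e1]
    ring
  rw [e2]
  exact mul_le_mul_of_nonneg_right hc (norm_nonneg _)

theorem rT_le (he : 1 ≤ e) (he2 : e ≤ 2) (hκ : 0 < κ) {Y : ℂ} (hY : Y ∈ OT κ) :
    ‖rT e κ Y‖ ≤ ‖Y - ((Real.exp (-κ) : ℝ) : ℂ)‖ := by
  have hd := d_bound he he2 hκ hY (x := 1) (by rw [norm_one])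
  rw [mul_one] at hd
  have F := facts_of_mem hκ hY.2.1
  have X := aux_of he he2 hκ F
  have hdl := d_le he he2 hκ hY.2.1 F hd
  refine hdl.trans ?_
  obtain ⟨-, n2, -⟩ := nx_formulas hY.1
  have e1 : ‖nx κ Y - ((Real.exp (-κ) : ℝ) : ℂ)‖ =
      Real.exp (-κ) * ‖nx κ Y‖ * ‖Y - ((Real.exp (-κ) : ℝ) : ℂ)‖ := by
    rw [n2, norm_nx]
    ring
  have h1 : KK e κ * ‖v2 κ (nx κ Y)‖ ≤ 1 := by
    have hKl := KK_le he he2 hκ
    have h6 : 3 * Real.sinh κ ^ 2 / (1 + Real.sinh κ ^ 2) ≤ 3 := by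
      rw [div_le_iff₀ (by positivity)]
      nlinarith [sq_nonneg (Real.sinh κ)]
    have hK : KK e κ ≤ 7 / 2 := by linarith
    calc KK e κ * ‖v2 κ (nx κ Y)‖ ≤ 7 / 2 * (1 / 5) :=
          mul_le_mul hK F.v_lt.le (norm_nonneg _) (by norm_num)
      _ ≤ 1 := by norm_num
  have h2 : Real.exp (-κ) * ‖nx κ Y‖ ≤ 1 := by
    have := X.a_lt
    have := X.p_le
    have := X.a_pos
    calc Real.exp (-κ) * ‖nx κ Y‖ ≤ 1 * 1 := mul_le_mul (by linarith) X.p_le (norm_nonneg _) zero_le_one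
      _ = 1 := one_mul 1
  rw [e1]
  calc KK e κ * ‖v2 κ (nx κ Y)‖ * (Real.exp (-κ) * ‖nx κ Y‖ * ‖Y - ((Real.exp (-κ) : ℝ) : ℂ)‖) =
        (KK e κ * ‖v2 κ (nx κ Y)‖) * (Real.exp (-κ) * ‖nx κ Y‖) *
          ‖Y - ((Real.exp (-κ) : ℝ) : ℂ)‖ := by ring
    _ ≤ 1 * ‖Y - ((Real.exp (-κ) : ℝ) : ℂ)‖ := by
        apply mul_le_mul_of_nonneg_right _ (norm_nonneg _)
        have : 0 ≤ KK e κ * ‖v2 κ (nx κ Y)‖ := mul_nonneg X.K_pos.le (norm_nonneg _)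
        nlinarith [mul_nonneg X.a_pos.le (norm_nonneg (nx κ Y))]
    _ = _ := one_mul _

end Pool.Agent.helper4.EQW
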