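import Pool.Agent.helper4.EQW.Low

/-!
# EQW: one step of the orbit in the tail region
-/

namespace Pool.Agent.helper4.EQW

open Complex
open Pool.Agent.helper31.EQ.W (c2 gl gs nxt wn FW)

noncomputable section

/-- `g(P) = v2(P) (ζ - S)` -/
def gK (κ : ℝ) (P : ℂ) : ℂ := v2 κ P * ((Real.cosh κ : ℂ) - P - (Real.sinh κ : ℂ))

/-- ideal next position -/
def nx (κ : ℝ) (Y : ℂ) : ℂ := 1 / (2 * (Real.cosh κ : ℂ) - Y)

/-- radius -/
def rT (e κ : ℝ) (Y : ℂ) : ℂ := (KK e κ : ℂ) * gK κ (nx κ Y) / G1 e κ (nx κ Y)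

/-- preconditioner -/
def MT (e κ : ℝ) (Y d _d' : ℂ) : ℂ := 1 / G1 e κ ((Y - d) / (1 - d))

/-- positions -/
def OT (κ : ℝ) : Set ℂ :=
  {Y | 2 * (Real.cosh κ : ℂ) - Y ≠ 0 ∧ nx κ Y ∈ LT κ ∧ Y ≠ ((Real.exp (-κ) : ℝ) : ℂ)}

end

variable {e κ : ℝ}

theorem norm_gK (κ : ℝ) (P : ℂ) : ‖gK κ P‖ = ‖v2 κ P‖ * ‖P - ((Real.exp (-κ) : ℝ) : ℂ)‖ := by
  unfold gK
  rw [norm_mul]
  congr 1
  rw [← norm_neg, exp_neg_eq]
  congr 1
  push_cast
  ring

theorem KKa2 (he : 1 ≤ e) (he2 : e ≤ 2) (hκ : 0 < κ) : KK e κ * Real.exp (-κ) ^ 2 ≤ 1 := by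
  have h1 := KK_le he he2 hκ
  have hS : 0 < Real.sinh κ := Real.sinh_pos_iff.2 hκ
  have hC : Real.sinh κ < Real.cosh κ := Real.sinh_lt_cosh κ
  have hab : Real.exp (-κ) * Real.exp κ = 1 := by rw [← Real.exp_add]; simp
  have hb : Real.exp κ ^ 2 = 1 + 2 * Real.sinh κ ^ 2 + 2 * Real.sinh κ * Real.cosh κ := by
    rw [exp_eq]
    have := Real.cosh_sq κ
    nlinarith
  have h2 : Real.exp (-κ) ^ 2 * Real.exp κ ^ 2 = 1 := by rw [← mul_pow, hab, one_pow]
  have hs : 0 < Real.sinh κ ^ 2 := by positivity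
  have h3 : KK e κ ≤ Real.exp κ ^ 2 := by
    rw [hb]
    have h4 : 3 * Real.sinh κ ^ 2 / (1 + Real.sinh κ ^ 2) ≤ 3 * Real.sinh κ ^ 2 :=
      div_le_self (by positivity) (by linarith)
    nlinarith
  have h5 : 0 < Real.exp (-κ) ^ 2 := by positivity
  nlinarith

theorem KKa (he : 1 ≤ e) (he2 : e ≤ 2) (hκ : 0 < κ) {v : ℝ} (hv : v ≤ 1 / 5) :
    (1 + KK e κ * v) * Real.exp (-κ) ≤ 10 / 9 := by
  have h1 := KK_le he he2 hκ
  have hS : 0 < Real.sinh κ := Real.sinh_pos_iff.2 hκ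
  have hC := Real.one_le_cosh κ
  have hab : Real.exp (-κ) * Real.exp κ = 1 := by rw [← Real.exp_add]; simp
  have hb := exp_eq κ
  have ha : 0 < Real.exp (-κ) := Real.exp_pos _
  have hK := KK_pos (κ := κ) (show (0 : ℝ) < e by linarith)
  have h2 : Real.sinh κ ^ 2 / (1 + Real.sinh κ ^ 2) ≤ Real.sinh κ := by
    rw [div_le_iff₀ (by positivity)]
    nlinarith [sq_nonneg (Real.sinh κ - 1), mul_pos hS hS]
  have h3 : KK e κ * v ≤ KK e κ * (1 / 5) := mul_le_mul_of_nonneg_left hv hK.le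
  have h4 : 3 * Real.sinh κ ^ 2 / (1 + Real.sinh κ ^ 2) =
      3 * (Real.sinh κ ^ 2 / (1 + Real.sinh κ ^ 2)) := by ring
  rw [h4] at h1
  have h5 : 1 + KK e κ * v ≤ 10 / 9 * Real.exp κ := by
    rw [hb]
    linarith
  calc (1 + KK e κ * v) * Real.exp (-κ) ≤ 10 / 9 * Real.exp κ * Real.exp (-κ) :=
        mul_le_mul_of_nonneg_right h5 ha.le
    _ = 10 / 9 * (Real.exp (-κ) * Real.exp κ) := by ring
    _ = 10 / 9 := by rw [hab]; ring

variable {P : ℂ} {s U v A B x o p : ℝ}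

/-- Elementary consequences. -/
structure Aux (e κ s U v A B x o p K a δ η : ℝ) : Prop where
  a_pos : 0 < a
  a_lt : a < 1
  K_pos : 0 < K
  v_nn : 0 ≤ v
  A_nn : 0 ≤ A
  o_nn : 0 ≤ o
  x_nn : 0 ≤ x
  p_pos : 0 < p
  p_le : p ≤ 1
  U_nn : 0 ≤ U
  U_pos : 0 < U
  KA : K * A ≤ 9 / 20
  D_le : K * v * A ≤ 9 / 20 * v
  δ_def : δ = K * v * A * o
  δ_nn : 0 ≤ δ
  δ_le : δ ≤ 9 / 100 * x
  δ_le1 : δ ≤ 9 / 100
  η_def : η = K * A * o * (2 * x + δ)
  η_nn : 0 ≤ η
  ball1 : A + K * v * A * max p o ≤ a / 2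
  ball2 : p + K * v * A * max p o < 1
  ball3 : 0 < p - K * v * A * max p o

theorem aux_of (he : 1 ≤ e) (he2 : e ≤ 2) (hκ : 0 < κ) (F : Facts κ P s U v A B x o p) :
    Aux e κ s U v A B x o p (KK e κ) (Real.exp (-κ)) (KK e κ * v * A * o)
      (KK e κ * A * o * (2 * x + KK e κ * v * A * o)) := by
  have he0 : 0 < e := by linarith
  have hK := KK_pos (κ := κ) he0
  have hKa2 := KKa2 he he2 hκ
  have hv0 : 0 ≤ v := by rw [F.v_def]; exact norm_nonneg _
  have hKa := KKa he he2 hκ F.v_lt.le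
  have hA0 : 0 ≤ A := by rw [F.A_def]; exact norm_nonneg _
  have ho0 : 0 ≤ o := by rw [F.o_def]; exact norm_nonneg _
  have hx0 : 0 ≤ x := by rw [F.x_def]; exact norm_nonneg _
  have hp0 : 0 ≤ p := by rw [F.p_def]; exact norm_nonneg _
  have hU0 : 0 ≤ U := hv0.trans F.v_le_U
  have hs := F.s_pos
  have ha : 0 < Real.exp (-κ) := Real.exp_pos _
  have ha1 : Real.exp (-κ) < 1 := by rw [Real.exp_lt_one_iff]; linarith
  have hC1 := Real.one_le_cosh κ
  set K := KK e κ with hKd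
  set a := Real.exp (-κ) with had
  have hpp : 0 < p := by
    rcases hp0.lt_or_eq with h | h
    · exact h
    · have := F.p_ge2
      rw [← h] at this
      norm_num at this
  have hKA : K * A ≤ 9 / 20 := by
    calc K * A ≤ K * (9 / 20 * a ^ 2) := mul_le_mul_of_nonneg_left F.A_le2 hK.le
      _ = 9 / 20 * (K * a ^ 2) := by ring
      _ ≤ 9 / 20 * 1 := by linarith
      _ = 9 / 20 := by ring
  have hD : K * v * A ≤ 9 / 20 * v := by
    calc K * v * A = (K * A) * v := by ring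
      _ ≤ 9 / 20 * v := mul_le_mul_of_nonneg_right hKA hv0
  have hD0 : 0 ≤ K * v * A := by positivity
  have hv5 := F.v_lt
  have hD1 : K * v * A ≤ 9 / 100 := by linarith
  have hpsq := F.p_sq
  have hUs : 0 ≤ (3 + 4 * s) * U := by positivity
  have hp1 : p ≤ 1 := by nlinarith
  have ho1 := F.o_le_1
  have hmax1 : max p o ≤ 1 := max_le hp1 ho1
  have hmax0 : 0 ≤ max p o := le_max_of_le_left hp0
  have hR : K * v * A * max p o ≤ K * v * A := mul_le_of_le_one_right hD0 hmax1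
  have hUpos : 0 < U := by
    have h1 := F.U_eq
    have h2 : 0 < q4 s * U := by
      rw [h1]
      have := sq_nonneg x
      linarith
    have h3 := q4_pos (s := s) hs.le
    exact pos_of_mul_pos_right h2 (by linarith)
  refine ⟨ha, ha1, hK, hv0, hA0, ho0, hx0, hpp, hp1, hU0, hUpos, hKA, hD, rfl, by positivity, ?_, ?_,
    rfl, by positivity, ?_, ?_, ?_⟩
  · calc K * v * A * o ≤ 9 / 100 * o := mul_le_mul_of_nonneg_right hD1 ho0
      _ ≤ 9 / 100 * x := by have := F.o_le_x; linarith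
  · calc K * v * A * o ≤ 9 / 100 * o := mul_le_mul_of_nonneg_right hD1 ho0
      _ ≤ 9 / 100 := by linarith
  · have h1 : A + K * v * A ≤ a / 2 := by
      have e1 : A + K * v * A = (1 + K * v) * A := by ring
      rw [e1]
      have e2 : (1 + K * v) * A ≤ (1 + K * v) * (9 / 20 * a ^ 2) :=
        mul_le_mul_of_nonneg_left F.A_le2 (by positivity)
      have e3 : (1 + K * v) * (9 / 20 * a ^ 2) = 9 / 20 * a * ((1 + K * v) * a) := by ring
      have e4 : 9 / 20 * a * ((1 + K * v) * a) ≤ 9 / 20 * a * (10 / 9) :=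
        mul_le_mul_of_nonneg_left hKa (by positivity)
      linarith
    linarith
  · -- p + D ≤ 1
    have h1 : K * v * A ≤ 9 / 20 * U := hD.trans (by have := F.v_le_U; linarith)
    have h2 : p ≤ 1 - 3 / 2 * U := by
      by_contra hc
      push Not at hc
      have hU1 : U ≤ 1 / 3 := by nlinarith
      have h3 : (1 - 3 / 2 * U) ^ 2 < p ^ 2 := pow_lt_pow_left₀ hc (by linarith) (by norm_num)
      nlinarith
    nlinarith
  · -- D max < p
    have h2 := F.p_ge2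
    have h3 : K * v * A * max p o < p := by
      rcases le_total o p with h | h
      · rw [max_eq_left h]
        nlinarith
      · have h4 : K * v * A ≤ 9 / 20 * v := hD
        have hC0 : 0 < Real.cosh κ := by linarith
        have hv4 := F.v_le
        have hCs : Real.cosh κ ^ 2 = 1 + s := by
          rw [F.s_def, Real.cosh_sq]; ring
        -- v ≤ 1/(4 C²), p ≥ 1/(2C)
        have h5 : v * (2 * Real.cosh κ) ≤ 1 / 2 := by
          have h6 : v * (4 * Real.cosh κ ^ 2) ≤ 1 := by rw [hCs]; linarith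
          nlinarith [mul_nonneg hv0 (mul_nonneg hC0.le (sub_nonneg.2 hC1))]
        have h7 : v ≤ 1 / 2 * p * 1 := by
          by_contra hc
          push Not at hc
          nlinarith
        nlinarith
    linarith

/-- `1 + η ≤ (‖2C - P‖ - δ)²` -/
theorem W_ge (F : Facts κ P s U v A B x o p) {K a δ η : ℝ} (X : Aux e κ s U v A B x o p K a δ η) :
    1 + η ≤ (‖2 * (Real.cosh κ : ℂ) - P‖ - δ) ^ 2 ∧ 1 ≤ ‖2 * (Real.cosh κ : ℂ) - P‖ - δ := by
  have hC1 := Real.one_le_cosh κ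
  have hCs : Real.cosh κ ^ 2 = 1 + s := by rw [F.s_def, Real.cosh_sq]; ring
  set W0 := ‖2 * (Real.cosh κ : ℂ) - P‖ with hW0
  have hW00 : 0 ≤ W0 := norm_nonneg _
  have hs := F.s_pos
  have hx0 := X.x_nn
  have ho0 := X.o_nn
  have hU0 := X.U_nn
  have hxC : x ≤ Real.cosh κ := by
    have h1 := F.x_le
    have h2 := F.v_lt
    exact le_of_sq_le_sq (by rw [hCs]; linarith) (by linarith)
  have hW1 : W0 ≤ 2 * Real.cosh κ := by
    have e1 : 2 * (Real.cosh κ : ℂ) - P = (Real.cosh κ : ℂ) + ((Real.cosh κ : ℂ) - P) := by ring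
    have e2 := norm_add_le (Real.cosh κ : ℂ) ((Real.cosh κ : ℂ) - P)
    rw [← e1, Complex.norm_real, Real.norm_of_nonneg (by linarith), ← F.x_def] at e2
    linarith
  have hη : η ≤ 19 / 20 * x ^ 2 := by
    rw [X.η_def]
    have h1 : K * A * o ≤ 9 / 20 * x := by
      calc K * A * o ≤ 9 / 20 * o := mul_le_mul_of_nonneg_right X.KA ho0
        _ ≤ 9 / 20 * x := by have := F.o_le_x; linarith
    have h2 : 2 * x + δ ≤ 209 / 100 * x := by have := X.δ_le; linarith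
    have h3 : 0 ≤ 2 * x + δ := by have := X.δ_nn; linarith
    calc K * A * o * (2 * x + δ) ≤ 9 / 20 * x * (209 / 100 * x) :=
          mul_le_mul h1 h2 h3 (by positivity)
      _ ≤ 19 / 20 * x ^ 2 := by nlinarith [sq_nonneg x]
  have hxU : x ^ 2 ≤ (1 + 8 * s + 8 * s ^ 2) * U := by
    have := F.U_eq
    unfold q4 at this
    linarith
  have hδ : δ ≤ 9 / 20 * U := by
    rw [X.δ_def]
    have h1 : K * v * A * o ≤ K * v * A := by
      apply mul_le_of_le_one_right _ F.o_le_1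
      have := X.K_pos
      have := X.v_nn
      have := X.A_nn
      positivity
    have h2 := X.D_le
    have h3 := F.v_le_U
    linarith
  have hδ0 := X.δ_nn
  have h1 : 2 * δ * W0 ≤ 9 / 5 * (1 + s) * U := by
    have h2 : 2 * δ * W0 ≤ 2 * (9 / 20 * U) * (2 * Real.cosh κ) := by
      apply mul_le_mul (by linarith) hW1 hW00 (by positivity)
    have h3 : Real.cosh κ ≤ 1 + s := by rw [← hCs]; nlinarith
    nlinarith
  have hW := F.W_sq
  rw [← hW0] at hW
  have key : 1 + η ≤ W0 ^ 2 - 2 * δ * W0 := by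
    have hsU : 0 ≤ s * U := by positivity
    have hssU : 0 ≤ s ^ 2 * U := by positivity
    nlinarith
  have hη0 := X.η_nn
  have h4 : 1 + η ≤ (W0 - δ) ^ 2 := by nlinarith [sq_nonneg δ]
  refine ⟨h4, ?_⟩
  have h5 : 1 ≤ W0 := by
    have : 0 ≤ (5 + 20 * s + 16 * s ^ 2) * U := by positivity
    nlinarith
  have h6 := X.δ_le1
  nlinarith

end Pool.Agent.helper4.EQW
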