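import Pool.Agent.helper4.EQW.Conj
import Pool.Agent.helper63.EQC.AsmDefs

/-!
# EQW: the tail record for `1 ≤ e ≤ 2`
-/

namespace Pool.Agent.helper4.EQW

open Complex ComplexConjugate
open Pool.Agent.helper31.EQ.W (c2 gl gs nxt wn FW)
open Pool.Agent.helper63.EQC (Tail)

variable {e κ : ℝ}

private theorem T12_real {x : ℝ} (hx : |x| ≤ 1) : ‖(x : ℂ)‖ ≤ 1 := by
  rw [Complex.norm_real]
  exact hx

/-- The tail record. -/
noncomputable def tail12 (he : 1 ≤ e) (he2 : e ≤ 2) (hκ : 0 < κ) : Tail e κ (thT κ) where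
  Ω := OT κ
  isOpen_Ω := isOpen_OT κ
  r := rT e κ
  M := MT e κ
  r_diff := fun _ hY => rT_diff he he2 hκ hY
  M_diff := fun _ hY _ _ hx _ => MT_diff he he2 hκ hY hx _
  r_ne := fun _ hY => rT_ne he he2 hκ hY
  M_ne := fun _ hY _ _ hx _ => MT_ne he he2 hκ hY hx _
  r_real := fun _ hY => rT_real he he2 hκ hY
  M_real := fun Y hY x _ hx _ => MT_real he he2 hκ hY (T12_real hx) _
  conj_mem := fun _ hY => OT_conj hY
  r_conj := fun _ hY => rT_conj he he2 hκ hY
  inv := fun _ hY _ hx => inv_OT he he2 hκ hY hx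
  den_ne := fun _ hY => hY.1
  one_sub_ne := fun _ hY _ hx => one_sub_ne_OT he he2 hκ hY hx
  w_slit := fun _ hY _ hx => w_slit_OT he he2 hκ hY hx
  w_norm := fun _ hY _ hx => w_norm_OT he he2 hκ hY hx
  close := fun _ hY _ _ hx hx' => close_OT he he2 hκ hY hx hx'
  lam := max (Real.exp (-κ)) (9 / 10)
  hlam0 := le_max_of_le_right (by norm_num)
  hlam1 := max_lt (by rw [Real.exp_lt_one_iff]; linarith) (by norm_num)
  contr := by
    intro Y hY x hx
    have h1 := contr_OT he he2 hκ hY (T12_real hx)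
    have h2 : ‖(Y : ℂ) - ((Real.exp (-κ) : ℝ) : ℂ)‖ = |Y - Real.exp (-κ)| := by
      rw [← Complex.ofReal_sub, Complex.norm_real]
      rfl
    rw [h2] at h1
    refine le_trans ?_ h1
    have h3 : (nxt κ Y (rT e κ Y * x)).re - Real.exp (-κ) =
        (nxt κ Y (rT e κ Y * x) - ((Real.exp (-κ) : ℝ) : ℂ)).re := by
      rw [Complex.sub_re, Complex.ofReal_re]
    rw [h3]
    exact Complex.abs_re_le_norm _
  B := 1
  r_le := by
    intro Y hY
    have h1 := rT_le he he2 hκ hY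
    have h2 : ‖(Y : ℂ) - ((Real.exp (-κ) : ℝ) : ℂ)‖ = |Y - Real.exp (-κ)| := by
      rw [← Complex.ofReal_sub, Complex.norm_real]
      rfl
    rw [h2] at h1
    rw [one_mul]
    exact h1

end Pool.Agent.helper4.EQW
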