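import Pool.Agent.helper4.EQW.Gam

/-!
# EQW: variation of `Γ'` on small balls, Taylor estimates
-/

namespace Pool.Agent.helper4.EQW

open Complex Set Metric
open Pool.Agent.helper31.EQ.W (c2 gl gs nxt wn FW)

/-- `λ(m) = (1+3m)/((1+m/2)m)` -/
noncomputable def lamb (m : ℝ) : ℝ := (1 + 3 * m) / ((1 + m / 2) * m)

theorem lamb_pos {m : ℝ} (hm : 0 < m) : 0 < lamb m := by
  unfold lamb
  positivity

theorem lamb_anti {m y : ℝ} (hm : 0 < m) (hy : m ≤ y) : lamb y ≤ lamb m := by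
  unfold lamb
  have hy0 : 0 < y := by linarith
  rw [div_le_div_iff₀ (by positivity) (by positivity)]
  have h1 : 0 ≤ (y - m) := by linarith
  nlinarith [mul_nonneg h1 hm.le, mul_nonneg h1 hy0.le, mul_nonneg h1 (mul_pos hm hy0).le]

variable {a e κ R : ℝ} {P : ℂ}

/-- The ball of radius `R` at `P` is in the disc. -/
structure Ball (a R : ℝ) (P : ℂ) : Prop where
  ha : 0 < a
  hR : 0 ≤ R
  h1 : ‖P - (a : ℂ)‖ + R ≤ a / 2
  h2 : ‖P‖ + R ≤ 1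
  h3 : 0 < ‖P‖ - R

theorem Ball.disc (h : Ball a R P) {z : ℂ} (hz : ‖z - P‖ ≤ R) : ‖z - (a : ℂ)‖ ≤ a / 2 := by
  have e1 : z - (a : ℂ) = (z - P) + (P - (a : ℂ)) := by ring
  rw [e1]
  have := norm_add_le (z - P) (P - (a : ℂ))
  linarith [h.h1]

theorem Ball.le_one (h : Ball a R P) {z : ℂ} (hz : ‖z - P‖ ≤ R) : ‖z‖ ≤ 1 := by
  have e1 : z = (z - P) + P := by ring
  rw [e1]
  have := norm_add_le (z - P) P
  linarith [h.h2]

theorem ball_ge {z : ℂ} (hz : ‖z - P‖ ≤ R) : ‖P‖ - R ≤ ‖z‖ := by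
  have e1 : P = z - (z - P) := by ring
  have := norm_sub_le z (z - P)
  rw [← e1] at this
  linarith

theorem var_bound (he : 1 ≤ e) (he2 : e ≤ 2) (h : Ball a R P) (hl : lamb (‖P‖ - R) * R < 1) {z : ℂ}
    (hz : ‖z - P‖ ≤ R) :
    ‖G1 e κ z‖ ≤ ‖G1 e κ P‖ / (1 - lamb (‖P‖ - R) * R) ∧
    ‖G1 e κ z - G1 e κ P‖ ≤
      lamb (‖P‖ - R) * (‖G1 e κ P‖ / (1 - lamb (‖P‖ - R) * R)) * ‖z - P‖ := by
  set l := lamb (‖P‖ - R) with hld
  have he0 : 0 < e := by linarith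
  have hl0 : 0 < l := lamb_pos h.h3
  have hder : ∀ y ∈ closedBall P R, HasDerivAt (G1 e κ)
      (G1 e κ y * ((1 - ((e : ℂ) + 1) * y ^ (e : ℂ)) / (y * (1 + y ^ (e : ℂ))))) y := by
    intro y hy
    rw [mem_closedBall, dist_eq_norm] at hy
    exact G1_deriv he0 he2 h.ha (h.disc hy)
  have hcont : ContinuousOn (fun y => ‖G1 e κ y‖) (closedBall P R) := by
    intro y hy
    exact (hder y hy).continuousAt.norm.continuousWithinAt
  obtain ⟨w, hw, hmax⟩ := (isCompact_closedBall P R).exists_isMaxOn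
    ⟨P, mem_closedBall_self h.hR⟩ hcont
  have hM : ∀ y ∈ closedBall P R, ‖G1 e κ y‖ ≤ ‖G1 e κ w‖ := fun y hy => hmax hy
  set M := ‖G1 e κ w‖ with hMd
  have hM0 : 0 ≤ M := norm_nonneg _
  have hbd : ∀ y ∈ closedBall P R,
      ‖G1 e κ y * ((1 - ((e : ℂ) + 1) * y ^ (e : ℂ)) / (y * (1 + y ^ (e : ℂ))))‖ ≤ l * M := by
    intro y hy
    have hy' := hy
    rw [mem_closedBall, dist_eq_norm] at hy'
    rw [norm_mul, mul_comm]
    have h1 := G1_deriv_bound he he2 h.ha (h.disc hy') (h.le_one hy')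
    have h2 : (1 + 3 * ‖y‖) / ((1 + ‖y‖ / 2) * ‖y‖) ≤ l := lamb_anti h.h3 (ball_ge hy')
    exact mul_le_mul (h1.trans h2) (hM y hy) (norm_nonneg _) hl0.le
  have hlip : ∀ y ∈ closedBall P R, ‖G1 e κ y - G1 e κ P‖ ≤ l * M * ‖y - P‖ := by
    intro y hy
    exact (convex_closedBall P R).norm_image_sub_le_of_norm_hasDerivWithin_le
      (fun x hx => (hder x hx).hasDerivWithinAt) hbd (mem_closedBall_self h.hR) hy
  have hMP : M * (1 - l * R) ≤ ‖G1 e κ P‖ := by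
    have h1 := hlip w hw
    have h2 : ‖w - P‖ ≤ R := by
      rw [mem_closedBall, dist_eq_norm] at hw
      exact hw
    have h3 : ‖G1 e κ w‖ ≤ ‖G1 e κ w - G1 e κ P‖ + ‖G1 e κ P‖ := by
      have := norm_add_le (G1 e κ w - G1 e κ P) (G1 e κ P)
      rwa [sub_add_cancel] at this
    have h4 : l * M * ‖w - P‖ ≤ l * M * R := mul_le_mul_of_nonneg_left h2 (by positivity)
    nlinarith
  have h1l : 0 < 1 - l * R := by linarith
  have hMP' : M ≤ ‖G1 e κ P‖ / (1 - l * R) := (le_div_iff₀ h1l).2 hMP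
  have hzb : z ∈ closedBall P R := by rw [mem_closedBall, dist_eq_norm]; exact hz
  refine ⟨(hM z hzb).trans hMP', (hlip z hzb).trans ?_⟩
  gcongr

/-- Second order Taylor estimate. -/
theorem taylor2 (he : 1 ≤ e) (he2 : e ≤ 2) (h : Ball a R P) (hl : lamb (‖P‖ - R) * R < 1) {k : ℂ}
    (hk : ‖k‖ ≤ R) :
    ‖(c2 e κ : ℂ) * gs e (P + k) - (c2 e κ : ℂ) * gs e P - k * G1 e κ P‖ ≤
      lamb (‖P‖ - R) * (‖G1 e κ P‖ / (1 - lamb (‖P‖ - R) * R)) * ‖k‖ ^ 2 / 2 := by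
  set L := lamb (‖P‖ - R) * (‖G1 e κ P‖ / (1 - lamb (‖P‖ - R) * R)) with hL
  have he0 : 0 < e := by linarith
  have hseg : ∀ τ : ℝ, 0 ≤ τ → τ ≤ 1 → ‖(P + (τ : ℂ) * k) - P‖ ≤ R := by
    intro τ h0 h1
    rw [add_sub_cancel_left, norm_mul, Complex.norm_real, Real.norm_of_nonneg h0]
    have := norm_nonneg k
    nlinarith
  have hder : ∀ τ : ℝ, 0 ≤ τ → τ ≤ 1 → HasDerivAt
      (fun τ : ℝ => (c2 e κ : ℂ) * gs e (P + (τ : ℂ) * k) - (c2 e κ : ℂ) * gs e P -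
        (τ : ℂ) * (k * G1 e κ P)) (k * (G1 e κ (P + (τ : ℂ) * k) - G1 e κ P)) τ := by
    intro τ h0 h1
    have d1 : HasDerivAt (fun τ : ℝ => P + (τ : ℂ) * k) k τ := by
      have := ((Complex.ofRealCLM.hasDerivAt (x := τ)).mul_const k).const_add P
      simpa using this
    have d2 := (gs_deriv (κ := κ) he0 he2 h.ha (h.disc (hseg τ h0 h1))).comp τ d1
    have d3 : HasDerivAt (fun τ : ℝ => (τ : ℂ) * (k * G1 e κ P)) (k * G1 e κ P) τ := by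
      have := (Complex.ofRealCLM.hasDerivAt (x := τ)).mul_const (k * G1 e κ P)
      simpa using this
    have d4 := (d2.sub_const ((c2 e κ : ℂ) * gs e P)).sub d3
    refine d4.congr_deriv ?_
    ring
  have hres := image_norm_le_of_norm_deriv_right_le_deriv_boundary
    (f := fun τ : ℝ => (c2 e κ : ℂ) * gs e (P + (τ : ℂ) * k) - (c2 e κ : ℂ) * gs e P -
        (τ : ℂ) * (k * G1 e κ P))
    (f' := fun τ : ℝ => k * (G1 e κ (P + (τ : ℂ) * k) - G1 e κ P))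
    (a := 0) (b := 1) (B := fun τ : ℝ => L * ‖k‖ ^ 2 * (τ ^ 2 / 2))
    (B' := fun τ : ℝ => L * ‖k‖ ^ 2 * τ)
    (fun τ hτ => (hder τ hτ.1 hτ.2).continuousAt.continuousWithinAt)
    (fun τ hτ => (hder τ hτ.1 hτ.2.le).hasDerivWithinAt)
    (by simp)
    (by
      intro τ
      have d1 : HasDerivAt (fun τ : ℝ => τ ^ 2 / 2) τ τ := by
        have := (hasDerivAt_pow 2 τ).div_const 2
        refine this.congr_deriv ?_
        simp
      exact d1.const_mul _)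
    (by
      intro τ hτ
      have h1 := (var_bound (κ := κ) he he2 h hl (hseg τ hτ.1 hτ.2.le)).2
      rw [← hL, add_sub_cancel_left, norm_mul, Complex.norm_real, Real.norm_of_nonneg hτ.1] at h1
      show ‖k * (G1 e κ (P + (τ : ℂ) * k) - G1 e κ P)‖ ≤ L * ‖k‖ ^ 2 * τ
      rw [norm_mul]
      have h2 := mul_le_mul_of_nonneg_left h1 (norm_nonneg k)
      calc ‖k‖ * ‖G1 e κ (P + (τ : ℂ) * k) - G1 e κ P‖ ≤ ‖k‖ * (L * (τ * ‖k‖)) := h2
        _ = L * ‖k‖ ^ 2 * τ := by ring)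
  have hfin := hres (right_mem_Icc.2 zero_le_one)
  simp only [Complex.ofReal_one, one_mul] at hfin
  refine hfin.trans (le_of_eq ?_)
  ring

/-- The error of the linearisation at `P` between `P - dP` and `P + d(1-P)`. -/
theorem T3_bound (he : 1 ≤ e) (he2 : e ≤ 2) (h : Ball a R P) (hl : lamb (‖P‖ - R) * R < 1) {d : ℂ}
    (h1 : ‖d‖ * ‖P‖ ≤ R) (h2 : ‖d‖ * ‖1 - P‖ ≤ R) :
    ‖(c2 e κ : ℂ) * gs e (P + d * (1 - P)) - (c2 e κ : ℂ) * gs e (P * (1 - d)) - d * G1 e κ P‖ ≤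
      lamb (‖P‖ - R) * (‖G1 e κ P‖ / (1 - lamb (‖P‖ - R) * R)) * ‖d‖ ^ 2 *
        (‖P‖ ^ 2 + ‖1 - P‖ ^ 2) / 2 := by
  have t1 := taylor2 (κ := κ) he he2 h hl (k := d * (1 - P)) (by rw [norm_mul]; exact h2)
  have t2 := taylor2 (κ := κ) he he2 h hl (k := -(d * P)) (by rw [norm_neg, norm_mul]; exact h1)
  have e1 : P + -(d * P) = P * (1 - d) := by ring
  rw [e1] at t2
  have e2 : (c2 e κ : ℂ) * gs e (P + d * (1 - P)) - (c2 e κ : ℂ) * gs e (P * (1 - d)) -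
      d * G1 e κ P = ((c2 e κ : ℂ) * gs e (P + d * (1 - P)) - (c2 e κ : ℂ) * gs e P -
        d * (1 - P) * G1 e κ P) - ((c2 e κ : ℂ) * gs e (P * (1 - d)) - (c2 e κ : ℂ) * gs e P -
        -(d * P) * G1 e κ P) := by ring
  rw [e2]
  refine (norm_sub_le _ _).trans ?_
  rw [norm_neg, norm_mul] at t2
  rw [norm_mul] at t1
  refine (add_le_add t1 t2).trans (le_of_eq ?_)
  ring

/-- `Γ` of the next node: `w' = W/(1-d')`, `P' = 1/W`. -/
theorem T1_bound (he : 1 ≤ e) (he2 : e ≤ 2) {d : ℂ} (h : Ball a (‖P‖ * ‖d‖) P)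
    (hd : 11 / 3 * ‖d‖ < 1) :
    ‖(c2 e κ : ℂ) * h0 e (P * (1 - d)) - (c2 e κ : ℂ) * h0 e P‖ ≤
      ‖d‖ * ‖G1 e κ P‖ * ‖P‖ ^ (e - 1) / (1 - 11 / 3 * ‖d‖) := by
  have he0 : 0 < e := by linarith
  set δ := ‖d‖ with hδ
  have hδ0 : 0 ≤ δ := norm_nonneg _
  have hP0 : 0 < ‖P‖ := by
    have h3 := h.h3
    have : 0 ≤ ‖P‖ * δ := by positivity
    linarith
  have hP1 : ‖P‖ ≤ 1 := by
    have h3 := h.h2
    have : 0 ≤ ‖P‖ * δ := by positivity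
    linarith
  have hδ1 : δ < 1 := by linarith
  have h1δ : 0 < 1 - δ := by linarith
  -- λ R
  have hlR : lamb (‖P‖ - ‖P‖ * δ) * (‖P‖ * δ) ≤ 8 / 3 * δ / (1 - δ) := by
    unfold lamb
    have hm : ‖P‖ - ‖P‖ * δ = ‖P‖ * (1 - δ) := by ring
    rw [hm]
    set m := ‖P‖ * (1 - δ) with hmd
    have hm0 : 0 < m := by positivity
    have hm1 : m ≤ 1 := by
      rw [hmd]
      nlinarith
    have e1 : (1 + 3 * m) / ((1 + m / 2) * m) * (‖P‖ * δ) =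
        (1 + 3 * m) / (1 + m / 2) * (δ / (1 - δ)) := by
      rw [hmd]
      field_simp
    rw [e1]
    have e2 : (1 + 3 * m) / (1 + m / 2) ≤ 8 / 3 := by
      rw [div_le_iff₀ (by positivity)]
      linarith
    have e3 : 0 ≤ δ / (1 - δ) := by positivity
    calc (1 + 3 * m) / (1 + m / 2) * (δ / (1 - δ)) ≤ 8 / 3 * (δ / (1 - δ)) :=
          mul_le_mul_of_nonneg_right e2 e3
      _ = 8 / 3 * δ / (1 - δ) := by ring
  have hk : 0 < 1 - 11 / 3 * δ := by linarith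
  have hl2 : 1 - 11 / 3 * δ ≤ (1 - δ) * (1 - lamb (‖P‖ - ‖P‖ * δ) * (‖P‖ * δ)) := by
    have e1 : (1 - δ) * (lamb (‖P‖ - ‖P‖ * δ) * (‖P‖ * δ)) ≤ (1 - δ) * (8 / 3 * δ / (1 - δ)) :=
      mul_le_mul_of_nonneg_left hlR h1δ.le
    have e2 : (1 - δ) * (8 / 3 * δ / (1 - δ)) = 8 / 3 * δ := by field_simp
    rw [e2] at e1
    linarith
  have hl1 : lamb (‖P‖ - ‖P‖ * δ) * (‖P‖ * δ) < 1 := by
    by_contra hc
    push Not at hc
    have : (1 - δ) * (1 - lamb (‖P‖ - ‖P‖ * δ) * (‖P‖ * δ)) ≤ 0 :=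
      mul_nonpos_of_nonneg_of_nonpos h1δ.le (by linarith)
    linarith
  set G := ‖G1 e κ P‖ / (1 - lamb (‖P‖ - ‖P‖ * δ) * (‖P‖ * δ)) with hG
  have hball : ∀ τ : ℝ, 0 ≤ τ → τ ≤ 1 → ‖P * (1 - (τ : ℂ) * d) - P‖ ≤ ‖P‖ * δ := by
    intro τ h0 h1
    have : P * (1 - (τ : ℂ) * d) - P = -(P * ((τ : ℂ) * d)) := by ring
    rw [this, norm_neg, norm_mul, norm_mul, Complex.norm_real, Real.norm_of_nonneg h0]
    have : τ * ‖d‖ ≤ δ := by nlinarith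
    exact mul_le_mul_of_nonneg_left this hP0.le
  have hder : ∀ τ : ℝ, 0 ≤ τ → τ ≤ 1 → HasDerivAt
      (fun τ : ℝ => (c2 e κ : ℂ) * h0 e (P * (1 - (τ : ℂ) * d)))
      ((c2 e κ : ℂ) * (-((P * (1 - (τ : ℂ) * d)) ^ ((e : ℂ) - 1) *
        f0 e (P * (1 - (τ : ℂ) * d)) ^ (-((1 + 2 / e : ℝ) : ℂ))) * (-(P * d)))) τ := by
    intro τ h0' h1'
    have d1 : HasDerivAt (fun τ : ℝ => P * (1 - (τ : ℂ) * d)) (-(P * d)) τ := by
      have := (((Complex.ofRealCLM.hasDerivAt (x := τ)).mul_const d).const_sub 1).const_mul P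
      simpa using this
    exact ((h0_deriv he0 he2 h.ha (h.disc (hball τ h0' h1'))).comp τ d1).const_mul _
  have hbound : ∀ τ : ℝ, 0 ≤ τ → τ ≤ 1 →
      ‖(c2 e κ : ℂ) * (-((P * (1 - (τ : ℂ) * d)) ^ ((e : ℂ) - 1) *
        f0 e (P * (1 - (τ : ℂ) * d)) ^ (-((1 + 2 / e : ℝ) : ℂ))) * (-(P * d)))‖ ≤
      δ * G * ‖P‖ ^ (e - 1) / (1 - δ) := by
    intro τ h0' h1'
    have hb := hball τ h0' h1'
    set y := P * (1 - (τ : ℂ) * d) with hy
    have hyd := h.disc hb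
    have hyp := disc_norm_pos h.ha hyd
    have hvar := (var_bound (κ := κ) he he2 h hl1 hb).1
    rw [← hG] at hvar
    rw [norm_G1] at hvar
    have hexp : ((e : ℂ) - 1) = ((e - 1 : ℝ) : ℂ) := by push_cast; rfl
    have hn0 : (-((1 + 2 / e : ℝ) : ℂ)) = ((-(1 + 2 / e) : ℝ) : ℂ) := by push_cast; rfl
    rw [norm_mul, norm_mul, norm_neg, norm_neg, norm_mul, norm_mul, hexp, hn0,
      Complex.norm_cpow_real, Complex.norm_cpow_real, Complex.norm_real,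
      Real.norm_of_nonneg (c2_pos e κ).le]
    set F := ‖f0 e y‖ ^ (-(1 + 2 / e)) with hF
    have hF0 : 0 ≤ F := Real.rpow_nonneg (norm_nonneg _) _
    -- ‖y‖^(e-1) = ‖y‖ * ‖y‖^(e-2)
    have e1 : ‖y‖ ^ (e - 1) = ‖y‖ * ‖y‖ ^ (e - 2) := by
      have : e - 1 = 1 + (e - 2) := by ring
      rw [this, Real.rpow_add hyp, Real.rpow_one]
    have e2 : ‖P‖ ^ (e - 1) = ‖P‖ * ‖P‖ ^ (e - 2) := by
      have : e - 1 = 1 + (e - 2) := by ring
      rw [this, Real.rpow_add hP0, Real.rpow_one]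
    have hylow : ‖P‖ * (1 - δ) ≤ ‖y‖ := by
      have := ball_ge hb
      linarith
    have e3 : ‖y‖ ^ (e - 2) ≤ ‖P‖ ^ (e - 2) / (1 - δ) := by
      have s1 : ‖y‖ ^ (e - 2) ≤ (‖P‖ * (1 - δ)) ^ (e - 2) :=
        Real.rpow_le_rpow_of_nonpos (by positivity) hylow (by linarith)
      have s2 : (‖P‖ * (1 - δ)) ^ (e - 2) = ‖P‖ ^ (e - 2) * (1 - δ) ^ (e - 2) :=
        Real.mul_rpow hP0.le h1δ.le
      have s3 : (1 - δ) ^ (e - 2) ≤ (1 - δ) ^ (-1 : ℝ) :=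
        Real.rpow_le_rpow_of_exponent_ge h1δ (by linarith) (by linarith)
      rw [Real.rpow_neg_one] at s3
      rw [s2] at s1
      refine s1.trans ?_
      rw [div_eq_mul_inv]
      exact mul_le_mul_of_nonneg_left s3 (Real.rpow_nonneg hP0.le _)
    have hPe : 0 ≤ ‖P‖ ^ (e - 2) := Real.rpow_nonneg hP0.le _
    rw [e1, e2]
    calc c2 e κ * (‖y‖ * ‖y‖ ^ (e - 2) * F * (‖P‖ * ‖d‖)) =
          (c2 e κ * ‖y‖ * F) * (‖y‖ ^ (e - 2)) * (‖P‖ * δ) := by ring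
      _ ≤ G * (‖P‖ ^ (e - 2) / (1 - δ)) * (‖P‖ * δ) := by
          apply mul_le_mul_of_nonneg_right _ (by positivity)
          apply mul_le_mul hvar e3 (Real.rpow_nonneg hyp.le _)
          rw [hG]
          apply div_nonneg (norm_nonneg _)
          linarith
      _ = δ * G * (‖P‖ * ‖P‖ ^ (e - 2)) / (1 - δ) := by ring
  have hmv := (convex_Icc (0 : ℝ) 1).norm_image_sub_le_of_norm_hasDerivWithin_le
    (f := fun τ : ℝ => (c2 e κ : ℂ) * h0 e (P * (1 - (τ : ℂ) * d)))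
    (fun τ hτ => (hder τ hτ.1 hτ.2).hasDerivWithinAt)
    (fun τ hτ => hbound τ hτ.1 hτ.2)
    (left_mem_Icc.2 zero_le_one) (right_mem_Icc.2 zero_le_one)
  simp only [Complex.ofReal_one, one_mul, Complex.ofReal_zero, zero_mul, sub_zero, mul_one] at hmv
  rw [norm_one, mul_one] at hmv
  refine hmv.trans ?_
  rw [hG]
  have hPe : 0 ≤ ‖P‖ ^ (e - 1) := Real.rpow_nonneg hP0.le _
  have hl3 : 0 < 1 - lamb (‖P‖ - ‖P‖ * δ) * (‖P‖ * δ) := by linarith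
  have e5 : δ * (‖G1 e κ P‖ / (1 - lamb (‖P‖ - ‖P‖ * δ) * (‖P‖ * δ))) * ‖P‖ ^ (e - 1) / (1 - δ) =
      δ * ‖G1 e κ P‖ * ‖P‖ ^ (e - 1) / ((1 - δ) * (1 - lamb (‖P‖ - ‖P‖ * δ) * (‖P‖ * δ))) := by
    field_simp
  rw [e5]
  apply div_le_div_of_nonneg_left _ hk hl2
  positivity

end Pool.Agent.helper4.EQW
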